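import Mathlib

/-! Cesaro averages and the Turan-Kubilius inequality. -/

namespace Pool.Agent.MP_57adf2_an.H72

open Finset Filter Topology

variable {E : Type*} [SeminormedAddCommGroup E] [NormedSpace ℝ E]

/-- The average of `a n` over `1 ≤ n ≤ x`. -/
noncomputable def M (a : ℕ → E) (x : ℝ) : E := x⁻¹ • ∑ n ∈ Ioc 0 ⌊x⌋₊, a n

lemma M_nat (a : ℕ → E) (N : ℕ) : M a N = (N : ℝ)⁻¹ • ∑ n ∈ Ioc 0 N, a n := by
  simp [M]

lemma M_add (a b : ℕ → E) (x : ℝ) : M (fun n => a n + b n) x = M a x + M b x := by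
  simp [M, Finset.sum_add_distrib]

lemma M_sub (a b : ℕ → E) (x : ℝ) : M (fun n => a n - b n) x = M a x - M b x := by
  simp [M, Finset.sum_sub_distrib, smul_sub]

lemma M_smul (c : ℝ) (a : ℕ → E) (x : ℝ) : M (fun n => c • a n) x = c • M a x := by
  simp only [M, ← Finset.smul_sum]; rw [smul_comm]

lemma M_sum {ι : Type*} (s : Finset ι) (a : ι → ℕ → E) (x : ℝ) :
    M (fun n => ∑ i ∈ s, a i n) x = ∑ i ∈ s, M (a i) x := by
  simp only [M, ← Finset.smul_sum]; rw [Finset.sum_comm]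

lemma M_comm (a : ℕ → ℕ → E) (x y : ℝ) :
    M (fun m => M (fun n => a m n) y) x = M (fun n => M (fun m => a m n) x) y := by
  simp only [M, ← Finset.smul_sum]
  rw [smul_comm, Finset.sum_comm]

lemma M_map {E' : Type*} [SeminormedAddCommGroup E'] [NormedSpace ℝ E'] (L : E →ₗ[ℝ] E')
    (a : ℕ → E) (x : ℝ) : M (fun n => L (a n)) x = L (M a x) := by
  simp [M]

lemma M_congr {a b : ℕ → E} {x : ℝ} (h : ∀ n : ℕ, 0 < n → (n : ℝ) ≤ x → a n = b n) :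
    M a x = M b x := by
  unfold M
  congr 1
  refine Finset.sum_congr rfl fun n hn => ?_
  rw [Finset.mem_Ioc] at hn
  have h0 : 0 ≤ x := by
    by_contra h0
    rw [Nat.floor_of_nonpos (not_le.1 h0).le] at hn
    omega
  exact h n hn.1 ((Nat.le_floor_iff h0).1 hn.2)

lemma M_mono {a b : ℕ → ℝ} {x : ℝ} (h : ∀ n : ℕ, 0 < n → (n : ℝ) ≤ x → a n ≤ b n) :
    M a x ≤ M b x := by
  rcases le_or_gt x 0 with h0 | h0
  · simp [M, Nat.floor_of_nonpos h0]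
  unfold M
  simp only [smul_eq_mul]
  refine mul_le_mul_of_nonneg_left (Finset.sum_le_sum fun n hn => ?_) (inv_nonneg.2 h0.le)
  rw [Finset.mem_Ioc] at hn
  exact h n hn.1 ((Nat.le_floor_iff h0.le).1 hn.2)

lemma norm_M_le_M (a : ℕ → E) (x : ℝ) : ‖M a x‖ ≤ M (fun n => ‖a n‖) x := by
  rcases le_or_gt x 0 with h0 | h0
  · simp [M, Nat.floor_of_nonpos h0]
  unfold M
  rw [norm_smul, smul_eq_mul, Real.norm_of_nonneg (inv_nonneg.2 h0.le)]
  exact mul_le_mul_of_nonneg_left (norm_sum_le _ _) (inv_nonneg.2 h0.le)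

lemma M_const_le {c : ℝ} (hc : 0 ≤ c) (x : ℝ) : M (fun _ => c) x ≤ c := by
  rcases le_or_gt x 0 with h0 | h0
  · simp [M, Nat.floor_of_nonpos h0, hc]
  simp only [M, Finset.sum_const, Nat.card_Ioc, tsub_zero, nsmul_eq_mul, smul_eq_mul]
  rw [← mul_assoc]
  refine mul_le_of_le_one_left hc ?_
  rw [inv_mul_le_iff₀ h0, mul_one]
  exact Nat.floor_le h0.le

lemma M_const_nat (c : E) {N : ℕ} (hN : 0 < N) : M (fun _ => c) N = c := by
  rw [M_nat, Finset.sum_const, Nat.card_Ioc, tsub_zero, ← Nat.cast_smul_eq_nsmul ℝ, smul_smul,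
    inv_mul_cancel₀ (by exact_mod_cast hN.ne'), one_smul]

lemma norm_M_le_of_le {a : ℕ → E} {b : ℕ → ℝ} {x : ℝ}
    (h : ∀ n : ℕ, 0 < n → (n : ℝ) ≤ x → ‖a n‖ ≤ b n) : ‖M a x‖ ≤ M b x :=
  (norm_M_le_M a x).trans (M_mono h)

lemma norm_M_le {a : ℕ → E} {c : ℝ} (hc : 0 ≤ c) {x : ℝ}
    (h : ∀ n : ℕ, 0 < n → (n : ℝ) ≤ x → ‖a n‖ ≤ c) : ‖M a x‖ ≤ c :=
  (norm_M_le_of_le h).trans (M_const_le hc x)

lemma M_le {a : ℕ → ℝ} {c : ℝ} (hc : 0 ≤ c) {x : ℝ}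
    (h : ∀ n : ℕ, 0 < n → (n : ℝ) ≤ x → a n ≤ c) : M a x ≤ c :=
  (M_mono h).trans (M_const_le hc x)

lemma M_nonneg {a : ℕ → ℝ} {x : ℝ} (h : ∀ n : ℕ, 0 < n → (n : ℝ) ≤ x → 0 ≤ a n) : 0 ≤ M a x := by
  have := M_mono (a := fun _ => 0) (b := a) h
  simpa [M] using this

lemma M_lip {a : ℕ → E} (ha : ∀ n, ‖a n‖ ≤ 1) {x y : ℝ} (hx : 0 < x) (hxy : x ≤ y) :
    ‖M a y - M a x‖ ≤ (2 * (y - x) + 1) / y := by
  have hy : 0 < y := hx.trans_le hxy
  have hfl : ⌊x⌋₊ ≤ ⌊y⌋₊ := Nat.floor_le_floor hxy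
  have h1 : M a y - M a x = y⁻¹ • ∑ n ∈ Ioc ⌊x⌋₊ ⌊y⌋₊, a n - ((y - x) / y) • M a x := by
    unfold M
    rw [← Finset.sum_Ioc_consecutive _ (Nat.zero_le _) hfl, smul_smul, smul_add]
    have : (y - x) / y * x⁻¹ = x⁻¹ - y⁻¹ := by field_simp
    rw [this, sub_smul]; abel
  have h2 : ‖∑ n ∈ Ioc ⌊x⌋₊ ⌊y⌋₊, a n‖ ≤ y - x + 1 := by
    refine (norm_sum_le_of_le _ fun n _ => ha n).trans ?_
    rw [Finset.sum_const, Nat.card_Ioc, nsmul_eq_mul, mul_one, Nat.cast_sub hfl]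
    have := Nat.floor_le hy.le
    have := Nat.lt_floor_add_one x
    linarith
  have h3 : ‖M a x‖ ≤ 1 := norm_M_le zero_le_one fun n _ _ => ha n
  rw [h1]
  refine (norm_sub_le _ _).trans ?_
  have h4 : 0 ≤ (y - x) / y := div_nonneg (by linarith) hy.le
  rw [norm_smul, norm_smul, Real.norm_of_nonneg (inv_nonneg.2 hy.le), Real.norm_of_nonneg h4]
  calc y⁻¹ * ‖∑ n ∈ Ioc ⌊x⌋₊ ⌊y⌋₊, a n‖ + (y - x) / y * ‖M a x‖
      ≤ y⁻¹ * (y - x + 1) + (y - x) / y * 1 :=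
        add_le_add (mul_le_mul_of_nonneg_left h2 (inv_nonneg.2 hy.le))
          (mul_le_mul_of_nonneg_left h3 h4)
    _ = (2 * (y - x) + 1) / y := by field_simp; ring

omit [NormedSpace ℝ E] in
lemma sum_Ioc_div (a : ℕ → E) (N : ℕ) {p : ℕ} (hp : 0 < p) :
    ∑ n ∈ Ioc 0 (N / p), a (p * n) = ∑ n ∈ Ioc 0 N, if p ∣ n then a n else 0 := by
  rw [← Finset.sum_filter]
  refine Finset.sum_bij (fun n _ => p * n) ?_ ?_ ?_ (fun _ _ => rfl)
  · intro n hn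
    simp only [Finset.mem_Ioc, Finset.mem_filter] at hn ⊢
    exact ⟨⟨Nat.mul_pos hp hn.1, by
      rw [mul_comm]; exact (Nat.le_div_iff_mul_le hp).1 hn.2⟩, dvd_mul_right _ _⟩
  · intro n _ m _ h
    exact Nat.eq_of_mul_eq_mul_left hp h
  · intro n hn
    simp only [Finset.mem_Ioc, Finset.mem_filter] at hn
    obtain ⟨⟨h1, h2⟩, m, rfl⟩ := hn
    refine ⟨m, ?_, rfl⟩
    rw [Finset.mem_Ioc]
    exact ⟨Nat.pos_of_mul_pos_left h1, (Nat.le_div_iff_mul_le hp).2 (by rwa [mul_comm])⟩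

lemma M_dilate (a : ℕ → E) {x : ℝ} (hx : 0 < x) {p : ℕ} (hp : 0 < p) :
    (p : ℝ)⁻¹ • M (fun n => a (p * n)) (x / p) = M (fun n => if p ∣ n then a n else 0) x := by
  unfold M
  rw [Nat.floor_div_natCast, sum_Ioc_div a _ hp, smul_smul]
  congr 1
  have : (0 : ℝ) < p := by exact_mod_cast hp
  field_simp

lemma sum_dvd_eq (N p : ℕ) : ∑ n ∈ Ioc 0 N, (if p ∣ n then (1 : ℝ) else 0) = (N / p : ℕ) := by
  rw [Finset.sum_boole, Nat.Ioc_filter_dvd_card_eq_div]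

lemma variance_le (B : Finset ℕ) (hB : ∀ p ∈ B, p.Prime) (N : ℕ) :
    ∑ n ∈ Ioc 0 N, ((∑ p ∈ B, if p ∣ n then (1 : ℝ) else 0) - ∑ p ∈ B, (p : ℝ)⁻¹) ^ 2 ≤
      N * ∑ p ∈ B, (p : ℝ)⁻¹ + 2 * (∑ p ∈ B, (p : ℝ)⁻¹) * B.card := by
  set L := ∑ p ∈ B, (p : ℝ)⁻¹ with hL
  have hL0 : 0 ≤ L := Finset.sum_nonneg fun p _ => by positivity
  have h1 : N * L - B.card ≤ ∑ n ∈ Ioc 0 N, ∑ p ∈ B, if p ∣ n then (1 : ℝ) else 0 := by
    rw [Finset.sum_comm, hL, Finset.mul_sum, Finset.card_eq_sum_ones, Nat.cast_sum,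
      ← Finset.sum_sub_distrib]
    refine Finset.sum_le_sum fun p hp => ?_
    rw [sum_dvd_eq]
    have h0 : (0 : ℝ) < p := by exact_mod_cast (hB p hp).pos
    have := Nat.lt_floor_add_one ((N : ℝ) / p)
    rw [Nat.floor_div_natCast, Nat.floor_natCast, div_eq_mul_inv] at this
    push_cast at this ⊢
    linarith
  have h2 : ∑ n ∈ Ioc 0 N, (∑ p ∈ B, if p ∣ n then (1 : ℝ) else 0) ^ 2 ≤ N * L + N * L ^ 2 := by
    simp only [pow_two, Finset.sum_mul_sum]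
    rw [Finset.sum_comm, hL, Finset.sum_mul_sum, Finset.mul_sum, Finset.mul_sum,
      ← Finset.sum_add_distrib]
    refine Finset.sum_le_sum fun p hp => ?_
    rw [Finset.sum_comm, Finset.mul_sum]
    have h3 : (N : ℝ) * (p : ℝ)⁻¹ = ∑ q ∈ B, if q = p then (N : ℝ) * (p : ℝ)⁻¹ else 0 := by
      rw [Finset.sum_ite_eq', if_pos hp]
    rw [h3, ← Finset.sum_add_distrib]
    refine Finset.sum_le_sum fun q hq => ?_
    by_cases hqp : q = p
    · subst hqp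
      have h4 : ∀ n, ((if q ∣ n then (1 : ℝ) else 0) * if q ∣ n then (1 : ℝ) else 0) =
          if q ∣ n then (1 : ℝ) else 0 := fun n => by split_ifs <;> simp
      simp only [h4, if_true]
      rw [sum_dvd_eq]
      have := Nat.cast_div_le (α := ℝ) (m := N) (n := q)
      rw [div_eq_mul_inv] at this
      have h5 : 0 ≤ (N : ℝ) * ((q : ℝ)⁻¹ * (q : ℝ)⁻¹) := by positivity
      linarith
    · have hc : Nat.Coprime p q := (Nat.coprime_primes (hB p hp) (hB q hq)).2 (Ne.symm hqp)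
      have h4 : ∀ n, ((if p ∣ n then (1 : ℝ) else 0) * if q ∣ n then (1 : ℝ) else 0) =
          if p * q ∣ n then (1 : ℝ) else 0 := fun n => by
        by_cases h5 : p * q ∣ n
        · rw [if_pos h5, if_pos (dvd_of_mul_right_dvd h5), if_pos (dvd_of_mul_left_dvd h5), one_mul]
        · rw [if_neg h5]
          by_cases h6 : p ∣ n
          · rw [if_neg fun h7 => h5 (hc.mul_dvd_of_dvd_of_dvd h6 h7), mul_zero]
          · rw [if_neg h6, zero_mul]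
      simp only [h4, if_neg hqp, zero_add]
      rw [sum_dvd_eq]
      have := Nat.cast_div_le (α := ℝ) (m := N) (n := p * q)
      rw [div_eq_mul_inv, Nat.cast_mul, mul_inv] at this
      exact this
  have h3 : ∑ n ∈ Ioc 0 N, ((∑ p ∈ B, if p ∣ n then (1 : ℝ) else 0) - L) ^ 2 =
      ∑ n ∈ Ioc 0 N, (∑ p ∈ B, if p ∣ n then (1 : ℝ) else 0) ^ 2 -
        2 * L * ∑ n ∈ Ioc 0 N, (∑ p ∈ B, if p ∣ n then (1 : ℝ) else 0) + N * L ^ 2 := by
    simp only [sub_sq]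
    rw [Finset.sum_add_distrib, Finset.sum_sub_distrib, Finset.sum_const, Nat.card_Ioc,
      Finset.mul_sum]
    simp only [tsub_zero, nsmul_eq_mul]
    congr 2
    exact Finset.sum_congr rfl fun n _ => by ring
  rw [h3]
  nlinarith

lemma abs_le_add_sq_div {η : ℝ} (hη : 0 < η) (y : ℝ) : |y| ≤ η + y ^ 2 / η := by
  rcases le_total |y| η with h | h
  · have : 0 ≤ y ^ 2 / η := by positivity
    linarith
  · have : |y| ≤ y ^ 2 / η := by
      rw [le_div_iff₀ hη, ← sq_abs y, pow_two]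
      exact mul_le_mul_of_nonneg_left h (abs_nonneg y)
    linarith

/-- The Turan-Kubilius inequality in dual form. -/
theorem TK {η : ℝ} (hη : 0 < η) (B : Finset ℕ) (hB : ∀ p ∈ B, p.Prime)
    (hL : 2 / η ^ 2 ≤ ∑ p ∈ B, (p : ℝ)⁻¹) :
    ∀ᶠ x : ℝ in atTop, ∀ a : ℕ → E, (∀ n, ‖a n‖ ≤ 1) →
      ‖M a x - (∑ p ∈ B, (p : ℝ)⁻¹)⁻¹ •
        ∑ p ∈ B, (p : ℝ)⁻¹ • M (fun n => a (p * n)) (x / p)‖ ≤ 2 * η := by
  set L := ∑ p ∈ B, (p : ℝ)⁻¹ with hLdef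
  have hL0 : 0 < L := lt_of_lt_of_le (by positivity) hL
  filter_upwards [eventually_gt_atTop 0, eventually_ge_atTop (2 * (B.card : ℝ))] with x hx hxB a ha
  have h1 : ∑ p ∈ B, (p : ℝ)⁻¹ • M (fun n => a (p * n)) (x / p) =
      M (fun n => (∑ p ∈ B, if p ∣ n then (1 : ℝ) else 0) • a n) x := by
    rw [Finset.sum_congr rfl fun p hp => M_dilate a hx (hB p hp).pos, ← M_sum]
    congr 1
    ext n
    rw [Finset.sum_smul]
    exact Finset.sum_congr rfl fun p _ => by split_ifs <;> simp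
  rw [h1, ← M_smul, ← M_sub]
  refine (norm_M_le_of_le (b := fun n => η + (η * L ^ 2)⁻¹ *
    ((∑ p ∈ B, if p ∣ n then (1 : ℝ) else 0) - L) ^ 2) fun n _ _ => ?_).trans ?_
  · set w := ∑ p ∈ B, if p ∣ n then (1 : ℝ) else 0
    have : a n - L⁻¹ • w • a n = (-((w - L) / L)) • a n := by
      rw [smul_smul]
      nth_rewrite 1 [← one_smul ℝ (a n)]
      rw [← sub_smul]; congr 1; field_simp; ring
    rw [this, norm_smul, Real.norm_eq_abs, abs_neg]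
    refine (mul_le_of_le_one_right (abs_nonneg _) (ha n)).trans
      ((abs_le_add_sq_div hη _).trans (le_of_eq ?_))
    field_simp
  · rw [M_add]
    have h2 := M_const_le hη.le x
    have h3 := M_smul (E := ℝ) (η * L ^ 2)⁻¹
      (fun n => ((∑ p ∈ B, if p ∣ n then (1 : ℝ) else 0) - L) ^ 2) x
    simp only [smul_eq_mul] at h3
    rw [h3]
    have h4 : M (fun n => ((∑ p ∈ B, if p ∣ n then (1 : ℝ) else 0) - L) ^ 2) x ≤ 2 * L := by
      unfold M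
      rw [smul_eq_mul, inv_mul_le_iff₀ hx]
      refine (variance_le B hB _).trans ?_
      have := Nat.floor_le hx.le
      rw [← hLdef]
      nlinarith
    have h5 : (η * L ^ 2)⁻¹ * (2 * L) ≤ η := by
      rw [div_le_iff₀ (by positivity)] at hL
      rw [inv_mul_le_iff₀ (by positivity)]
      nlinarith
    have h6 := mul_le_mul_of_nonneg_left h4 (by positivity : 0 ≤ (η * L ^ 2)⁻¹)
    linarith

end Pool.Agent.MP_57adf2_an.H72
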