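import Pool.Agent.MP_57adf2_an.H72.Katai

/-! Convergence of the four-term averages in the abstract setting. -/

namespace Pool.Agent.MP_57adf2_an.H72

open Finset Filter Topology

variable {A : Type*} [L2Alg A]

lemma Bd.M_div {a : ℕ → A} {w : ℕ → ℝ} (ha : ∀ k, Bd (a k)) (hw : ∀ k, 0 ≤ w k) {x : ℝ}
    (hx : 0 < M w x) : Bd ((M w x)⁻¹ • M (fun k => w k • a k) x) := fun g => by
  rw [smul_mul_assoc, norm_smul, Real.norm_of_nonneg (inv_nonneg.2 hx.le), inv_mul_le_iff₀ hx]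
  have h1 := M_map (LinearMap.mulRight ℝ g) (fun k => w k • a k) x
  have h2 := M_smul ‖g‖ w x
  simp only [LinearMap.mulRight_apply] at h1
  simp only [smul_eq_mul] at h2
  rw [← h1, mul_comm, ← h2]
  refine norm_M_le_of_le fun k _ _ => ?_
  rw [smul_mul_assoc, norm_smul, Real.norm_of_nonneg (hw k), mul_comm]
  exact mul_le_mul_of_nonneg_right (ha k g) (hw k)

lemma natCast_eq_iff {Q : ℕ} [NeZero Q] (k : ℕ) (c : ZMod Q) :
    (k : ZMod Q) = c ↔ k ≡ c.val [MOD Q] := by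
  rw [← ZMod.natCast_eq_natCast_iff, ZMod.natCast_zmod_val]

namespace MF

variable {Γ : Type*} [CommGroup Γ] (t : MF Γ) (X : Act Γ A)

lemma exists_structured {Q : ℕ} (hQ : Q ≠ 0) {F : A} (hF : Bd F) {κ : ℝ} (hκ : 0 < κ) :
    ∃ G : ZMod Q → A, (∀ c, Bd (G c)) ∧ ∀ d, d ∣ Q → ∀ r, ∀ᶠ y : ℕ in atTop,
      ‖M (fun k => ind (k ≡ r [MOD d]) • (X.S (t.τ k) F - G k)) y‖ ≤ κ := by
  have : NeZero Q := ⟨hQ⟩
  have hQ0 : (0 : ℝ) < Q := by exact_mod_cast Nat.pos_of_ne_zero hQ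
  obtain ⟨κ', hκ'⟩ : ∃ κ', κ' = κ / (4 * Q) := ⟨_, rfl⟩
  have hκ0 : 0 < κ' := by rw [hκ']; positivity
  have h1 : ∀ c : ZMod Q, ∃ Y : A, ∀ᶠ N : ℕ in atTop,
      ‖M (fun k => ind ((k : ZMod Q) = c) • X.S (t.τ k) F) N - Y‖ ≤ κ' := fun c => by
    obtain ⟨Y, hY⟩ := t.conv_three X hQ (fun a _ => ind (a = c) • (1 : A))
      (fun a _ => Bd.one.smul (abs_ind_le _)) hF Bd.one Bd.one hκ0
    refine ⟨Y, ?_⟩
    filter_upwards [tendsto_natCast_atTop_atTop.eventually hY, eventually_gt_atTop 0] with N h hN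
    simpa only [MM, map_one, mul_one, smul_mul_assoc, one_mul, M_const_nat _ hN] using h
  choose Y hY using h1
  have h2 : ∀ c : ZMod Q, Tendsto (fun N : ℕ => M (fun k => ind ((k : ZMod Q) = c)) N) atTop
      (𝓝 (Q : ℝ)⁻¹) := fun c => by
    simp only [natCast_eq_iff]
    exact (tendsto_M_modEq (Nat.pos_of_ne_zero hQ) c.val).comp tendsto_natCast_atTop_atTop
  have h3 : ∀ᶠ N : ℕ in atTop, ∀ c : ZMod Q,
      ‖M (fun k => ind ((k : ZMod Q) = c) • X.S (t.τ k) F) N - Y c‖ ≤ κ' ∧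
      0 < M (fun k => ind ((k : ZMod Q) = c)) N ∧
      |M (fun k => ind ((k : ZMod Q) = c)) N - (Q : ℝ)⁻¹| ≤ κ' :=
    eventually_all.2 fun c => (hY c).and (((h2 c).eventually_const_lt (by positivity)).and (by
      filter_upwards [Metric.tendsto_nhds.1 (h2 c) κ' hκ0] with N hN
      exact hN.le))
  obtain ⟨N0, hN0⟩ := h3.exists
  let G : ZMod Q → A := fun c => (M (fun k => ind ((k : ZMod Q) = c)) N0)⁻¹ •
    M (fun k => ind ((k : ZMod Q) = c) • X.S (t.τ k) F) N0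
  have hG : ∀ c, Bd (G c) := fun c =>
    Bd.M_div (fun k => X.Bd_S hF _) (fun k => ind_nonneg _) (hN0 c).2.1
  refine ⟨G, hG, fun d hd r => ?_⟩
  filter_upwards [h3] with N hN
  have e : ∀ k : ℕ, ind (k ≡ r [MOD d]) • (X.S (t.τ k) F - G k) = ∑ c : ZMod Q,
      ind (c.val ≡ r [MOD d]) • (ind ((k : ZMod Q) = c) • X.S (t.τ k) F -
        ind ((k : ZMod Q) = c) • G c) := fun k => by
    rw [Finset.sum_eq_single (k : ZMod Q), ind_pos rfl, one_smul, one_smul]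
    · congr 1
      have : k ≡ (k : ZMod Q).val [MOD d] := ((natCast_eq_iff k _).1 rfl).of_dvd hd
      exact ind_congr ⟨fun h => this.symm.trans h, fun h => this.trans h⟩
    · intro c _ hc
      rw [ind_neg (Ne.symm hc), zero_smul, zero_smul, sub_zero, smul_zero]
    · simp
  simp only [e, M_sum, M_smul, M_sub]
  refine (norm_sum_le_of_le _ (n := fun _ => 4 * κ') fun c _ => ?_).trans (le_of_eq ?_)
  · rw [norm_smul]
    refine (mul_le_of_le_one_left (norm_nonneg _) (abs_ind_le _)).trans ?_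
    have h4 := M_map (LinearMap.toSpanSingleton ℝ A (G c)) (fun k => ind ((k : ZMod Q) = c)) N
    simp only [LinearMap.toSpanSingleton_apply] at h4
    rw [h4]
    have h5 : M (fun k => ind ((k : ZMod Q) = c) • X.S (t.τ k) F) N0 =
        M (fun k => ind ((k : ZMod Q) = c)) N0 • G c := by
      simp only [G]
      rw [smul_smul, mul_inv_cancel₀ (hN0 c).2.1.ne', one_smul]
    have h6 := (hN0 c).1
    rw [h5, norm_sub_rev] at h6
    have h7 : ‖M (fun k => ind ((k : ZMod Q) = c)) N0 • G c -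
        M (fun k => ind ((k : ZMod Q) = c)) N • G c‖ ≤ 2 * κ' := by
      rw [← sub_smul, norm_smul]
      refine (mul_le_of_le_one_right (norm_nonneg _) (hG c).norm_le).trans ?_
      have h8 := (hN0 c).2.2
      have h9 := (hN c).2.2
      rw [Real.norm_eq_abs]
      rw [abs_le] at h8 h9 ⊢
      constructor <;> linarith
    have h8 := (norm_sub_le_norm_sub_add_norm_sub _ _ _).trans (add_le_add (hN c).1 h6)
    have h9 := (norm_sub_le_norm_sub_add_norm_sub _ _ _).trans (add_le_add h8 h7)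
    linarith
  · rw [Finset.sum_const, Finset.card_univ, ZMod.card, nsmul_eq_mul, hκ']
    field_simp

lemma exists_divergent {Q : ℕ} (hQ : Q ≠ 0) (L : ℝ) :
    ∃ B : Finset ℕ, (∀ p ∈ B, p.Prime) ∧
      (∀ p ∈ B, ∀ q ∈ B, t.τ p = t.τ q ∧ (p : ZMod Q) = q) ∧ L ≤ ∑ p ∈ B, (p : ℝ)⁻¹ := by
  obtain ⟨q, -, -, hc⟩ := t.exists_class hQ not_cv_univ
  obtain ⟨B, hB, hL⟩ := exists_finset_of_not_cv hc L
  exact ⟨B, fun p hp => (hB p hp).1, fun p hp p' hp' =>
    ⟨(hB p hp).2.1.trans (hB p' hp').2.1.symm, (hB p hp).2.2.trans (hB p' hp').2.2.symm⟩, hL⟩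

theorem abstract_Q1 {F1 F2 F3 F4 : A} (h1 : Bd F1) (h2 : Bd F2) (h3 : Bd F3) (h4 : Bd F4)
    {ε : ℝ} (hε : 0 < ε) : ∃ Y : A, ∀ᶠ N : ℕ in atTop,
      ‖MM (fun m n => X.S (t.τ (m * n)) F4 * X.S (t.τ (m + n)) F3 * X.S (t.τ m) F1 *
        X.S (t.τ n) F2) N - Y‖ ≤ ε := by
  obtain ⟨B, hB, hBc, hL⟩ := t.exists_divergent one_ne_zero (2 / (ε / 9) ^ 2)
  obtain ⟨κ, hκ, hK⟩ := katai (A := A) (by positivity : 0 < ε / 9) B hB hL
    (K := B.sup id) fun p hp => Finset.le_sup (f := id) hp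
  obtain ⟨G, hG, hGA⟩ := t.exists_structured X (B.sup id).factorial_ne_zero h3 hκ
  obtain ⟨Y, hY⟩ := t.conv_three X (B.sup id).factorial_ne_zero (fun a b => G (a + b))
    (fun a b => hG _) h1 h2 h4 (by positivity : 0 < ε / 9)
  have h5 := hK (fun k => (1 / 2 : ℝ) • (X.S (t.τ k) F3 - G k)) (fun k => by
    rw [norm_smul, Real.norm_of_nonneg (by norm_num)]
    have := norm_sub_le (X.S (t.τ k) F3) (G k)
    have := (X.Bd_S h3 (t.τ k)).norm_le
    have := (hG k).norm_le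
    linarith) (fun d hd hdK r => by
    filter_upwards [hGA d (Nat.dvd_factorial hd hdK) r] with y hy
    simp only [smul_comm _ (1 / 2 : ℝ), M_smul]
    rw [norm_smul, Real.norm_of_nonneg (by norm_num)]
    linarith)
  refine ⟨Y, ?_⟩
  filter_upwards [h5, tendsto_natCast_atTop_atTop.eventually hY] with N h6 h7
  have h8 := h6 (fun m n => X.S (t.τ m) F1 * X.S (t.τ n) F2 * X.S (t.τ m * t.τ n) F4)
    (fun m n => ((X.Bd_S h1 _).mul (X.Bd_S h2 _)).mul (X.Bd_S h4 _))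
    fun p hp q hq m n hm => by
      rw [t.mul _ _ (hB p hp).pos hm, t.mul _ _ (hB q hq).pos hm, (hBc p hp q hq).1]
  have e : MM (fun m n => X.S (t.τ (m * n)) F4 * X.S (t.τ (m + n)) F3 * X.S (t.τ m) F1 *
        X.S (t.τ n) F2) N - Y = (MM (fun m n => G ((m : ZMod (B.sup id).factorial) + n) *
      (X.S (t.τ m) F1 * X.S (t.τ n) F2 * X.S (t.τ m * t.τ n) F4)) N - Y) +
      (2 : ℝ) • MM (fun m n => X.S (t.τ m) F1 * X.S (t.τ n) F2 * X.S (t.τ m * t.τ n) F4 *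
        ((1 / 2 : ℝ) • (X.S (t.τ (m + n)) F3 - G ((m + n : ℕ) : ZMod (B.sup id).factorial)))) N := by
    rw [sub_add_eq_add_sub, ← MM_smul, ← MM_add]
    congr 1
    refine MM_congr fun m n hm hn => ?_
    rw [t.mul _ _ hm hn, mul_smul_comm, smul_smul, Nat.cast_add]
    norm_num
    ring
  rw [e]
  refine (norm_add_le _ _).trans ?_
  rw [norm_smul, Real.norm_of_nonneg (by norm_num)]
  linarith

end MF

end Pool.Agent.MP_57adf2_an.H72
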