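import Pool.Agent.MP_57adf2_an.H72.Cube

/-! Positivity: cones, invariant projections, and the ergodic lower bound. -/

namespace Pool.Agent.MP_57adf2_an.H72

open Finset Filter Topology

variable {A : Type*} [L2Alg A] {Γ : Type*} [CommGroup Γ]

/-- A cone of nonnegative elements, with a completeness property for its unit interval. -/
structure Cone (X : Act Γ A) where
  P : A → Prop
  add : ∀ {f g}, P f → P g → P (f + g)
  mul : ∀ {f g}, P f → P g → P (f * g)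
  smul : ∀ {c : ℝ} {f}, 0 ≤ c → P f → P (c • f)
  sq : ∀ f, P (f * f)
  map : ∀ g {f}, P f → P (X.S g f)
  I_nonneg : ∀ {f}, P f → 0 ≤ I f
  complete : ∀ u : ℕ → A, (∀ n, P (u n) ∧ P (1 - u n)) → CauchySeq u →
    ∃ φ, P φ ∧ P (1 - φ) ∧ Tendsto u atTop (𝓝 φ)

namespace Cone

variable {X : Act Γ A} (C : Cone X)

lemma one : C.P 1 := by simpa using C.sq 1

lemma zero : C.P 0 := by simpa using C.sq 0

lemma E {Λ : Type*} (ρ : PM Λ) {φ : Λ → A} (h : ∀ g, C.P (φ g)) : C.P (ρ.E φ) :=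
  Finset.sum_induction _ C.P (fun _ _ => C.add) C.zero fun g _ => C.smul (ρ.nonneg g) (h g)

/-- The unit interval. -/
def U (f : A) : Prop := C.P f ∧ C.P (1 - f)

variable {C}

lemma U.mul {f g : A} (hf : C.U f) (hg : C.U g) : C.U (f * g) :=
  ⟨C.mul hf.1 hg.1, by
    have := C.add hf.2 (C.mul hf.1 hg.2)
    convert this using 1; ring⟩

lemma U.map {f : A} (hf : C.U f) (g : Γ) : C.U (X.S g f) :=
  ⟨C.map g hf.1, by simpa using C.map g hf.2⟩

lemma U.E {Λ : Type*} (ρ : PM Λ) {φ : Λ → A} (h : ∀ g, C.U (φ g)) : C.U (ρ.E φ) :=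
  ⟨C.E ρ fun g => (h g).1, by
    have := C.E ρ fun g => (h g).2
    rwa [PM.E_sub, PM.E_const] at this⟩

lemma U.bd {f : A} (hf : C.U f) : Bd f := fun g => by
  refine (sq_le_sq₀ (norm_nonneg _) (norm_nonneg _)).1 ?_
  rw [L2Alg.norm_sq, L2Alg.norm_sq, ← sub_nonneg, ← map_sub]
  have e : g * g - f * g * (f * g) = (1 - f) * (1 + f) * (g * g) := by ring
  rw [e]
  exact C.I_nonneg (C.mul (C.mul hf.2 (C.add C.one hf.1)) (C.sq g))

lemma U.norm_sub_le {f g : A} (hf : C.U f) (hg : C.U g) : ‖f - g‖ ≤ 1 := by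
  refine (sq_le_one_iff₀ (norm_nonneg _)).1 ?_
  have h1 := C.I_nonneg (C.mul (C.add hf.2 hg.1) (C.add hg.2 hf.1))
  have h2 : (1 - f + g) * (1 - g + f) = 1 - (f - g) * (f - g) := by ring
  rw [h2, map_sub, ← L2Alg.norm_sq] at h1
  linarith [L2Alg.I_one (A := A)]

lemma exists_proj (K : Subgroup Γ) {F : A} (hF : C.U F) :
    ∃ φ, C.U φ ∧ Tendsto (fun ρ : PM K => ‖(X.res K).Av ρ F - φ‖) atTop (𝓝 0) := by
  choose σ hσ using fun n : ℕ => eventually_atTop.1 ((X.res K).vn F (Nat.one_div_pos_of_nat (n := n)))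
  let ρ : ℕ → PM K := fun n => ∏ i ∈ range (n + 1), σ i
  have h1 : ∀ n ρ', ρ n ≤ ρ' → ‖(X.res K).Av ρ' F - (X.res K).Av (ρ n) F‖ ≤ 1 / ((n : ℝ) + 1) := by
    intro n ρ' h
    obtain ⟨κ, rfl⟩ := PM.le_iff.1 h
    rw [Act.Av_mul]
    exact hσ n _ (Finset.dvd_prod_of_mem _ (Finset.self_mem_range_succ n)) κ
  have h2 : ∀ n m, n ≤ m → ρ n ≤ ρ m := fun n m h =>
    Finset.prod_dvd_prod_of_subset _ _ _ (Finset.range_mono (Nat.succ_le_succ h))
  obtain ⟨φ, h3, h4, h5⟩ := C.complete (fun n => (X.res K).Av (ρ n) F)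
    (fun n => U.E _ fun g => hF.map _)
    (cauchySeq_of_le_tendsto_0' (fun n => 1 / ((n : ℝ) + 1)) (fun n m h => by
      rw [dist_comm, dist_eq_norm]; exact h1 n _ (h2 n m h))
      tendsto_one_div_add_atTop_nhds_zero_nat)
  refine ⟨φ, ⟨h3, h4⟩, Metric.tendsto_nhds.2 fun ε hε => ?_⟩
  obtain ⟨n, hn1, hn2⟩ := ((Metric.tendsto_nhds.1 h5 (ε / 2) (by positivity)).and
    (tendsto_one_div_add_atTop_nhds_zero_nat.eventually_lt_const
      (by positivity : (0 : ℝ) < ε / 2))).exists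
  filter_upwards [eventually_ge_atTop (ρ n)] with ρ' h
  rw [dist_eq_norm] at hn1
  have := norm_sub_le_norm_sub_add_norm_sub ((X.res K).Av ρ' F) ((X.res K).Av (ρ n) F) φ
  have := h1 n ρ' h
  rw [dist_zero_right, norm_norm]
  linarith

end Cone

namespace Act

variable (X : Act Γ A)

lemma proj_inv {F φ : A} (h : Tendsto (fun ρ : PM Γ => ‖X.Av ρ F - φ‖) atTop (𝓝 0)) (g : Γ) :
    ‖X.S g φ - φ‖ = 0 := by
  refine le_antisymm (le_of_forall_pos_le_add fun ε hε => ?_) (norm_nonneg _)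
  obtain ⟨ρ, hρ⟩ := eventually_atTop.1 (h.eventually_le_const (by positivity : 0 < ε / 2))
  have h1 := hρ ρ le_rfl
  have h2 := hρ (PM.δ g * ρ) (PM.le_mul_left' _ _)
  rw [Av_mul, Av_δ] at h2
  rw [norm_sub_rev, ← X.norm_S g, map_sub] at h1
  have := norm_sub_le_norm_sub_add_norm_sub (X.S g φ) (X.S g (X.Av ρ F)) φ
  linarith

lemma lower_bound {F F' φ φ' : A} (hF : Bd F) (hF' : Bd F') (hφ : Bd φ) (hφ' : Bd φ')
    (h1 : Tendsto (fun ρ : PM Γ => ‖X.Av ρ F - φ‖) atTop (𝓝 0))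
    (h2 : Tendsto (fun ρ : PM Γ => ‖X.Av ρ F' - φ'‖) atTop (𝓝 0))
    (hpos : ∀ z, 0 ≤ I (φ * (z * z))) {ε : ℝ} (hε : 0 < ε) :
    ∃ ρ0 σ0 : PM Γ, ∀ ρ, ρ0 ≤ ρ → ∀ σ, σ0 ≤ σ → I (φ * (φ * φ' * (φ * φ'))) - ε ≤
      ρ.E fun h => σ.E fun k => I (φ * (F * X.S h F * X.S k F' * X.S (h * k) F')) := by
  obtain ⟨ρ1, σ1, hU⟩ := X.claimU' F F' (by positivity : 0 < ε / 5)
  obtain ⟨ρ0, hρ0⟩ := eventually_atTop.1 ((eventually_ge_atTop ρ1).and
    (h1.eventually_le_const (by positivity : 0 < ε / 5)))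
  obtain ⟨σ0, hσ0⟩ := eventually_atTop.1 ((eventually_ge_atTop σ1).and
    (h2.eventually_le_const (by positivity : 0 < ε / 5)))
  refine ⟨ρ0, σ0, fun ρ hρ σ hσ => ?_⟩
  obtain ⟨a1, a2⟩ := hρ0 ρ hρ
  obtain ⟨b1, b2⟩ := hσ0 σ hσ
  have hξ : ∀ k, Bd (F * X.S k F') := fun k => hF.mul (X.Bd_S hF' k)
  have hy : ∀ k, Bd (X.Av ρ (F * X.S k F')) := fun k => X.Bd_Av (hξ k) ρ
  have e1 : (ρ.E fun h => σ.E fun k => I (φ * (F * X.S h F * X.S k F' * X.S (h * k) F'))) =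
      σ.E fun k => I (φ * (F * X.S k F' * X.Av ρ (F * X.S k F'))) := by
    rw [PM.E_comm]
    congr 1
    ext k
    rw [Av_apply, ← E_mul_left', ← E_mul_left', ← E_I]
    congr 1
    ext h
    rw [S_mul, map_mul (X.S h)]
    congr 1; ring
  have h3 : ∀ k, I (φ * (X.Av ρ (F * X.S k F') * X.Av ρ (F * X.S k F'))) ≤
      I (φ * (F * X.S k F' * X.Av ρ (F * X.S k F'))) +
        ρ.E fun h => ‖X.S h (X.Av ρ (F * X.S k F')) - X.Av ρ (F * X.S k F')‖ := fun k => by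
    have hξk := hξ k
    have hyk := hy k
    generalize F * X.S k F' = ξ at *
    have e2 : I (φ * (X.Av ρ ξ * X.Av ρ ξ)) = ρ.E fun h => I (φ * (X.S h ξ * X.Av ρ ξ)) := by
      rw [E_I, E_mul_left', E_mul_right, ← Av_apply]
    generalize X.Av ρ ξ = y at *
    rw [e2, ← ρ.E_const (I (φ * (ξ * y))), ← PM.E_add]
    refine ρ.E_mono fun h => ?_
    have e3 : I (φ * (X.S h ξ * y)) = I (φ * (ξ * y)) - I ((X.S h φ - φ) * (X.S h ξ * X.S h y)) -
        I ((φ * X.S h ξ) * (X.S h y - y)) := by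
      rw [← X.inv h (φ * (ξ * y)), map_mul (X.S h), map_mul (X.S h), ← map_sub, ← map_sub]
      congr 1; ring
    have h4 := abs_I_mul_le (X.S h φ - φ) (X.S h ξ * X.S h y)
    rw [X.proj_inv h1 h, zero_mul] at h4
    have h5 := (abs_I_mul_le (φ * X.S h ξ) (X.S h y - y)).trans
      (mul_le_of_le_one_left (norm_nonneg _) (hφ.mul (X.Bd_S hξk h)).norm_le)
    rw [abs_le] at h4 h5
    linarith
  have h4 : (σ.E fun k => ρ.E fun h =>
      ‖X.S h (X.Av ρ (F * X.S k F')) - X.Av ρ (F * X.S k F')‖) ≤ ε / 5 := by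
    rw [← PM.E_comm]
    refine ρ.E_le fun h => ?_
    simpa only [Av_δ] using hU ρ a1 σ b1 (PM.δ h)
  obtain ⟨z, hz⟩ : ∃ z, z = σ.E fun k => X.Av ρ (F * X.S k F') := ⟨_, rfl⟩
  have h5 : I (φ * (z * z)) ≤
      σ.E fun k => I (φ * (X.Av ρ (F * X.S k F') * X.Av ρ (F * X.S k F'))) := by
    have h6 := σ.le_E fun k => hpos (X.Av ρ (F * X.S k F') - z)
    have e2 : ∀ y : A, I (φ * ((y - z) * (y - z))) =
        I (φ * (y * y)) - 2 * I (φ * z * y) + I (φ * (z * z)) := fun y => by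
      rw [two_mul, ← map_add, ← map_sub, ← map_add]
      congr 1; ring
    simp only [e2] at h6
    rw [PM.E_add, PM.E_sub, PM.E_const, PM.E_mul_left, E_I σ fun k => φ * z * _, E_mul_left',
      ← hz, mul_assoc] at h6
    linarith
  have hzb : Bd z := hz ▸ Bd.E σ hy
  have h6 : ‖z - φ * φ'‖ ≤ 2 * (ε / 5) := by
    have e2 : z = X.Av ρ (F * X.Av σ F') := by
      rw [hz, Av_apply (ρ := σ), ← E_mul_left', ← PM.E_map]
    have h7 : ‖X.Av ρ (F * X.Av σ F') - X.Av ρ (F * φ')‖ ≤ ε / 5 := by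
      rw [← map_sub, ← mul_sub]
      exact (X.norm_Av_le _ _).trans ((hF _).trans b2)
    have h8 : ‖X.Av ρ (F * φ') - X.Av ρ F * φ'‖ ≤ 0 := by
      rw [Av_apply, Av_apply, ← E_mul_right, ← PM.E_sub]
      refine ρ.norm_E_le_of_le fun h => ?_
      rw [map_mul, ← mul_sub]
      exact (X.Bd_S hF h _).trans (X.proj_inv h2 h).le
    have h9 : ‖X.Av ρ F * φ' - φ * φ'‖ ≤ ε / 5 := by
      rw [← sub_mul, mul_comm]
      exact (hφ' _).trans a2
    have h10 := (norm_sub_le_norm_sub_add_norm_sub _ _ _).trans (add_le_add h7 h8)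
    have h11 := (norm_sub_le_norm_sub_add_norm_sub _ _ _).trans (add_le_add h10 h9)
    rw [e2]; linarith
  have h7 : I (φ * (φ * φ' * (φ * φ'))) ≤ I (φ * (z * z)) + 4 * (ε / 5) := by
    have e2 : I (φ * (φ * φ' * (φ * φ'))) = I (φ * (z * z)) - I ((φ * z) * (z - φ * φ')) -
        I ((φ * (φ * φ')) * (z - φ * φ')) := by
      rw [← map_sub, ← map_sub]
      congr 1; ring
    have h8 := (abs_I_mul_le (φ * z) (z - φ * φ')).trans
      (mul_le_of_le_one_left (norm_nonneg _) (hφ.mul hzb).norm_le)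
    have h9 := (abs_I_mul_le (φ * (φ * φ')) (z - φ * φ')).trans
      (mul_le_of_le_one_left (norm_nonneg _) (hφ.mul (hφ.mul hφ')).norm_le)
    rw [abs_le] at h8 h9
    linarith
  have h8 := σ.E_mono h3
  rw [PM.E_add] at h8
  rw [e1]
  linarith

lemma recurrence {ψ : A} (hψ : ‖ψ‖ ≤ 1) (h0 : 0 < I ψ) (g : Γ) :
    ∃ b : ℕ, 0 < b ∧ I ψ ^ 2 / 2 ≤ I (ψ * X.S (g ^ b) ψ) := by
  by_contra hc
  push Not at hc
  obtain ⟨K, hK⟩ := exists_nat_gt (2 / I ψ ^ 2)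
  have hK0 : (0 : ℝ) < K := lt_trans (by positivity) hK
  have h1 : I (∑ j ∈ range K, X.S (g ^ j) ψ) = K * I ψ := by
    simp only [map_sum, X.inv, Finset.sum_const, Finset.card_range, nsmul_eq_mul]
  have h2 := pow_le_pow_left₀ (abs_nonneg _) (abs_I_le (∑ j ∈ range K, X.S (g ^ j) ψ)) 2
  rw [sq_abs, h1, L2Alg.norm_sq, Finset.sum_mul_sum, map_sum] at h2
  have h3 : ∀ i j : ℕ, i < j → I (X.S (g ^ i) ψ * X.S (g ^ j) ψ) ≤ I ψ ^ 2 / 2 := by
    intro i j hij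
    obtain ⟨b, rfl⟩ := Nat.exists_eq_add_of_lt hij
    rw [add_assoc, pow_add, S_mul, ← map_mul, X.inv]
    exact (hc _ (Nat.succ_pos b)).le
  have h4 : ∑ i ∈ range K, I (∑ j ∈ range K, X.S (g ^ i) ψ * X.S (g ^ j) ψ) ≤
      ∑ i ∈ range K, ∑ j ∈ range K, ((if j = i then 1 else 0) + I ψ ^ 2 / 2) := by
    refine Finset.sum_le_sum fun i _ => ?_
    rw [map_sum]
    refine Finset.sum_le_sum fun j _ => ?_
    rcases lt_trichotomy i j with h | h | h
    · rw [if_neg h.ne', zero_add]; exact h3 i j h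
    · subst h
      rw [if_pos rfl, ← L2Alg.norm_sq, norm_S]
      have := (sq_le_one_iff₀ (norm_nonneg _)).2 hψ
      have : 0 ≤ I ψ ^ 2 / 2 := by positivity
      linarith
    · rw [if_neg h.ne, zero_add, mul_comm]; exact h3 j i h
  have h5 : ∑ i ∈ range K, ∑ j ∈ range K, ((if j = i then 1 else 0) + I ψ ^ 2 / 2) =
      K * (1 + K * (I ψ ^ 2 / 2)) := by
    rw [Finset.sum_congr rfl (g := fun _ => 1 + K * (I ψ ^ 2 / 2))]
    · rw [Finset.sum_const, Finset.card_range, nsmul_eq_mul]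
    · intro i hi
      rw [Finset.sum_add_distrib, Finset.sum_ite_eq', if_pos hi, Finset.sum_const,
        Finset.card_range, nsmul_eq_mul]
  rw [div_lt_iff₀ (by positivity)] at hK
  nlinarith

end Act

end Pool.Agent.MP_57adf2_an.H72
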