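import Pool.Agent.MP_57adf2_an.H72.AbsQ1
import Pool.Agent.MP_57adf2_an.H72.Pos

/-! Positivity of the five-term averages in the abstract setting. -/

namespace Pool.Agent.MP_57adf2_an.H72

open Finset Filter Topology

lemma M_shift_le {a : ℕ → ℝ} (ha : ∀ k, 0 ≤ a k) {N n : ℕ} (hn : n ≤ N) :
    M (fun m => a (m + n)) N ≤ 2 * M a (2 * N : ℕ) := by
  rcases Nat.eq_zero_or_pos N with rfl | hN
  · simp [M]
  have hN0 : (0 : ℝ) < N := by exact_mod_cast hN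
  rw [M_nat, M_nat, smul_eq_mul, smul_eq_mul, ← mul_assoc]
  have e : (2 : ℝ) * ((2 * N : ℕ) : ℝ)⁻¹ = (N : ℝ)⁻¹ := by push_cast; field_simp
  rw [e]
  refine mul_le_mul_of_nonneg_left ?_ (by positivity)
  refine le_trans (Finset.sum_map (Ioc 0 N) (addRightEmbedding n) a).ge
    (Finset.sum_le_sum_of_subset_of_nonneg (fun k hk => ?_) fun k _ _ => ha k)
  simp only [Finset.mem_map, Finset.mem_Ioc, addRightEmbedding_apply] at hk ⊢
  obtain ⟨m, hm, rfl⟩ := hk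
  omega

lemma val_modEq {Q d : ℕ} [NeZero Q] (hd : d ∣ Q) (k r : ℕ) :
    ((k : ZMod Q).val ≡ r [MOD d]) = (k ≡ r [MOD d]) :=
  have h : k ≡ (k : ZMod Q).val [MOD d] := ((natCast_eq_iff k _).1 rfl).of_dvd hd
  propext ⟨fun h' => h.trans h', fun h' => h.symm.trans h'⟩

variable {A : Type*} [L2Alg A]

lemma I_mul_self_pos {φ : A} (h : 0 < I φ) : 0 < I (φ * φ) := by
  rw [← L2Alg.norm_sq]
  exact pow_pos (h.trans_le ((le_abs_self _).trans (abs_I_le φ))) 2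

namespace MF

variable {Γ : Type*} [CommGroup Γ] (t : MF Γ) (X : Act Γ A)

lemma τ_pow {q : ℕ} (hq : 0 < q) (b : ℕ) : t.τ (q ^ b) = t.τ q ^ b := by
  induction b with
  | zero => rw [pow_zero, pow_zero, t.one]
  | succ b ih => rw [pow_succ, pow_succ, t.mul _ _ (pow_pos hq b) hq, ih]

lemma AP_small {K : Subgroup Γ} {Q d : ℕ} (hQ : d * Q ≠ 0) (hK : K ≤ t.H (d * Q)) {F φ : A}
    (hn : ∀ u, ‖X.S u F - φ‖ ≤ 1)
    (hlim : Tendsto (fun ρ : PM K => ‖(X.res K).Av ρ F - φ‖) atTop (𝓝 0)) (r : ℕ) {κ : ℝ}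
    (hκ : 0 < κ) : ∀ᶠ y : ℕ in atTop, ‖M (fun k => ind (k ≡ r [MOD d]) •
      ind (k ≡ 1 [MOD Q] ∧ t.τ k ∈ K) • (X.S (t.τ k) F - φ)) y‖ ≤ κ := by
  have : NeZero (d * Q) := ⟨hQ⟩
  obtain ⟨ρ, hρ⟩ := (hlim.eventually_le_const (half_pos hκ)).exists
  filter_upwards [tendsto_natCast_atTop_atTop.eventually
    (t.shift_PM (E := A) hQ hK ρ (half_pos hκ))] with y hy
  have h1 := hy (fun u c => ind (c.val ≡ r [MOD d]) • ind (c.val ≡ 1 [MOD Q] ∧ u ∈ K) •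
    (X.S u F - φ)) fun u c => by
      rw [norm_smul, norm_smul]
      exact mul_le_one₀ (abs_ind_le _) (by positivity)
        (mul_le_one₀ (abs_ind_le _) (norm_nonneg _) (hn u))
  have e3 : ∀ (h : K) u, ((h : Γ) * u ∈ K) = (u ∈ K) := fun h u =>
    propext (K.mul_mem_cancel_left h.2)
  simp only [val_modEq (dvd_mul_right d Q), val_modEq (dvd_mul_left Q d), e3, PM.E_smul] at h1
  have h2 : ‖M (fun k => ind (k ≡ r [MOD d]) • ind (k ≡ 1 [MOD Q] ∧ t.τ k ∈ K) •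
      ρ.E fun h => X.S (h * t.τ k) F - φ) y‖ ≤ κ / 2 := by
    refine norm_M_le (half_pos hκ).le fun k _ _ => ?_
    rw [norm_smul, norm_smul]
    refine (mul_le_of_le_one_left (by positivity) (abs_ind_le _)).trans ?_
    by_cases hk : k ≡ 1 [MOD Q] ∧ t.τ k ∈ K
    · refine (mul_le_of_le_one_left (norm_nonneg _) (abs_ind_le _)).trans ?_
      have e4 : (ρ.E fun h => X.S (h * t.τ k) F - φ) =
          X.S (t.τ k) ((X.res K).Av ρ F - φ) + (X.S (t.τ k) φ - φ) := by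
        rw [PM.E_sub, PM.E_const, map_sub, Act.Av_apply, X.S_E]
        simp only [Act.res_S, ← Act.S_mul, mul_comm]
        abel
      have e5 : ‖X.S (t.τ k) φ - φ‖ = 0 := (X.res K).proj_inv hlim ⟨_, hk.2⟩
      rw [e4]
      refine (norm_add_le _ _).trans ?_
      rw [X.norm_S, e5, add_zero]
      exact hρ
    · rw [ind_neg hk, norm_zero, zero_mul]
      exact (half_pos hκ).le
  have := (norm_le_norm_sub_add _ _).trans (add_le_add h1 h2)
  rwa [add_halves] at this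

lemma main_term {K : Subgroup Γ} {Q q : ℕ} (hQ : Q ≠ 0) (hq : 0 < q) (hK : K ≤ t.H (q * Q))
    {C : Cone X} {F φ : A} (hF : C.U F) (hφ : C.U φ)
    (hlim : Tendsto (fun ρ : PM K => ‖(X.res K).Av ρ F - φ‖) atTop (𝓝 0)) {c κ : ℝ} (hc : 0 < c)
    (hc' : 2 * c ≤ I (φ * (φ * X.S (t.τ q) φ * (φ * X.S (t.τ q) φ)))) (hκ : 0 < κ) :
    ∀ᶠ x : ℝ in atTop, c * (M (fun m => ind (m ≡ 1 [MOD Q] ∧ t.τ m ∈ K)) x *
      ((q : ℝ)⁻¹ * M (fun m => ind (m ≡ 1 [MOD Q] ∧ t.τ m ∈ K)) (x / q))) - κ ≤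
      MM (fun m n => ind (m ≡ 1 [MOD Q]) * ind (n ≡ q [MOD q * Q]) *
        I (φ * (F * X.S (t.τ m) F * X.S (t.τ n) F * X.S (t.τ m * t.τ n) F))) x := by
  have : NeZero (q * Q) := ⟨mul_ne_zero hq.ne' hQ⟩
  have hlim' : Tendsto (fun ρ : PM K => ‖(X.res K).Av ρ (X.S (t.τ q) F) - X.S (t.τ q) φ‖)
      atTop (𝓝 0) := hlim.congr fun ρ => by
    rw [← X.norm_S (t.τ q), map_sub, Act.Av_apply, Act.Av_apply, X.S_E]
    simp only [Act.res_S, ← Act.S_mul, mul_comm]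
  obtain ⟨ρ, σ, h⟩ := (X.res K).lower_bound hF.bd (hF.map _).bd hφ.bd (hφ.map _).bd hlim hlim'
    (fun z => C.I_nonneg (C.mul hφ.1 (C.sq z))) hc
  have hU : ∀ u v, C.U (φ * (F * X.S u F * X.S v F * X.S (u * v) F)) := fun u v =>
    hφ.mul (((hF.mul (hF.map u)).mul (hF.map v)).mul (hF.map _))
  filter_upwards [t.shift_PM2 (E := ℝ) (NeZero.ne _) hK ρ σ hκ, eventually_gt_atTop 0]
    with x hx hx0
  have h1 := hx (fun u a v b => ind (a.val ≡ 1 [MOD Q]) * ind (b.val ≡ q [MOD q * Q]) *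
    I (φ * (F * X.S u F * X.S v F * X.S (u * v) F))) fun u a v b => by
      rw [Real.norm_eq_abs, abs_mul, abs_mul]
      exact mul_le_one₀ (mul_le_one₀ (abs_ind_le _) (abs_nonneg _) (abs_ind_le _)) (abs_nonneg _)
        ((abs_I_le _).trans (hU u v).bd.norm_le)
  simp only [val_modEq (dvd_mul_left Q q), val_modEq (dvd_refl (q * Q))] at h1
  have h2 := M_dilate (fun n => ind (n / q ≡ 1 [MOD Q] ∧ t.τ (n / q) ∈ K)) hx0 hq
  simp only [Nat.mul_div_cancel_left _ hq, smul_eq_mul] at h2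
  rw [h2, ← MM_mul, ← smul_eq_mul, ← MM_smul]
  rw [Real.norm_eq_abs, abs_le] at h1
  refine le_trans (sub_le_sub_right (MM_mono fun m n hm hn => ?_) _) (by linarith [h1.1])
  by_cases hg : (m ≡ 1 [MOD Q] ∧ t.τ m ∈ K) ∧ q ∣ n ∧ n / q ≡ 1 [MOD Q] ∧ t.τ (n / q) ∈ K
  · obtain ⟨h3, ⟨n, rfl⟩, h4⟩ := hg
    rw [Nat.mul_div_cancel_left _ hq] at h4 ⊢
    have h5 := h (PM.δ ⟨_, h3.2⟩ * ρ) (PM.le_mul_left' _ _) (PM.δ ⟨_, h4.2⟩ * σ)
      (PM.le_mul_left' _ _)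
    have h6 : q * n ≡ q [MOD q * Q] := by simpa using h4.1.mul_left' (c := q)
    simp only [PM.E_δ_mul, Act.res_S, Subgroup.coe_mul, ← Act.S_mul] at h5
    rw [if_pos (dvd_mul_right q n), ind_pos h3, ind_pos h4, ind_pos h3.1, ind_pos h6,
      t.mul _ _ hq (Nat.pos_of_mul_pos_left hn)]
    simp only [one_mul, smul_eq_mul, mul_one]
    refine le_trans (by linarith) (h5.trans (le_of_eq ?_))
    simp only [mul_comm, mul_left_comm, mul_assoc]
  · refine le_trans (le_of_eq ?_) (ρ.le_E fun h => σ.le_E fun k => mul_nonneg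
      (mul_nonneg (ind_nonneg _) (ind_nonneg _)) (C.I_nonneg (hU _ _).1))
    rw [smul_eq_mul]
    refine mul_eq_zero_of_right _ ?_
    by_cases h3 : m ≡ 1 [MOD Q] ∧ t.τ m ∈ K
    · refine mul_eq_zero_of_right _ ?_
      split_ifs with h4
      · exact ind_neg fun h5 => hg ⟨h3, h4, h5⟩
      · rfl
    · rw [ind_neg h3, zero_mul]

theorem abstract_Q2 (C : Cone X) {F : A} (hF : C.U F) (h0 : 0 < I F) :
    ∃ c > 0, ∀ᶠ N : ℕ in atTop, c ≤ MM (fun m n => I (F * (X.S (t.τ (m * n)) F *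
      X.S (t.τ (m + n)) F * X.S (t.τ m) F * X.S (t.τ n) F))) N := by
  obtain ⟨Q1, hQ1, hst⟩ := t.stab
  obtain ⟨φ, hφ, hlim⟩ := Cone.exists_proj (t.H Q1) hF
  have hφ0 : 0 < I φ := by
    obtain ⟨ρ, hρ⟩ := (hlim.eventually_lt_const h0).exists
    have h1 := (le_abs_self _).trans (abs_I_le ((X.res (t.H Q1)).Av ρ F - φ))
    rw [map_sub, Act.I_Av] at h1
    linarith
  have hψ := (hφ.mul hφ).mul (hφ.mul hφ)
  have hψ0 := I_mul_self_pos (I_mul_self_pos hφ0)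
  obtain ⟨c, hc⟩ : ∃ c, c = I (φ * φ * (φ * φ)) ^ 2 / 4 := ⟨_, rfl⟩
  have hc0 : 0 < c := by rw [hc]; positivity
  obtain ⟨e, he0, he1, he2⟩ : ∃ e > 0, e ≤ 1 / 4 ∧ e ≤ c / 32 :=
    ⟨min (1 / 4) (c / 32), by positivity, min_le_left _ _, min_le_right _ _⟩
  obtain ⟨Q, hQ, hd, hEx⟩ := t.mostly_in_H hQ1 he0
  have hQp := Nat.pos_of_ne_zero hQ
  obtain ⟨b, hb, hrec⟩ := X.recurrence hψ.bd.norm_le hψ0 (t.τ Q)
  rw [← t.τ_pow hQp] at hrec
  have hQq : Q ∣ Q ^ b := dvd_pow_self Q hb.ne'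
  have hq : 0 < Q ^ b := pow_pos hQp b
  generalize Q ^ b = q at hrec hQq hq
  have hK : ∀ d, 0 < d → t.H Q1 ≤ t.H (d * Q) := fun d h =>
    hst _ (mul_ne_zero h.ne' hQ) (hd.mul_left d)
  generalize t.H Q1 = K at *
  have hc' : 2 * c ≤ I (φ * (φ * X.S (t.τ q) φ * (φ * X.S (t.τ q) φ))) := by
    have h1 := hφ.map (t.τ q)
    simp only [map_mul] at hrec
    generalize X.S (t.τ q) φ = φ' at *
    have h2 := C.I_nonneg (C.mul (hφ.mul ((hφ.mul h1).mul (hφ.mul h1))).1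
      (hφ.mul (h1.mul h1)).2)
    have e1 : φ * (φ * φ' * (φ * φ')) * (1 - φ * (φ' * φ')) =
        φ * (φ * φ' * (φ * φ')) - φ * φ * (φ * φ) * (φ' * φ' * (φ' * φ')) := by ring
    rw [e1, map_sub] at h2
    linarith
  have hQr : (0 : ℝ) < Q := by exact_mod_cast hQp
  have hqr : (0 : ℝ) < q := by exact_mod_cast hq
  obtain ⟨δ, hδ⟩ : ∃ δ : ℝ, δ = (Q : ℝ)⁻¹ * ((q : ℝ)⁻¹ * (Q : ℝ)⁻¹) := ⟨_, rfl⟩
  have hδ0 : 0 < δ := by rw [hδ]; positivity
  have hG : ∀ᶠ x : ℝ in atTop, (Q : ℝ)⁻¹ / 2 ≤ M (fun m => ind (m ≡ 1 [MOD Q] ∧ t.τ m ∈ K)) x := by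
    filter_upwards [hEx, (tendsto_M_modEq hQp 1).eventually_const_le
      (show 3 / 4 * (Q : ℝ)⁻¹ < (Q : ℝ)⁻¹ by linarith [inv_pos.2 hQr])] with x h1 h2
    have h3 : M (fun m => ind (m ≡ 1 [MOD Q])) x ≤ M (fun m => ind (m ≡ 1 [MOD Q] ∧ t.τ m ∈ K) +
        ind (m ≡ 1 [MOD Q] ∧ t.τ m ∉ K)) x := M_mono fun m _ _ => by
      by_cases h4 : t.τ m ∈ K
      · exact (ind_mono fun h => ⟨h, h4⟩).trans (le_add_of_nonneg_right (ind_nonneg _))
      · exact (ind_mono fun h => ⟨h, h4⟩).trans (le_add_of_nonneg_left (ind_nonneg _))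
    rw [M_add] at h3
    have h4 := mul_le_mul_of_nonneg_right he1 (inv_pos.2 hQr).le
    rw [div_eq_mul_inv] at h1
    linarith
  obtain ⟨B, hB, hBc, hL⟩ := t.exists_divergent hQ (2 / (c * δ / 128) ^ 2)
  obtain ⟨κ, hκ, hKat⟩ := katai (A := A) (by positivity : 0 < c * δ / 128) B hB hL
    (K := B.sup id) fun p hp => Finset.le_sup (f := id) hp
  have hn : ∀ u, ‖X.S u F - φ‖ ≤ 1 := fun u => (hF.map u).norm_sub_le hφ
  have h1 := hKat (fun k => ind (k ≡ 1 [MOD Q] ∧ t.τ k ∈ K) • (X.S (t.τ k) F - φ))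
    (fun k => by
      rw [norm_smul]; exact mul_le_one₀ (abs_ind_le _) (norm_nonneg _) (hn _))
    fun d hd _ r => t.AP_small X (mul_ne_zero hd.ne' hQ) (hK d hd) hn hlim r hκ
  have hP : ∀ u v, C.U (F * X.S u F * X.S v F * X.S (u * v) F) := fun u v =>
    ((hF.mul (hF.map u)).mul (hF.map v)).mul (hF.map _)
  have hT : Tendsto (fun N : ℕ => (N : ℝ)) atTop atTop := tendsto_natCast_atTop_atTop
  refine ⟨c * δ / 16, by positivity, ?_⟩
  filter_upwards [h1, hT.eventually (t.main_term X hQ hq (hK q hq) hF hφ hlim hc0 hc'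
    (by positivity : 0 < c * δ / 32)), hT.eventually hG, (hT.atTop_div_const hqr).eventually hG,
    (hT.comp (tendsto_id.const_mul_atTop' two_pos)).eventually hEx,
    hT.eventually ((tendsto_M_modEq (Nat.mul_pos hq hQp) q).eventually_le_const
      (show ((q * Q : ℕ) : ℝ)⁻¹ < 2 * ((q : ℝ)⁻¹ * (Q : ℝ)⁻¹) by
        rw [Nat.cast_mul, mul_inv]
        linarith [mul_pos (inv_pos.2 hqr) (inv_pos.2 hQr)]))] with N h2 h3 h4 h5 h6 h7
  have h8 := h2 (fun m n => (ind (m ≡ 1 [MOD Q]) * ind (n ≡ q [MOD q * Q])) •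
    (F * X.S (t.τ m) F * X.S (t.τ n) F * X.S (t.τ m * t.τ n) F))
    (fun m n => (hP _ _).bd.smul (by
      rw [abs_mul]; exact mul_le_one₀ (abs_ind_le _) (abs_nonneg _) (abs_ind_le _)))
    fun p hp p' hp' m n hm => by
      have h9 : p * m ≡ p' * m [MOD Q] :=
        ((ZMod.natCast_eq_natCast_iff _ _ _).1 (hBc p hp p' hp').2).mul_right m
      rw [t.mul _ _ (hB p hp).pos hm, t.mul _ _ (hB p' hp').pos hm, (hBc p hp p' hp').1,
        ind_congr ⟨fun h => h9.symm.trans h, fun h => h9.trans h⟩]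
  have h9 := (abs_le.1 ((abs_I_le _).trans h8)).1
  rw [← MM_map] at h9
  have h10 : MM (fun m n => ind (n ≡ q [MOD q * Q]) *
      ind (m + n ≡ 1 [MOD Q] ∧ t.τ (m + n) ∉ K)) N ≤ c * δ / 8 := by
    rw [MM, M_comm]
    refine le_trans (M_mono (b := fun n => (2 * (e / Q)) • ind (n ≡ q [MOD q * Q]))
      fun n _ hnN => ?_) ?_
    · have h11 := M_smul (ind (n ≡ q [MOD q * Q]))
        (fun m => ind (m + n ≡ 1 [MOD Q] ∧ t.τ (m + n) ∉ K)) N
      simp only [smul_eq_mul] at h11 ⊢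
      rw [h11, mul_comm]
      refine mul_le_mul_of_nonneg_right ((M_shift_le (a := fun k =>
        ind (k ≡ 1 [MOD Q] ∧ t.τ k ∉ K)) (fun k => ind_nonneg _) (by exact_mod_cast hnN)).trans ?_)
        (ind_nonneg _)
      exact mul_le_mul_of_nonneg_left h6 zero_le_two
    · rw [M_smul, smul_eq_mul]
      refine (mul_le_mul_of_nonneg_left h7 (by positivity)).trans ?_
      have h11 := mul_le_mul_of_nonneg_right he2 hδ0.le
      have h12 : 2 * (e / Q) * (2 * ((q : ℝ)⁻¹ * (Q : ℝ)⁻¹)) = 4 * (e * δ) := by rw [hδ]; ring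
      linarith
  have h11 : c * (δ / 4) ≤ c * (M (fun m => ind (m ≡ 1 [MOD Q] ∧ t.τ m ∈ K)) N *
      ((q : ℝ)⁻¹ * M (fun m => ind (m ≡ 1 [MOD Q] ∧ t.τ m ∈ K)) (N / q))) := by
    refine mul_le_mul_of_nonneg_left (le_trans (le_of_eq ?_) (mul_le_mul h4
      (mul_le_mul_of_nonneg_left h5 (inv_pos.2 hqr).le) (by positivity)
      (le_trans (by positivity) h4))) hc0.le
    rw [hδ]; ring
  have h12 := add_le_add (add_le_add h3 h9) (neg_le_neg h10)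
  rw [← MM_add, ← sub_eq_add_neg (MM _ _), ← MM_sub] at h12
  refine le_trans (by linarith) (h12.trans (MM_mono fun m n hm hn => ?_))
  have e1 : F * (X.S (t.τ (m * n)) F * X.S (t.τ (m + n)) F * X.S (t.τ m) F * X.S (t.τ n) F) =
      F * X.S (t.τ m) F * X.S (t.τ n) F * X.S (t.τ m * t.τ n) F * X.S (t.τ (m + n)) F := by
    rw [t.mul _ _ hm hn]; ring
  rw [e1]
  have h13 := hP (t.τ m) (t.τ n)
  generalize F * X.S (t.τ m) F * X.S (t.τ n) F * X.S (t.τ m * t.τ n) F = P at h13 ⊢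
  have h14 := C.I_nonneg (h13.mul (hF.map (t.τ (m + n)))).1
  by_cases hw : m ≡ 1 [MOD Q] ∧ n ≡ q [MOD q * Q]
  · have h15 : m + n ≡ 1 [MOD Q] := by
      simpa using hw.1.add ((hw.2.of_mul_left q).trans (Nat.modEq_zero_iff_dvd.2 hQq))
    rw [ind_pos hw.1, ind_pos hw.2]
    by_cases h16 : t.τ (m + n) ∈ K
    · rw [ind_pos ⟨h15, h16⟩, ind_neg fun h => h.2 h16]
      simp only [one_mul, one_smul, sub_zero, ← map_add]
      exact le_of_eq (by congr 1; ring)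
    · rw [ind_neg (P := _ ∧ t.τ (m + n) ∈ K) fun h => h16 h.2, ind_pos ⟨h15, h16⟩]
      simp only [one_mul, zero_smul, mul_zero, map_zero, add_zero]
      have := (le_abs_self _).trans ((abs_I_le _).trans (hφ.mul h13).bd.norm_le)
      linarith
  · have h15 : ind (m ≡ 1 [MOD Q]) * ind (n ≡ q [MOD q * Q]) = 0 := by
      by_cases h16 : m ≡ 1 [MOD Q]
      · rw [ind_neg fun h => hw ⟨h16, h⟩, mul_zero]
      · rw [ind_neg h16, zero_mul]
    rw [h15]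
    simp only [zero_mul, zero_smul, map_zero, add_zero]
    have := mul_nonneg (ind_nonneg (n ≡ q [MOD q * Q]))
      (ind_nonneg (m + n ≡ 1 [MOD Q] ∧ t.τ (m + n) ∉ K))
    linarith

end MF

end Pool.Agent.MP_57adf2_an.H72
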