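import Pool.Agent.MP_57adf2_an.H72.PM

/-! Commutative algebras with a positive functional, actions, and the mean ergodic theorem. -/

namespace Pool.Agent.MP_57adf2_an.H72

open Finset Filter Topology

/-- A commutative real algebra with a positive functional, and the associated seminorm. -/
class L2Alg (A : Type*) extends Norm A, CommRing A, PseudoMetricSpace A, Algebra ℝ A where
  dist_eq : ∀ x y : A, dist x y = ‖-x + y‖
  I : A →ₗ[ℝ] ℝ
  norm_sq : ∀ f : A, ‖f‖ ^ 2 = I (f * f)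
  I_one : I 1 ≤ 1

export L2Alg (I)

instance (priority := 100) L2Alg.toSeminormedAddCommGroup {A : Type*} [h : L2Alg A] :
    SeminormedAddCommGroup A := { h with }

noncomputable instance (priority := 100) L2Alg.toInnerProductSpace {A : Type*} [L2Alg A] :
    InnerProductSpace ℝ A where
  norm_smul_le r x := by
    refine le_of_eq (sq_eq_sq₀ (norm_nonneg _) (by positivity) |>.1 ?_)
    rw [L2Alg.norm_sq, mul_pow, L2Alg.norm_sq, smul_mul_smul_comm, map_smul, smul_eq_mul,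
      Real.norm_eq_abs, sq_abs, pow_two]
  inner f g := I (f * g)
  norm_sq_eq_re_inner x := L2Alg.norm_sq x
  conj_inner_symm x y := by simp [mul_comm]
  add_left x y z := by simp [add_mul]
  smul_left x y r := by simp

/-- Construction from a positive functional. -/
@[reducible]
noncomputable def L2Alg.ofPos {A : Type*} [CommRing A] [Algebra ℝ A] (J : A →ₗ[ℝ] ℝ)
    (pos : ∀ f, 0 ≤ J (f * f)) (one : J 1 ≤ 1) : L2Alg A :=
  letI c : PreInnerProductSpace.Core ℝ A :=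
    { inner := fun f g => J (f * g)
      conj_inner_symm := fun x y => by simp [mul_comm]
      re_inner_nonneg := fun x => pos x
      add_left := fun x y z => by simp [add_mul]
      smul_left := fun x y r => by simp }
  letI s : SeminormedAddCommGroup A := InnerProductSpace.Core.toSeminormedAddCommGroup (𝕜 := ℝ)
  { toNorm := s.toNorm
    toCommRing := inferInstance
    toPseudoMetricSpace := s.toPseudoMetricSpace
    toAlgebra := inferInstance
    dist_eq := s.dist_eq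
    I := J
    norm_sq := fun f => Real.sq_sqrt (pos f)
    I_one := one }

variable {A : Type*} [L2Alg A]

lemma inner_eq (f g : A) : inner ℝ f g = I (f * g) := rfl

lemma abs_I_mul_le (f g : A) : |I (f * g)| ≤ ‖f‖ * ‖g‖ := abs_real_inner_le_norm f g

lemma norm_one_le : ‖(1 : A)‖ ≤ 1 := by
  have h := L2Alg.norm_sq (1 : A)
  rw [mul_one] at h
  have := L2Alg.I_one (A := A)
  exact (sq_le_one_iff₀ (norm_nonneg _)).1 (h ▸ this)

lemma abs_I_le (f : A) : |I f| ≤ ‖f‖ := by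
  have := abs_I_mul_le 1 f
  rw [one_mul] at this
  exact this.trans (mul_le_of_le_one_left (norm_nonneg _) norm_one_le)

lemma I_sq_nonneg (f : A) : 0 ≤ I (f * f) := by rw [← L2Alg.norm_sq]; positivity

/-- Multipliers of norm at most one. -/
def Bd (f : A) : Prop := ∀ g : A, ‖f * g‖ ≤ ‖g‖

lemma Bd.one : Bd (1 : A) := fun g => by rw [one_mul]

lemma Bd.zero : Bd (0 : A) := fun g => by simp

lemma Bd.mul {f g : A} (hf : Bd f) (hg : Bd g) : Bd (f * g) := fun k => by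
  rw [mul_assoc]; exact (hf _).trans (hg k)

lemma Bd.norm_le {f : A} (hf : Bd f) : ‖f‖ ≤ 1 := by
  have := hf 1
  rw [mul_one] at this
  exact this.trans norm_one_le

lemma Bd.smul {f : A} (hf : Bd f) {c : ℝ} (hc : |c| ≤ 1) : Bd (c • f) := fun g => by
  rw [smul_mul_assoc, norm_smul]
  exact (mul_le_of_le_one_left (norm_nonneg _) hc).trans (hf g)

lemma Bd.ite {f : A} (hf : Bd f) (p : Prop) [Decidable p] : Bd (if p then f else 0) := by
  split_ifs
  · exact hf
  · exact Bd.zero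

lemma E_mul_right {Λ : Type*} (ρ : PM Λ) (φ : Λ → A) (g : A) :
    ρ.E (fun h => φ h * g) = ρ.E φ * g :=
  ρ.E_map (LinearMap.mulRight ℝ g) φ

lemma E_mul_left' {Λ : Type*} (ρ : PM Λ) (φ : Λ → A) (g : A) :
    ρ.E (fun h => g * φ h) = g * ρ.E φ :=
  ρ.E_map (LinearMap.mulLeft ℝ g) φ

lemma E_I {Λ : Type*} (ρ : PM Λ) (φ : Λ → A) : ρ.E (fun h => I (φ h)) = I (ρ.E φ) :=
  ρ.E_map I φ

lemma Bd.E {Λ : Type*} (ρ : PM Λ) {φ : Λ → A} (h : ∀ g, Bd (φ g)) : Bd (ρ.E φ) := fun k => by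
  rw [← E_mul_right]
  exact ρ.norm_E_le_of_le fun g => h g k

/-- An action by algebra endomorphisms preserving the functional. -/
structure Act (Λ A : Type*) [CommMonoid Λ] [L2Alg A] where
  S : Λ →* (A →ₐ[ℝ] A)
  inv : ∀ g f, I (S g f) = I f

namespace Act

section Monoid

variable {Λ : Type*} [CommMonoid Λ] (X : Act Λ A)

lemma S_mul (g h : Λ) (f : A) : X.S (g * h) f = X.S g (X.S h f) := by
  rw [map_mul]; rfl

lemma S_one (f : A) : X.S 1 f = f := by rw [map_one]; rfl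

lemma norm_S (g : Λ) (f : A) : ‖X.S g f‖ = ‖f‖ := by
  refine (sq_eq_sq₀ (norm_nonneg _) (norm_nonneg _)).1 ?_
  rw [L2Alg.norm_sq, L2Alg.norm_sq, ← map_mul, X.inv]

/-- Averaging operator. -/
noncomputable def Av (ρ : PM Λ) : A →ₗ[ℝ] A where
  toFun f := ρ.E fun h => X.S h f
  map_add' f g := by simp only [map_add, PM.E_add]
  map_smul' c f := by simp only [map_smul, PM.E_smul, RingHom.id_apply]

lemma Av_apply (ρ : PM Λ) (f : A) : X.Av ρ f = ρ.E fun h => X.S h f := rfl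

lemma S_E {Λ' : Type*} (g : Λ) (ρ : PM Λ') (φ : Λ' → A) :
    X.S g (ρ.E φ) = ρ.E fun h => X.S g (φ h) :=
  (ρ.E_map (X.S g).toLinearMap φ).symm

lemma Av_mul (ρ σ : PM Λ) (f : A) : X.Av (ρ * σ) f = X.Av ρ (X.Av σ f) := by
  simp only [Av_apply, PM.E_mul, S_E, S_mul]

lemma Av_δ (g : Λ) (f : A) : X.Av (PM.δ g) f = X.S g f := by rw [Av_apply, PM.E_δ]

lemma Av_one (f : A) : X.Av 1 f = f := by rw [Av_apply, PM.E_one, S_one]

lemma norm_Av_le (ρ : PM Λ) (f : A) : ‖X.Av ρ f‖ ≤ ‖f‖ :=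
  ρ.norm_E_le_of_le fun g => (X.norm_S g f).le

lemma I_Av (ρ : PM Λ) (f : A) : I (X.Av ρ f) = I f := by
  rw [Av_apply, ← E_I]; simp only [X.inv, PM.E_const]

lemma antitone_norm_Av (f : A) : Antitone fun ρ : PM Λ => ‖X.Av ρ f‖ ^ 2 := by
  intro ρ σ h
  obtain ⟨c, rfl⟩ := PM.le_iff.1 h
  simp only [Av_mul]
  exact pow_le_pow_left₀ (norm_nonneg _) (X.norm_Av_le _ _) 2

/-- The squared norm of the projection on invariant vectors. -/
noncomputable def al (f : A) : ℝ := ⨅ ρ : PM Λ, ‖X.Av ρ f‖ ^ 2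

lemma bdd (f : A) : BddBelow (Set.range fun ρ : PM Λ => ‖X.Av ρ f‖ ^ 2) :=
  ⟨0, by rintro _ ⟨ρ, rfl⟩; positivity⟩

lemma al_le (f : A) (ρ : PM Λ) : X.al f ≤ ‖X.Av ρ f‖ ^ 2 := ciInf_le (X.bdd f) ρ

lemma tendsto_al (f : A) : Tendsto (fun ρ : PM Λ => ‖X.Av ρ f‖ ^ 2) atTop (𝓝 (X.al f)) :=
  tendsto_atTop_ciInf (X.antitone_norm_Av f) (X.bdd f)

lemma norm_Av_sub_sq_le (f : A) (ρ σ : PM Λ) :
    ‖X.Av σ (X.Av ρ f) - X.Av ρ f‖ ^ 2 ≤ 4 * (‖X.Av ρ f‖ ^ 2 - X.al f) := by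
  have h1 := X.al_le f (σ.mid 1 * ρ)
  rw [Av_mul, Av_apply (ρ := σ.mid 1), PM.E_mid, ← Av_apply, ← Av_apply, Av_one, norm_smul] at h1
  have h2 := parallelogram_law_with_norm ℝ (X.Av σ (X.Av ρ f)) (X.Av ρ f)
  have h3 := pow_le_pow_left₀ (norm_nonneg _) (X.norm_Av_le σ (X.Av ρ f)) 2
  rw [Real.norm_of_nonneg (by norm_num : (0 : ℝ) ≤ 1 / 2)] at h1
  nlinarith

/-- The mean ergodic theorem. -/
lemma vn (f : A) {ε : ℝ} (hε : 0 < ε) :
    ∀ᶠ ρ : PM Λ in atTop, ∀ σ, ‖X.Av σ (X.Av ρ f) - X.Av ρ f‖ ≤ ε := by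
  filter_upwards [(X.tendsto_al f).eventually_le_const
    (lt_add_of_pos_right _ (by positivity : 0 < ε ^ 2 / 4))] with ρ hρ σ
  refine (sq_le_sq₀ (norm_nonneg _) hε.le).1 ((X.norm_Av_sub_sq_le f ρ σ).trans ?_)
  linarith

/-- The inner product of the projections on invariant vectors. -/
noncomputable def pi (f g : A) : ℝ := (X.al (f + g) - X.al (f - g)) / 4

lemma tendsto_pi (f g : A) :
    Tendsto (fun ρ : PM Λ => I (X.Av ρ f * X.Av ρ g)) atTop (𝓝 (X.pi f g)) := by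
  have := ((X.tendsto_al (f + g)).sub (X.tendsto_al (f - g))).div_const 4
  refine this.congr fun ρ => ?_
  rw [← inner_eq, map_add, map_sub, norm_add_sq_real, norm_sub_sq_real]
  ring

lemma tendsto_pi' (f g : A) :
    Tendsto (fun ρ : PM Λ => I (f * X.Av ρ g)) atTop (𝓝 (X.pi f g)) := by
  have h : Tendsto (fun ρ : PM Λ => I (f * X.Av ρ g) - I (X.Av ρ f * X.Av ρ g)) atTop (𝓝 0) := by
    rw [Metric.tendsto_nhds]
    intro ε hε
    filter_upwards [X.vn g (by positivity : 0 < ε / (‖f‖ + 1))] with ρ hρ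
    rw [dist_zero_right]
    have e : I (f * X.Av ρ g) - I (X.Av ρ f * X.Av ρ g) =
        ρ.E fun h => I (X.S h f * (X.S h (X.Av ρ g) - X.Av ρ g)) := by
      simp only [mul_sub, map_sub, ← map_mul, X.inv, PM.E_sub, PM.E_const]
      rw [E_I, E_mul_right, ← Av_apply]
    rw [e]
    refine lt_of_le_of_lt (ρ.norm_E_le_of_le (c := ‖f‖ * (ε / (‖f‖ + 1))) fun h => ?_) ?_
    · refine (abs_I_mul_le _ _).trans ?_
      rw [X.norm_S, ← Av_δ]
      exact mul_le_mul_of_nonneg_left (hρ _) (norm_nonneg _)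
    · rw [← mul_div_assoc, div_lt_iff₀ (by positivity)]
      nlinarith
  simpa using h.add (X.tendsto_pi f g)

lemma pi_self (f : A) : X.pi f f = X.al f :=
  tendsto_nhds_unique (X.tendsto_pi f f) ((X.tendsto_al f).congr fun _ => L2Alg.norm_sq _)

lemma pi_comm (f g : A) : X.pi f g = X.pi g f :=
  tendsto_nhds_unique (X.tendsto_pi f g) ((X.tendsto_pi g f).congr fun ρ => by rw [mul_comm])

lemma pi_add_left (f f' g : A) : X.pi (f + f') g = X.pi f g + X.pi f' g :=
  tendsto_nhds_unique (X.tendsto_pi' _ g)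
    (((X.tendsto_pi' f g).add (X.tendsto_pi' f' g)).congr fun ρ => by rw [add_mul, map_add])

lemma pi_smul_left (c : ℝ) (f g : A) : X.pi (c • f) g = c * X.pi f g :=
  tendsto_nhds_unique (X.tendsto_pi' _ g)
    (((X.tendsto_pi' f g).const_mul c).congr fun ρ => by
      rw [smul_mul_assoc, map_smul, smul_eq_mul])

lemma pi_add_right (f g g' : A) : X.pi f (g + g') = X.pi f g + X.pi f g' := by
  rw [pi_comm, pi_add_left, X.pi_comm g, X.pi_comm g']

lemma pi_smul_right (c : ℝ) (f g : A) : X.pi f (c • g) = c * X.pi f g := by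
  rw [pi_comm, pi_smul_left, X.pi_comm g]

/-- The form `pi` as a bilinear map. -/
noncomputable def piL : A →ₗ[ℝ] A →ₗ[ℝ] ℝ :=
  LinearMap.mk₂ ℝ X.pi X.pi_add_left X.pi_smul_left X.pi_add_right X.pi_smul_right

lemma pi_S (h : Λ) (f g : A) : X.pi (X.S h f) (X.S h g) = X.pi f g :=
  tendsto_nhds_unique (X.tendsto_pi' _ _) ((X.tendsto_pi' f g).congr fun ρ => by
    rw [← X.inv h, map_mul, ← Av_δ _ h g, ← Av_mul, mul_comm ρ, Av_mul, Av_δ])

end Monoid

section Group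

variable {Γ : Type*} [CommGroup Γ] (X : Act Γ A)

lemma Bd_S {f : A} (hf : Bd f) (g : Γ) : Bd (X.S g f) := fun k => by
  have e : k = X.S g (X.S g⁻¹ k) := by rw [← S_mul, mul_inv_cancel, S_one]
  conv_lhs => rw [e, ← map_mul, norm_S]
  exact (hf _).trans (X.norm_S _ _).le

lemma Bd_Av {f : A} (hf : Bd f) (ρ : PM Γ) : Bd (X.Av ρ f) := Bd.E ρ fun g => X.Bd_S hf g

/-- Restriction to a subgroup. -/
def res (H : Subgroup Γ) : Act H A where
  S := X.S.comp H.subtype
  inv g f := X.inv g f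

lemma res_S (H : Subgroup Γ) (h : H) (f : A) : (X.res H).S h f = X.S h f := rfl

end Group

end Act

end Pool.Agent.MP_57adf2_an.H72
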