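import Pool.Agent.MP_57adf2_an.H72.AbsQ1
import Pool.Agent.MP_57adf2_an.H72.Pos

/-! The algebra of bounded measurable functions modulo null functions. -/

namespace Pool.Agent.MP_57adf2_an.H72

open Finset Filter Topology MeasureTheory
open scoped ENNReal

universe u

theorem exists_act {A : Type u} [L2Alg A] (V : ℕ → (A →ₐ[ℝ] A)) (hu : ∀ n, 0 < n → IsUnit (V n))
    (hmul : ∀ m n, 0 < m → 0 < n → V (m * n) = V m * V n)
    (hI : ∀ n, 0 < n → ∀ f, I (V n f) = I f) (hfin : (V '' {p | p.Prime}).Finite) :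
    ∃ (Γ : Type u) (_ : CommGroup Γ) (t : MF Γ) (X : Act Γ A),
      ∀ n, 0 < n → X.S (t.τ n) = V n := by
  classical
  let s : Set (A →ₐ[ℝ] A)ˣ := {u | ∃ n, 0 < n ∧ (u : A →ₐ[ℝ] A) = V n}
  have hc : ∀ x ∈ s, ∀ y ∈ s, x * y = y * x := by
    rintro x ⟨m, hm, hx⟩ y ⟨n, hn, hy⟩
    exact Units.ext (by
      rw [Units.val_mul, Units.val_mul, hx, hy, ← hmul m n hm hn, mul_comm m, hmul n m hn hm])
  let τ : ℕ → Subgroup.closure s := fun n =>
    if h : 0 < n then ⟨(hu n h).unit, Subgroup.subset_closure ⟨n, h, rfl⟩⟩ else 1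
  have hτ : ∀ n, 0 < n → ((τ n : (A →ₐ[ℝ] A)ˣ) : A →ₐ[ℝ] A) = V n := fun n h => by
    simp only [τ, dif_pos h, IsUnit.unit_spec]
  have hcomm := Subgroup.isMulCommutative_closure hc
  let : CommGroup (Subgroup.closure s) :=
    { (inferInstance : Group (Subgroup.closure s)) with mul_comm := hcomm.is_comm.comm }
  refine ⟨Subgroup.closure s, this, ⟨τ, fun m n hm hn => ?_, ?_⟩,
    ⟨(Units.coeHom _).comp (Subgroup.closure s).subtype, ?_⟩, hτ⟩
  · refine Subtype.ext (Units.ext ?_)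
    rw [hτ _ (Nat.mul_pos hm hn), hmul m n hm hn, ← hτ m hm, ← hτ n hn]
    rfl
  · refine Set.Finite.of_finite_image
      (f := fun g : Subgroup.closure s => ((g : (A →ₐ[ℝ] A)ˣ) : A →ₐ[ℝ] A))
      (hfin.subset ?_) fun a _ b _ h => Subtype.ext (Units.ext h)
    rintro _ ⟨_, ⟨p, hp, rfl⟩, rfl⟩
    exact ⟨p, hp, (hτ p hp.pos).symm⟩
  · rintro ⟨g, hg⟩
    change ∀ f, I ((g : A →ₐ[ℝ] A) f) = I f
    induction hg using Subgroup.closure_induction with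
    | mem x hx =>
      obtain ⟨n, hn, hx⟩ := hx
      rw [hx]; exact hI n hn
    | one => intro f; rfl
    | mul x y _ _ hx hy =>
      intro f
      rw [Units.val_mul, AlgHom.mul_apply, hx, hy]
    | inv x _ hx =>
      intro f
      rw [← hx, ← AlgHom.mul_apply, ← Units.val_mul, mul_inv_cancel]
      rfl

variable {Ω : Type u} [MeasurableSpace Ω]

/-- Essentially bounded real functions. -/
def BM (μ : Measure Ω) : Subalgebra ℝ (Ω → ℝ) where
  carrier := {f | MemLp f ∞ μ}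
  mul_mem' hf hg := MemLp.mul hg hf
  add_mem' hf hg := MemLp.add hf hg
  algebraMap_mem' c := memLp_top_const c

/-- Null functions. -/
def Nul (μ : Measure Ω) : Ideal (BM μ) where
  carrier := {f | ∀ᵐ x ∂μ, f.1 x = 0}
  add_mem' {f g} hf hg := by
    change ∀ᵐ x ∂μ, f.1 x + g.1 x = 0
    filter_upwards [hf, hg] with x h1 h2
    rw [h1, h2, add_zero]
  zero_mem' := ae_of_all μ fun _ => rfl
  smul_mem' c {f} hf := by
    change ∀ᵐ x ∂μ, c.1 x * f.1 x = 0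
    filter_upwards [hf] with x h1
    rw [h1, mul_zero]

/-- Classes of essentially bounded functions. -/
def LA (μ : Measure Ω) : Type u := BM μ ⧸ Nul μ

variable {μ : Measure Ω}

lemma mk_eq_iff {f g : BM μ} :
    Ideal.Quotient.mk (Nul μ) f = Ideal.Quotient.mk (Nul μ) g ↔ (f : Ω → ℝ) =ᵐ[μ] g := by
  rw [Ideal.Quotient.eq]
  change (∀ᵐ x ∂μ, f.1 x - g.1 x = 0) ↔ ∀ᵐ x ∂μ, f.1 x = g.1 x
  simp only [sub_eq_zero]

variable [IsProbabilityMeasure μ]

lemma BM.memLp (f : BM μ) : MemLp (f : Ω → ℝ) 2 μ := MemLp.mono_exponent f.2 le_top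

lemma BM.integrable (f : BM μ) : Integrable (f : Ω → ℝ) μ := MemLp.integrable le_top f.2

/-- The integral of a class. -/
noncomputable def J0 (a : BM μ ⧸ Nul μ) : ℝ := ∫ x, (Quotient.out a : BM μ).1 x ∂μ

omit [IsProbabilityMeasure μ] in
lemma J0_mk (f : BM μ) : J0 (Ideal.Quotient.mk (Nul μ) f) = ∫ x, f.1 x ∂μ :=
  integral_congr_ae (mk_eq_iff.1 (Quotient.out_eq _))

/-- The integral as a linear functional. -/
noncomputable def J : (BM μ ⧸ Nul μ) →ₗ[ℝ] ℝ where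
  toFun := J0
  map_add' a b := by
    obtain ⟨f, rfl⟩ := Ideal.Quotient.mk_surjective a
    obtain ⟨g, rfl⟩ := Ideal.Quotient.mk_surjective b
    rw [← map_add, J0_mk, J0_mk, J0_mk]
    exact integral_add (BM.integrable f) (BM.integrable g)
  map_smul' c a := by
    obtain ⟨f, rfl⟩ := Ideal.Quotient.mk_surjective a
    have : c • Ideal.Quotient.mk (Nul μ) f = Ideal.Quotient.mk (Nul μ) (c • f) := rfl
    rw [this, J0_mk, J0_mk]
    exact integral_smul c f.1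

noncomputable instance : L2Alg (LA μ) :=
  L2Alg.ofPos (A := BM μ ⧸ Nul μ) J (fun a => by
    obtain ⟨f, rfl⟩ := Ideal.Quotient.mk_surjective a
    rw [← map_mul]
    exact (integral_nonneg fun x => mul_self_nonneg (f.1 x)).trans_eq (J0_mk (f * f)).symm)
    (((J0_mk 1).trans (by simp)).le)

/-- The class of a function. -/
noncomputable def mk : BM μ →ₐ[ℝ] LA μ := Ideal.Quotient.mkₐ ℝ (Nul μ)

lemma mk_surj (a : LA μ) : ∃ f : BM μ, mk f = a := Ideal.Quotient.mk_surjective a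

lemma mk_eq {f g : BM μ} : mk f = mk g ↔ (f : Ω → ℝ) =ᵐ[μ] g := mk_eq_iff

lemma I_mk (f : BM μ) : I (mk f) = ∫ x, f.1 x ∂μ := J0_mk f

/-- The class as an element of `L²`. -/
noncomputable def toL2 (a : LA μ) : Lp ℝ 2 μ := (BM.memLp (mk_surj a).choose).toLp _

lemma toL2_mk (f : BM μ) : toL2 (mk f) =ᵐ[μ] f :=
  (MemLp.coeFn_toLp _).trans (mk_eq.1 (mk_surj (mk f)).choose_spec)

lemma dist_toL2 (a b : LA μ) : dist (toL2 a) (toL2 b) = dist a b := by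
  obtain ⟨f, rfl⟩ := mk_surj a
  obtain ⟨g, rfl⟩ := mk_surj b
  rw [dist_eq_norm, dist_eq_norm]
  refine (sq_eq_sq₀ (norm_nonneg _) (norm_nonneg _)).1 ?_
  rw [L2Alg.norm_sq, ← map_sub, ← map_mul, I_mk, ← real_inner_self_eq_norm_sq, L2.inner_def]
  refine integral_congr_ae ?_
  filter_upwards [Lp.coeFn_sub (toL2 (mk f)) (toL2 (mk g)), toL2_mk f, toL2_mk g] with x h1 h2 h3
  rw [h1, Pi.sub_apply, h2, h3]
  simp [pow_two]

lemma isometry_toL2 : Isometry (toL2 (μ := μ)) := Isometry.of_dist_eq dist_toL2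

/-- Composition with a measure preserving map. -/
def cmp {T : Ω → Ω} (hT : MeasurePreserving T μ μ) : BM μ →ₐ[ℝ] BM μ where
  toFun f := ⟨f.1 ∘ T, MemLp.comp_measurePreserving f.2 hT⟩
  map_one' := rfl
  map_mul' _ _ := rfl
  map_zero' := rfl
  map_add' _ _ := rfl
  commutes' _ := rfl

/-- The Koopman operator. -/
noncomputable def Ko {T : Ω → Ω} (hT : MeasurePreserving T μ μ) : LA μ →ₐ[ℝ] LA μ :=
  Ideal.Quotient.liftₐ (Nul μ) (mk.comp (cmp hT)) fun f hf => by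
    rw [← map_zero (mk (μ := μ))]
    exact mk_eq.2 (hT.quasiMeasurePreserving.ae_eq_comp hf)

lemma Ko_mk {T : Ω → Ω} (hT : MeasurePreserving T μ μ) (f : BM μ) :
    Ko hT (mk f) = mk (cmp hT f) := rfl

lemma I_Ko {T : Ω → Ω} (hT : MeasurePreserving T μ μ) (a : LA μ) : I (Ko hT a) = I a := by
  obtain ⟨f, rfl⟩ := mk_surj a
  rw [Ko_mk, I_mk, I_mk]
  have h : ∀ g : Ω → ℝ, AEStronglyMeasurable g μ → ∫ x, g (T x) ∂μ = ∫ x, g x ∂μ := fun g hg => by
    rw [← integral_map hT.measurable.aemeasurable (hT.map_eq.symm ▸ hg), hT.map_eq]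
  exact h f.1 f.2.1

lemma Ko_mul {T S R : Ω → Ω} (hT : MeasurePreserving T μ μ) (hS : MeasurePreserving S μ μ)
    (hR : MeasurePreserving R μ μ) (h : R =ᵐ[μ] S ∘ T) : Ko hR = Ko hT * Ko hS := by
  refine AlgHom.ext fun a => ?_
  obtain ⟨f, rfl⟩ := mk_surj a
  exact mk_eq.2 (h.fun_comp f.1)

lemma Ko_congr {T S : Ω → Ω} (hT : MeasurePreserving T μ μ) (hS : MeasurePreserving S μ μ)
    (h : T =ᵐ[μ] S) : Ko hT = Ko hS := by
  refine AlgHom.ext fun a => ?_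
  obtain ⟨f, rfl⟩ := mk_surj a
  exact mk_eq.2 (h.fun_comp f.1)

lemma Ko_id : Ko (MeasurePreserving.id μ) = 1 := by
  refine AlgHom.ext fun a => ?_
  obtain ⟨f, rfl⟩ := mk_surj a
  rfl

theorem exists_act' (T : ℕ → Ω → Ω) (hT : ∀ n, 0 < n → MeasurePreserving (T n) μ μ)
    (hinv : ∀ n, 0 < n → ∃ S, MeasurePreserving S μ μ ∧ S ∘ T n =ᵐ[μ] id ∧ T n ∘ S =ᵐ[μ] id)
    (hmul : ∀ m n, 0 < m → 0 < n → T (m * n) =ᵐ[μ] T m ∘ T n)
    (hfin : ∃ s : Finset (Ω → Ω), ∀ p : ℕ, p.Prime → ∃ S ∈ s, T p =ᵐ[μ] S) :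
    ∃ (Γ : Type u) (_ : CommGroup Γ) (t : MF Γ) (X : Act Γ (LA μ)),
      ∀ n (h : 0 < n) f, X.S (t.τ n) (mk f) = mk (cmp (hT n h) f) := by
  classical
  obtain ⟨Γ, _, t, X, h⟩ := exists_act (fun n => if h : 0 < n then Ko (hT n h) else 1)
    (fun n hn => by
      obtain ⟨S, hS, h1, h2⟩ := hinv n hn
      rw [dif_pos hn]
      exact ⟨⟨Ko (hT n hn), Ko hS, (Ko_mul _ _ (.id μ) h1.symm).symm.trans Ko_id,
        (Ko_mul _ _ (.id μ) h2.symm).symm.trans Ko_id⟩, rfl⟩)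
    (fun m n hm hn => by
      rw [dif_pos hm, dif_pos hn, dif_pos (Nat.mul_pos hm hn)]
      exact Ko_mul _ _ _ (mul_comm n m ▸ hmul n m hn hm))
    (fun n hn f => by rw [dif_pos hn, I_Ko])
    (by
      obtain ⟨s, hs⟩ := hfin
      refine ((s.finite_toSet).image fun S => if h : ∃ p : ℕ, p.Prime ∧ T p =ᵐ[μ] S then
        Ko (hT _ h.choose_spec.1.pos) else 1).subset ?_
      rintro _ ⟨p, hp, rfl⟩
      obtain ⟨S, hS, h1⟩ := hs p hp
      have h2 : ∃ p : ℕ, p.Prime ∧ T p =ᵐ[μ] S := ⟨p, hp, h1⟩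
      refine ⟨S, hS, ?_⟩
      simp only [dif_pos h2, dif_pos (Nat.Prime.pos hp)]
      exact Ko_congr _ _ (h2.choose_spec.2.trans h1.symm))
  exact ⟨Γ, _, t, X, fun n hn f => by rw [h n hn, dif_pos hn, Ko_mk]⟩

lemma bd_mk {f : BM μ} (h : ∀ᵐ x ∂μ, |f.1 x| ≤ 1) : Bd (mk f) := fun a => by
  obtain ⟨g, rfl⟩ := mk_surj a
  refine (sq_le_sq₀ (norm_nonneg _) (norm_nonneg _)).1 ?_
  rw [L2Alg.norm_sq, L2Alg.norm_sq, ← map_mul, ← map_mul, ← map_mul, I_mk, I_mk]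
  refine integral_mono_ae (BM.integrable _) (BM.integrable _) ?_
  filter_upwards [h] with x hx
  change f.1 x * g.1 x * (f.1 x * g.1 x) ≤ g.1 x * g.1 x
  have h1 : f.1 x * f.1 x ≤ 1 := by
    rw [← abs_mul_abs_self]; exact mul_le_one₀ hx (abs_nonneg _) hx
  nlinarith [mul_self_nonneg (g.1 x)]

lemma exists_bd (a : LA μ) : ∃ (c : ℝ) (b : LA μ), Bd b ∧ a = c • b := by
  obtain ⟨f, rfl⟩ := mk_surj a
  obtain ⟨C, hC⟩ := eLpNormEssSup_lt_top_iff_isBoundedUnder.1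
    (by simpa only [eLpNorm_exponent_top] using f.2.2)
  have h0 : (0 : ℝ) < C + 1 := by positivity
  refine ⟨C + 1, mk (((C : ℝ) + 1)⁻¹ • f), bd_mk ?_, by
    rw [map_smul, smul_smul, mul_inv_cancel₀ h0.ne', one_smul]⟩
  filter_upwards [eventually_map.1 hC] with x hx
  change |((C : ℝ) + 1)⁻¹ * f.1 x| ≤ 1
  have h1 : |f.1 x| ≤ C := by exact_mod_cast hx
  rw [abs_mul, abs_of_pos (inv_pos.2 h0), inv_mul_le_iff₀ h0]
  linarith

end Pool.Agent.MP_57adf2_an.H72
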