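import Pool.Agent.MP_57adf2_an.H72.Alg

/-! The two-dimensional cubic averages. -/

namespace Pool.Agent.MP_57adf2_an.H72

open Finset Filter Topology TensorProduct

variable {A : Type*} [L2Alg A]

namespace Act

section Monoid

variable {Λ : Type*} [CommMonoid Λ] (X : Act Λ A)

/-- Evaluation of a tensor along the action. -/
noncomputable def ev (i : Λ) : A ⊗[ℝ] A →ₐ[ℝ] A :=
  (Algebra.TensorProduct.lmul' ℝ).comp (Algebra.TensorProduct.map (AlgHom.id ℝ A) (X.S i))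

lemma ev_tmul (i : Λ) (f g : A) : X.ev i (f ⊗ₜ g) = f * X.S i g := by simp [ev]

/-- The functional of the relative product. -/
noncomputable def I2 : A ⊗[ℝ] A →ₗ[ℝ] ℝ := TensorProduct.lift X.piL

lemma I2_tmul (f g : A) : X.I2 (f ⊗ₜ g) = X.pi f g := by simp [I2, piL]

lemma tendsto_ev (ξ : A ⊗[ℝ] A) :
    Tendsto (fun σ : PM Λ => σ.E fun i => I (X.ev i ξ)) atTop (𝓝 (X.I2 ξ)) := by
  induction ξ using TensorProduct.induction_on with
  | zero => simp [PM.E_const]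
  | tmul f g =>
    rw [I2_tmul]
    refine (X.tendsto_pi' f g).congr fun σ => ?_
    simp only [ev_tmul]
    rw [E_I, E_mul_left', Av_apply]
  | add x y hx hy =>
    simp only [map_add, PM.E_add]
    exact hx.add hy

lemma I2_pos (ξ : A ⊗[ℝ] A) : 0 ≤ X.I2 (ξ * ξ) :=
  ge_of_tendsto' (X.tendsto_ev _) fun σ => σ.le_E fun i => by
    rw [map_mul]; exact I_sq_nonneg _

lemma I2_one : X.I2 1 ≤ 1 := by
  rw [Algebra.TensorProduct.one_def, I2_tmul, pi_self]
  refine (X.al_le 1 1).trans ?_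
  rw [Av_one]
  exact (sq_le_one_iff₀ (norm_nonneg _)).2 norm_one_le

/-- The relative product algebra. -/
def TT (_ : Act Λ A) : Type _ := A ⊗[ℝ] A

noncomputable instance : L2Alg X.TT := L2Alg.ofPos (A := A ⊗[ℝ] A) X.I2 X.I2_pos X.I2_one

lemma I2_map (h : Λ) (ξ : A ⊗[ℝ] A) :
    X.I2 (Algebra.TensorProduct.map (X.S h) (X.S h) ξ) = X.I2 ξ := by
  induction ξ using TensorProduct.induction_on with
  | zero => simp
  | tmul f g => rw [Algebra.TensorProduct.map_tmul, I2_tmul, I2_tmul, pi_S]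
  | add x y hx hy => simp only [map_add, hx, hy]

/-- The diagonal action as a monoid homomorphism. -/
noncomputable def S2 : Λ →* (A ⊗[ℝ] A →ₐ[ℝ] A ⊗[ℝ] A) where
  toFun h := Algebra.TensorProduct.map (X.S h) (X.S h)
  map_one' := by rw [map_one]; exact Algebra.TensorProduct.map_id
  map_mul' g h := by
    rw [map_mul]; exact Algebra.TensorProduct.map_comp _ _ _ _

/-- The diagonal action on the relative product. -/
noncomputable def X2 : Act Λ X.TT where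
  S := X.S2
  inv := X.I2_map

/-- Pure tensors in the relative product. -/
noncomputable def tm (f g : A) : X.TT := f ⊗ₜ[ℝ] g

/-- Evaluation on the relative product. -/
noncomputable def ev' (i : Λ) : X.TT →ₐ[ℝ] A := X.ev i

lemma ev'_tm (i : Λ) (f g : A) : X.ev' i (X.tm f g) = f * X.S i g := X.ev_tmul i f g

lemma tendsto_ev' (ξ : X.TT) :
    Tendsto (fun σ : PM Λ => σ.E fun i => I (X.ev' i ξ)) atTop (𝓝 (I ξ)) := X.tendsto_ev ξ

lemma ev_map (i h : Λ) (ξ : A ⊗[ℝ] A) :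
    X.ev i (Algebra.TensorProduct.map (X.S h) (X.S h) ξ) = X.S h (X.ev i ξ) := by
  induction ξ using TensorProduct.induction_on with
  | zero => simp
  | tmul f g =>
    rw [Algebra.TensorProduct.map_tmul, ev_tmul, ev_tmul, map_mul, ← S_mul, ← S_mul, mul_comm i]
  | add x y hx hy => simp only [map_add, hx, hy]

lemma ev'_Av (i : Λ) (ρ : PM Λ) (ξ : X.TT) : X.ev' i (X.X2.Av ρ ξ) = X.Av ρ (X.ev' i ξ) := by
  rw [Av_apply, Av_apply]
  refine (ρ.E_map (X.ev' i).toLinearMap _).symm.trans ?_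
  congr 1
  ext h
  exact X.ev_map i h ξ

lemma tm_mul_S (f0 f1 f2 f3 : A) (j : Λ) :
    I (X.tm f0 f2 * X.X2.S j (X.tm f1 f3)) = X.pi (f0 * X.S j f1) (f2 * X.S j f3) := by
  rw [← I2_tmul, ← Algebra.TensorProduct.tmul_mul_tmul]
  rfl

lemma tm_add_left (f f' g : A) : X.tm (f + f') g = X.tm f g + X.tm f' g := add_tmul _ _ _

lemma tm_add_right (f g g' : A) : X.tm f (g + g') = X.tm f g + X.tm f g' := tmul_add _ _ _

/-- The cubic form. -/
noncomputable def L (f0 f1 f2 f3 : A) : ℝ := X.X2.pi (X.tm f0 f2) (X.tm f1 f3)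

lemma tendsto_L (f0 f1 f2 f3 : A) :
    Tendsto (fun σ : PM Λ => σ.E fun j => X.pi (f0 * X.S j f1) (f2 * X.S j f3)) atTop
      (𝓝 (X.L f0 f1 f2 f3)) := by
  refine (X.X2.tendsto_pi' _ _).congr fun σ => ?_
  rw [Av_apply, ← E_mul_left', ← E_I]
  simp only [tm_mul_S]

lemma tendsto_norm_Av (ρ : PM Λ) (ξ : X.TT) :
    Tendsto (fun σ : PM Λ => σ.E fun i => ‖X.Av ρ (X.ev' i ξ)‖ ^ 2) atTop
      (𝓝 (‖X.X2.Av ρ ξ‖ ^ 2)) := by
  rw [L2Alg.norm_sq]
  refine (X.tendsto_ev' _).congr fun σ => ?_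
  simp only [map_mul, ev'_Av, L2Alg.norm_sq]

lemma L_ineq (f g f' g' : A) (t : ℝ) :
    X.L f g f g + 2 * t * X.L f g f' g' + t ^ 2 * X.L f' g' f' g' ≤
      X.L f f g g + 2 * t * X.L f f' g g' + t ^ 2 * X.L f' f' g' g' := by
  have h1 : Tendsto (fun σ : PM Λ => σ.E fun i => X.al (X.ev' i (X.tm f g + t • X.tm f' g'))) atTop
      (𝓝 (X.L f g f g + 2 * t * X.L f g f' g' + t ^ 2 * X.L f' g' f' g')) := by
    refine (((X.tendsto_L f g f g).add ((X.tendsto_L f g f' g').const_mul (2 * t))).add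
      ((X.tendsto_L f' g' f' g').const_mul (t ^ 2))).congr fun σ => ?_
    rw [← PM.E_mul_left, ← PM.E_mul_left, ← PM.E_add, ← PM.E_add]
    congr 1
    ext i
    rw [← pi_self, map_add, map_smul, ev'_tm, ev'_tm, pi_add_left, pi_add_right, pi_add_right,
      pi_smul_left, pi_smul_left, pi_smul_right, pi_smul_right,
      X.pi_comm (f' * X.S i g') (f * X.S i g)]
    ring
  have h2 : X.X2.al (X.tm f g + t • X.tm f' g') =
      X.L f f g g + 2 * t * X.L f f' g g' + t ^ 2 * X.L f' f' g' g' := by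
    rw [← pi_self, pi_add_left, pi_add_right, pi_add_right,
      pi_smul_left, pi_smul_left, pi_smul_right, pi_smul_right,
      X.X2.pi_comm (X.tm f' g') (X.tm f g)]
    unfold L
    ring
  rw [← h2]
  refine le_ciInf fun ρ => ?_
  exact le_of_tendsto_of_tendsto' h1 (X.tendsto_norm_Av ρ _) fun σ =>
    σ.E_mono fun i => X.al_le _ ρ

lemma L_aux (f b d : A) : X.L f b f d = X.L f f b d := by
  by_contra hne
  set D := X.L f b f d - X.L f f b d with hD
  set C := X.L b b d d - X.L b d b d with hC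
  have hD0 : D ≠ 0 := sub_ne_zero.2 hne
  have h : ∀ t : ℝ, 0 ≤ 2 * t * D + t ^ 2 * C := fun t => by
    have := X.L_ineq f f b d t
    rw [hD, hC]; linarith
  have hC1 : 0 < |C| + 1 := by positivity
  have h1 := h (-D / (|C| + 1))
  have h2 : 2 * (-D / (|C| + 1)) * D + (-D / (|C| + 1)) ^ 2 * C =
      D ^ 2 * (C - 2 * (|C| + 1)) / (|C| + 1) ^ 2 := by
    field_simp; ring
  rw [h2] at h1
  have h3 : D ^ 2 * (C - 2 * (|C| + 1)) / (|C| + 1) ^ 2 < 0 := by
    refine div_neg_of_neg_of_pos (mul_neg_of_pos_of_neg (by positivity) ?_) (by positivity)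
    have := le_abs_self C
    have := abs_nonneg C
    linarith
  linarith

lemma L_eq (f g : A) : X.L f f g g = X.L f g f g := by
  have h := X.L_aux (f + g) f g
  have h1 := X.L_aux g f g
  unfold L at *
  simp only [tm_add_left, tm_add_right, pi_add_left, pi_add_right] at h
  linarith

/-- Uniformity of the mean ergodic theorem along the family `f * S i g`. -/
lemma claimU (f g : A) {ε : ℝ} (hε : 0 < ε) :
    ∀ᶠ ρ : PM Λ in atTop, ∀ᶠ σ : PM Λ in atTop,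
      σ.E (fun i => ‖X.Av ρ (f * X.S i g)‖ ^ 2 - X.al (f * X.S i g)) ≤ ε := by
  filter_upwards [(X.X2.tendsto_al (X.tm f g)).eventually_lt_const
    (lt_add_of_pos_right _ hε)] with ρ hρ
  have h1 := (X.tendsto_norm_Av ρ (X.tm f g)).sub (X.tendsto_L f g f g)
  refine (h1.eventually_le_const (u := ε) ?_).mono fun σ hσ => ?_
  · rw [← L_eq, L, pi_self]; linarith
  · rw [PM.E_sub]
    simpa only [ev'_tm, pi_self] using hσ

lemma norm_le_add_sq {η : ℝ} (hη : 0 < η) (v : A) : ‖v‖ ≤ η + η⁻¹ * ‖v‖ ^ 2 := by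
  rcases le_total ‖v‖ η with h | h
  · have : 0 ≤ η⁻¹ * ‖v‖ ^ 2 := by positivity
    linarith
  · have : ‖v‖ ≤ η⁻¹ * ‖v‖ ^ 2 := by
      rw [le_inv_mul_iff₀ hη, pow_two]
      exact mul_le_mul_of_nonneg_right h (norm_nonneg _)
    linarith

lemma claimU' (f g : A) {ε : ℝ} (hε : 0 < ε) :
    ∃ ρ0 σ0 : PM Λ, ∀ ρ, ρ0 ≤ ρ → ∀ σ, σ0 ≤ σ → ∀ κ : PM Λ,
      σ.E (fun i => ‖X.Av κ (X.Av ρ (f * X.S i g)) - X.Av ρ (f * X.S i g)‖) ≤ ε := by
  obtain ⟨ρ0, h⟩ := (X.claimU f g (by positivity : 0 < ε ^ 2 / 16)).exists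
  obtain ⟨σ0, h⟩ := eventually_atTop.1 h
  refine ⟨ρ0, σ0, fun ρ hρ σ hσ κ => ?_⟩
  have h1 := h σ hσ
  refine (σ.E_mono (ψ := fun i => ε / 2 + ((ε / 2)⁻¹ * 4) *
    (‖X.Av ρ0 (f * X.S i g)‖ ^ 2 - X.al (f * X.S i g))) fun i => ?_).trans ?_
  · refine (norm_le_add_sq (by positivity : 0 < ε / 2) _).trans (add_le_add le_rfl ?_)
    rw [mul_assoc]
    refine mul_le_mul_of_nonneg_left ((X.norm_Av_sub_sq_le _ _ _).trans ?_) (by positivity)
    have := X.antitone_norm_Av (f * X.S i g) hρ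
    simp only at this
    linarith
  · rw [PM.E_add, PM.E_const, PM.E_mul_left]
    have h2 := mul_le_mul_of_nonneg_left h1 (by positivity : 0 ≤ (ε / 2)⁻¹ * 4)
    have h3 : (ε / 2)⁻¹ * 4 * (ε ^ 2 / 16) = ε / 2 := by field_simp; norm_num
    linarith

end Monoid

section Group

variable {Γ : Type*} [CommGroup Γ] (X : Act Γ A)

/-- Uniform convergence of the cubic averages. -/
theorem cube {F1 F2 : A} (F4 : A) (h1 : Bd F1) (h2 : Bd F2) {ε : ℝ} (hε : 0 < ε) :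
    ∃ (Y : A) (ρ0 σ0 : PM Γ), ∀ ρ, ρ0 ≤ ρ → ∀ σ, σ0 ≤ σ →
      ‖(ρ.E fun h => σ.E fun k => X.S h F1 * X.S k F2 * X.S (h * k) F4) - Y‖ ≤ ε := by
  obtain ⟨ρ0, σ1, h⟩ := X.claimU' F1 F4 (by positivity : 0 < ε / 2)
  obtain ⟨σ0, hσ1, hσ0⟩ := ((eventually_ge_atTop σ1).and
    ((Filter.eventually_all_finset ρ0.w.support).2
      fun g _ => X.vn (F2 * X.S g F4) (by positivity : 0 < ε / 2))).exists
  have e1 : ∀ ρ σ : PM Γ, (ρ.E fun h => σ.E fun k => X.S h F1 * X.S k F2 * X.S (h * k) F4) =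
      σ.E fun k => X.S k F2 * X.Av ρ (F1 * X.S k F4) := fun ρ σ => by
    rw [PM.E_comm]
    congr 1
    ext k
    rw [Av_apply, ← E_mul_left']
    congr 1
    ext g
    rw [S_mul, map_mul]; ring
  have e2 : ∀ ρ σ : PM Γ, (ρ.E fun h => σ.E fun k => X.S h F1 * X.S k F2 * X.S (h * k) F4) =
      ρ.E fun h => X.S h F1 * X.Av σ (F2 * X.S h F4) := fun ρ σ => by
    congr 1
    ext k
    rw [Av_apply, ← E_mul_left']
    congr 1
    ext g
    rw [mul_comm k g, S_mul, map_mul]; ring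
  refine ⟨ρ0.E fun h => σ0.E fun k => X.S h F1 * X.S k F2 * X.S (h * k) F4, ρ0, σ0,
    fun ρ hρ σ hσ => ?_⟩
  refine (norm_sub_le_norm_sub_add_norm_sub _
    (ρ0.E fun h => σ.E fun k => X.S h F1 * X.S k F2 * X.S (h * k) F4) _).trans ?_
  rw [← add_halves ε]
  refine add_le_add ?_ ?_
  · obtain ⟨κ, rfl⟩ := PM.le_iff.1 hρ
    rw [e1, e1, ← PM.E_sub]
    refine (σ.norm_E_le _).trans (le_trans (σ.E_mono fun k => ?_) (h ρ0 le_rfl σ (hσ1.trans hσ) κ))
    rw [← mul_sub, Av_mul]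
    exact X.Bd_S h2 k _
  · obtain ⟨κ, rfl⟩ := PM.le_iff.1 hσ
    rw [e2, e2, ← PM.E_sub]
    refine ρ0.norm_E_le_of_le' fun g hg => ?_
    rw [← mul_sub, Av_mul]
    exact (X.Bd_S h1 g _).trans (hσ0 g hg κ)

end Group

end Act

end Pool.Agent.MP_57adf2_an.H72
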