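import Pool.Agent.MP_57adf2_an.H72.Grp
import Pool.Agent.MP_57adf2_an.H72.Cube

/-! Convergence of the averages along `m`, `n`, `m * n`. -/

namespace Pool.Agent.MP_57adf2_an.H72

open Finset Filter Topology

variable {E : Type*} [SeminormedAddCommGroup E] [NormedSpace ℝ E]

lemma M_E {Λ : Type*} (ρ : PM Λ) (φ : ℕ → Λ → E) (x : ℝ) :
    M (fun n => ρ.E (φ n)) x = ρ.E fun h => M (fun n => φ n h) x := by
  simp only [PM.E, M_sum, M_smul]

/-- Double averages. -/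
noncomputable def MM (a : ℕ → ℕ → E) (x : ℝ) : E := M (fun m => M (a m) x) x

lemma MM_add (a b : ℕ → ℕ → E) (x : ℝ) :
    MM (fun m n => a m n + b m n) x = MM a x + MM b x := by
  simp only [MM, M_add]

lemma MM_sub (a b : ℕ → ℕ → E) (x : ℝ) :
    MM (fun m n => a m n - b m n) x = MM a x - MM b x := by
  simp only [MM, M_sub]

lemma MM_smul (c : ℝ) (a : ℕ → ℕ → E) (x : ℝ) :
    MM (fun m n => c • a m n) x = c • MM a x := by
  simp only [MM, M_smul]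

lemma MM_sum {ι : Type*} (s : Finset ι) (a : ι → ℕ → ℕ → E) (x : ℝ) :
    MM (fun m n => ∑ i ∈ s, a i m n) x = ∑ i ∈ s, MM (a i) x := by
  simp only [MM, M_sum]

lemma MM_map {E' : Type*} [SeminormedAddCommGroup E'] [NormedSpace ℝ E'] (L : E →ₗ[ℝ] E')
    (a : ℕ → ℕ → E) (x : ℝ) : MM (fun m n => L (a m n)) x = L (MM a x) := by
  simp only [MM, M_map]

lemma MM_congr {a b : ℕ → ℕ → E} {x : ℝ} (h : ∀ m n, 0 < m → 0 < n → a m n = b m n) :
    MM a x = MM b x :=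
  M_congr fun m hm _ => M_congr fun n hn _ => h m n hm hn

lemma MM_mono {a b : ℕ → ℕ → ℝ} {x : ℝ} (h : ∀ m n, 0 < m → 0 < n → a m n ≤ b m n) :
    MM a x ≤ MM b x :=
  M_mono fun m hm _ => M_mono fun n hn _ => h m n hm hn

lemma norm_MM_le_of_le {a : ℕ → ℕ → E} {b : ℕ → ℕ → ℝ} {x : ℝ}
    (h : ∀ m n, 0 < m → 0 < n → ‖a m n‖ ≤ b m n) : ‖MM a x‖ ≤ MM b x :=
  norm_M_le_of_le fun m hm _ => norm_M_le_of_le fun n hn _ => h m n hm hn

lemma MM_const_le {c : ℝ} (hc : 0 ≤ c) (x : ℝ) : MM (fun _ _ => c) x ≤ c :=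
  M_le hc fun _ _ _ => M_const_le hc x

lemma MM_mul (a b : ℕ → ℝ) (x : ℝ) : MM (fun m n => a m * b n) x = M a x * M b x := by
  have h1 : ∀ m, M (fun n => a m * b n) x = M b x * a m := fun m => by
    rw [mul_comm]; exact M_smul (a m) b x
  simp only [MM, h1]
  rw [mul_comm]; exact M_smul (M b x) a x

namespace MF

variable {Γ : Type*} [CommGroup Γ] (t : MF Γ)

lemma shift_PM {Q : ℕ} (hQ : Q ≠ 0) {K : Subgroup Γ} (hK : K ≤ t.H Q) (ρ : PM K) {κ : ℝ}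
    (hκ : 0 < κ) : ∀ᶠ x : ℝ in atTop, ∀ φ : Γ → ZMod Q → E, (∀ u c, ‖φ u c‖ ≤ 1) →
      ‖M (fun n => φ (t.τ n) n) x - M (fun n => ρ.E fun h => φ (h * t.τ n) n) x‖ ≤ κ := by
  filter_upwards [(Filter.eventually_all_finset ρ.w.support).2 fun (h : K) _ =>
    t.shift_inv (E := E) hQ (t.mem_H.1 (hK h.2)) κ hκ] with x hx φ hφ
  rw [M_E, ← ρ.E_const (M (fun n => φ (t.τ n) n) x), ← PM.E_sub]
  refine ρ.norm_E_le_of_le' fun h hh => ?_
  simpa using hx h hh φ hφ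

lemma shift_PM2 {Q : ℕ} (hQ : Q ≠ 0) {K : Subgroup Γ} (hK : K ≤ t.H Q) (ρ σ : PM K) {κ : ℝ}
    (hκ : 0 < κ) : ∀ᶠ x : ℝ in atTop, ∀ Φ : Γ → ZMod Q → Γ → ZMod Q → E,
      (∀ u a v b, ‖Φ u a v b‖ ≤ 1) →
      ‖MM (fun m n => Φ (t.τ m) m (t.τ n) n) x -
        MM (fun m n => ρ.E fun h => σ.E fun k => Φ (h * t.τ m) m (k * t.τ n) n) x‖ ≤ κ := by
  filter_upwards [t.shift_PM (E := E) hQ hK ρ (by positivity : 0 < κ / 2),
    t.shift_PM (E := E) hQ hK σ (by positivity : 0 < κ / 2)] with x h1 h2 Φ hΦ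
  have h3 := h1 (fun u a => M (fun n => σ.E fun k => Φ u a (k * t.τ n) n) x) fun u a =>
    norm_M_le zero_le_one fun n _ _ => σ.norm_E_le_of_le fun k => hΦ _ _ _ _
  simp only [← M_E] at h3
  have h4 : ‖MM (fun m n => Φ (t.τ m) m (t.τ n) n) x -
      M (fun m => M (fun n => σ.E fun k => Φ (t.τ m) m (k * t.τ n) n) x) x‖ ≤ κ / 2 := by
    rw [MM, ← M_sub]
    exact norm_M_le (by positivity) fun m _ _ => h2 _ fun v b => hΦ _ _ _ _
  have := (norm_sub_le_norm_sub_add_norm_sub _ _ _).trans (add_le_add h4 h3)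
  rwa [add_halves] at this

theorem conv_general {Q : ℕ} (hQ : Q ≠ 0) (Φ : Γ → ZMod Q → Γ → ZMod Q → E)
    (hΦ : ∀ u a v b, ‖Φ u a v b‖ ≤ 1)
    (hc : ∀ u a v b, ∀ ε > 0, ∃ (Y : E) (ρ0 σ0 : PM (t.H Q)), ∀ ρ, ρ0 ≤ ρ → ∀ σ, σ0 ≤ σ →
      ‖(ρ.E fun h => σ.E fun k => Φ (h * u) a (k * v) b) - Y‖ ≤ ε) {ε : ℝ} (hε : 0 < ε) :
    ∃ Y : E, ∀ᶠ x : ℝ in atTop, ‖MM (fun m n => Φ (t.τ m) m (t.τ n) n) x - Y‖ ≤ ε := by
  obtain ⟨η, hη, hη1, hηε⟩ : ∃ η > 0, η ≤ 1 ∧ 10 * η ≤ ε :=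
    ⟨min 1 (ε / 10), by positivity, min_le_left _ _, by linarith [min_le_right 1 (ε / 10)]⟩
  obtain ⟨D, hD, hQD, rep, Ex, hEx, hrep⟩ := t.periodic_rep hQ hη
  choose Y ρ0 σ0 hY using fun r s : ℕ => hc (rep r) r (rep s) s η hη
  have hY2 : ∀ r s, ‖Y r s‖ ≤ 2 := fun r s => by
    have h1 := hY r s _ le_rfl _ le_rfl
    have h2 : ‖(ρ0 r s).E fun h => (σ0 r s).E fun k => Φ (h * rep r) r (k * rep s) s‖ ≤ 1 :=
      PM.norm_E_le_of_le _ fun h => PM.norm_E_le_of_le _ fun k => hΦ _ _ _ _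
    have h3 := norm_sub_norm_le (Y r s)
      ((ρ0 r s).E fun h => (σ0 r s).E fun k => Φ (h * rep r) r (k * rep s) s)
    rw [norm_sub_rev] at h3
    linarith
  obtain ⟨ρ, hρ⟩ := ((Filter.eventually_all_finset (range D ×ˢ range D)).2
    fun z _ => eventually_ge_atTop (ρ0 z.1 z.2)).exists
  obtain ⟨σ, hσ⟩ := ((Filter.eventually_all_finset (range D ×ˢ range D)).2
    fun z _ => eventually_ge_atTop (σ0 z.1 z.2)).exists
  let y : ℕ → ℕ → E := fun m n => Y (m % D) (n % D)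
  refine ⟨M (fun m => M (y m) D) D, ?_⟩
  filter_upwards [t.shift_PM2 (E := E) hQ le_rfl ρ σ hη, eventually_gt_atTop 0,
    (tendsto_id.const_div_atTop (2 * (2 * (D : ℝ) + 1))).eventually_le_const hη]
    with x h1 hx hDx
  have h1 := h1 Φ hΦ
  have h2 : ‖MM (fun m n => ρ.E fun h => σ.E fun k => Φ (h * t.τ m) m (k * t.τ n) n) x -
      MM y x‖ ≤ 7 * η := by
    rw [← MM_sub]
    refine (norm_MM_le_of_le (b := fun m n => η + (3 : ℝ) • ind (Ex m) + (3 : ℝ) • ind (Ex n))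
      fun m n hm hn => ?_).trans ?_
    · have h3 : ‖(ρ.E fun h => σ.E fun k => Φ (h * t.τ m) m (k * t.τ n) n) - y m n‖ ≤ 3 := by
        refine (norm_sub_le _ _).trans ?_
        have h4 : ‖ρ.E fun h => σ.E fun k => Φ (h * t.τ m) m (k * t.τ n) n‖ ≤ 1 :=
          PM.norm_E_le_of_le _ fun h => PM.norm_E_le_of_le _ fun k => hΦ _ _ _ _
        have := hY2 (m % D) (n % D)
        linarith
      have i1 := ind_nonneg (Ex m)
      have i2 := ind_nonneg (Ex n)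
      simp only [smul_eq_mul]
      by_cases hm' : Ex m
      · rw [ind_pos hm']; linarith
      by_cases hn' : Ex n
      · rw [ind_pos hn']; linarith
      obtain ⟨a, ha, ea⟩ := hrep m hm hm'
      obtain ⟨b, hb, eb⟩ := hrep n hn hn'
      have hz : (m % D, n % D) ∈ range D ×ˢ range D := by
        simp [Nat.mod_lt _ hD]
      have h4 := hY (m % D) (n % D) (PM.δ ⟨a, ha⟩ * ρ) ((hρ _ hz).trans (PM.le_mul_left' _ _))
        (PM.δ ⟨b, hb⟩ * σ) ((hσ _ hz).trans (PM.le_mul_left' _ _))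
      have c1 : ∀ m : ℕ, ((m % D : ℕ) : ZMod Q) = m := fun m =>
        (ZMod.natCast_eq_natCast_iff _ _ _).2 ((Nat.mod_modEq m D).of_dvd hQD)
      simp only [PM.E_δ_mul, c1, Subgroup.coe_mul] at h4
      have e1 : ∀ h : Γ, h * t.τ m = a * h * rep (m % D) := fun h => by
        rw [ea]; simp only [mul_comm, mul_left_comm]
      have e2 : ∀ h : Γ, h * t.τ n = b * h * rep (n % D) := fun h => by
        rw [eb]; simp only [mul_comm, mul_left_comm]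
      simp only [e1, e2]
      linarith
    · rw [MM_add, MM_add, MM_smul, MM_smul]
      have h3 := MM_const_le hη.le x
      have h4 : MM (fun m _ => ind (Ex m)) x ≤ η :=
        (M_mono fun m _ _ => M_const_le (ind_nonneg _) x).trans (hEx x)
      have h5 : MM (fun _ n => ind (Ex n)) x ≤ η := M_le hη.le fun _ _ _ => hEx x
      simp only [smul_eq_mul]
      linarith
  have h3 : ‖MM y x - M (fun m => M (y m) D) x‖ ≤ η := by
    rw [MM, ← M_sub]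
    refine norm_M_le hη.le fun m _ _ => le_trans (M_periodic hD (fun n => ?_)
      (fun n => hY2 _ _) hx) hDx
    simp
  have h4 : ‖M (fun m => M (y m) D) x - M (fun m => M (y m) D) D‖ ≤ η := by
    refine le_trans (M_periodic hD (fun n => ?_)
      (fun n => norm_M_le zero_le_two fun _ _ _ => hY2 _ _) hx) hDx
    simp
  have h5 := (norm_sub_le_norm_sub_add_norm_sub _ _ _).trans (add_le_add h1 h2)
  have h6 := (norm_sub_le_norm_sub_add_norm_sub _ _ _).trans (add_le_add h5 h3)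
  have h7 := (norm_sub_le_norm_sub_add_norm_sub _ _ _).trans (add_le_add h6 h4)
  linarith

variable {A : Type*} [L2Alg A] (X : Act Γ A)

/-- Convergence of the weighted averages along `m`, `n`, `m * n`. -/
theorem conv_three {Q : ℕ} (hQ : Q ≠ 0) (w : ZMod Q → ZMod Q → A) (hw : ∀ a b, Bd (w a b))
    {F1 F2 F4 : A} (h1 : Bd F1) (h2 : Bd F2) (h4 : Bd F4) {ε : ℝ} (hε : 0 < ε) :
    ∃ Y : A, ∀ᶠ x : ℝ in atTop, ‖MM (fun m n => w m n *
      (X.S (t.τ m) F1 * X.S (t.τ n) F2 * X.S (t.τ m * t.τ n) F4)) x - Y‖ ≤ ε := by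
  refine t.conv_general hQ (fun u a v b => w a b * (X.S u F1 * X.S v F2 * X.S (u * v) F4))
    (fun u a v b => ((hw a b).mul (((X.Bd_S h1 u).mul (X.Bd_S h2 v)).mul (X.Bd_S h4 _))).norm_le)
    (fun u a v b η hη => ?_) hε
  obtain ⟨Y, ρ0, σ0, h⟩ := (X.res (t.H Q)).cube (X.S (u * v) F4) (X.Bd_S h1 u) (X.Bd_S h2 v) hη
  refine ⟨w a b * Y, ρ0, σ0, fun ρ hρ σ hσ => ?_⟩
  simp only [E_mul_left']
  rw [← mul_sub]
  refine (hw a b _).trans ?_
  have e : ∀ h k : Γ, h * u * (k * v) = h * k * (u * v) := fun h k => mul_mul_mul_comm _ _ _ _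
  simpa only [Act.res_S, Subgroup.coe_mul, ← Act.S_mul, e] using h ρ hρ σ hσ

end MF

end Pool.Agent.MP_57adf2_an.H72
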