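import Pool.Agent.MP_57adf2_an.H72.Avg

/-! Sums of reciprocals of primes, periodic averages and counting lemmas. -/

namespace Pool.Agent.MP_57adf2_an.H72

open Finset Filter Topology

/-- Reciprocals of the primes in `s`. -/
noncomputable def rc (s : Set ℕ) : ℕ → ℝ := ({p | p.Prime} ∩ s).indicator fun p => (p : ℝ)⁻¹

/-- The reciprocals of the primes in `s` are summable. -/
def Cv (s : Set ℕ) : Prop := Summable (rc s)

lemma rc_nonneg (s : Set ℕ) (p : ℕ) : 0 ≤ rc s p :=
  Set.indicator_nonneg (fun _ _ => by positivity) p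

lemma rc_of_mem {s : Set ℕ} {p : ℕ} (hp : p.Prime) (hs : p ∈ s) : rc s p = (p : ℝ)⁻¹ :=
  Set.indicator_of_mem (show p ∈ {p | p.Prime} ∩ s from ⟨hp, hs⟩) _

lemma rc_of_not {s : Set ℕ} {p : ℕ} (h : ¬ (p.Prime ∧ p ∈ s)) : rc s p = 0 :=
  Set.indicator_of_notMem (show p ∉ {p | p.Prime} ∩ s from h) _

lemma Cv.mono {s t : Set ℕ} (ht : Cv t) (h : ∀ p, p.Prime → p ∈ s → p ∈ t) : Cv s :=
  Summable.of_nonneg_of_le (rc_nonneg s) (fun p => by
    by_cases hp : p.Prime ∧ p ∈ s
    · rw [rc_of_mem hp.1 hp.2, rc_of_mem hp.1 (h p hp.1 hp.2)]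
    · rw [rc_of_not hp]; exact rc_nonneg t p) ht

lemma Cv.cover {ι : Type*} {s : Set ℕ} (T : Set ι) (hT : T.Finite) (t : ι → Set ℕ)
    (ht : ∀ i ∈ T, Cv (t i)) (h : ∀ p, p.Prime → p ∈ s → ∃ i ∈ T, p ∈ t i) : Cv s := by
  lift T to Finset ι using hT
  refine Summable.of_nonneg_of_le (rc_nonneg s) (fun p => ?_)
    (summable_sum (s := T) fun i hi => ht i hi)
  by_cases hp : p.Prime ∧ p ∈ s
  · obtain ⟨i, hi, hpi⟩ := h p hp.1 hp.2
    rw [rc_of_mem hp.1 hp.2, ← rc_of_mem hp.1 hpi]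
    exact Finset.single_le_sum (f := fun i => rc (t i) p) (fun j _ => rc_nonneg _ p) hi
  · rw [rc_of_not hp]; exact Finset.sum_nonneg fun j _ => rc_nonneg _ p

lemma Cv.of_le {s : Set ℕ} (Q : ℕ) (h : ∀ p, p.Prime → p ∈ s → p ≤ Q) : Cv s := by
  refine summable_of_ne_finset_zero (s := range (Q + 1)) fun p hp => rc_of_not fun h' => hp ?_
  exact Finset.mem_range.2 (Nat.lt_succ_of_le (h p h'.1 h'.2))

lemma exists_finset_of_not_cv {s : Set ℕ} (h : ¬ Cv s) (L : ℝ) :
    ∃ B : Finset ℕ, (∀ p ∈ B, p.Prime ∧ p ∈ s) ∧ L ≤ ∑ p ∈ B, (p : ℝ)⁻¹ := by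
  classical
  by_contra hc
  push Not at hc
  refine h (summable_of_sum_le (rc_nonneg s) (c := L) fun u => ?_)
  refine le_trans (le_of_eq ?_) (hc (u.filter fun p => p.Prime ∧ p ∈ s)
    fun p hp => (Finset.mem_filter.1 hp).2).le
  rw [Finset.sum_filter]
  refine Finset.sum_congr rfl fun p _ => ?_
  split_ifs with hp
  · exact rc_of_mem hp.1 hp.2
  · exact rc_of_not hp

lemma not_cv_univ : ¬ Cv Set.univ := by
  intro h
  apply not_summable_one_div_on_primes
  refine Summable.congr h fun p => ?_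
  simp [rc]

open ArithmeticFunction.vonMangoldt in
lemma not_cv_residue {q : ℕ} [NeZero q] {a : ZMod q} (ha : IsUnit a) :
    ¬ Cv {p | (p : ZMod q) = a} := by
  intro h
  obtain ⟨C, hC⟩ := LSeries_residueClass_lower_bound ha
  have h1 : Tendsto (fun x : ℝ => ∑' n : ℕ, (x - 1) * (residueClass a n / (n : ℝ) ^ x))
      (𝓝[>] 1) (𝓝 (∑' _ : ℕ, (0 : ℝ))) := by
    refine tendsto_tsum_of_dominated_convergence
      ((summable_residueClass_non_primes_div a).add h) (fun n => ?_) ?_
    · rcases Nat.eq_zero_or_pos n with rfl | hn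
      · simp
      · have hn0 : (0 : ℝ) < n := by exact_mod_cast hn
        have : ContinuousAt (fun x : ℝ => (x - 1) * (residueClass a n / (n : ℝ) ^ x)) 1 := by
          refine (continuousAt_id.sub continuousAt_const).mul (continuousAt_const.div
            (Real.continuousAt_const_rpow hn0.ne') (by positivity))
        have := this.tendsto
        rw [sub_self, zero_mul] at this
        exact this.mono_left nhdsWithin_le_nhds
    · filter_upwards [Ioc_mem_nhdsGT (by norm_num : (1 : ℝ) < 2)] with x hx n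
      have h0 := residueClass_nonneg a n
      have hx1 : 0 ≤ x - 1 := by linarith [hx.1]
      rw [Real.norm_of_nonneg (by positivity)]
      rcases Nat.eq_zero_or_pos n with rfl | hn
      · simpa using rc_nonneg _ 0
      have hn1 : (1 : ℝ) ≤ n := by exact_mod_cast hn
      have hn0 : (0 : ℝ) < n := by linarith
      by_cases hp : n.Prime
      · rw [if_pos hp, zero_div, zero_add]
        by_cases hr : (n : ZMod q) = a
        · rw [rc_of_mem hp hr]
          have e : residueClass a n = Real.log n := by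
            rw [residueClass, Set.indicator_of_mem (show n ∈ {n : ℕ | (n : ZMod q) = a} from hr),
              ArithmeticFunction.vonMangoldt_apply_prime hp]
          have e2 : (n : ℝ) ^ x = Real.exp ((x - 1) * Real.log n) * n := by
            rw [mul_comm (x - 1), ← Real.rpow_def_of_pos hn0, ← Real.rpow_add_one hn0.ne']
            ring_nf
          have e3 := Real.add_one_le_exp ((x - 1) * Real.log n)
          rw [e, e2, ← mul_div_assoc, div_le_iff₀ (by positivity), mul_comm _ (n : ℝ), ← mul_assoc,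
            inv_mul_cancel₀ hn0.ne', one_mul]
          linarith
        · have e : residueClass a n = 0 :=
            Set.indicator_of_notMem (show n ∉ {n : ℕ | (n : ZMod q) = a} from hr) _
          rw [e]; simpa using rc_nonneg _ n
      · rw [if_neg hp, rc_of_not fun h => hp h.1, add_zero]
        refine (mul_le_of_le_one_left (by positivity) (by linarith [hx.2])).trans ?_
        refine div_le_div_of_nonneg_left h0 hn0 ?_
        conv_lhs => rw [← Real.rpow_one n]
        exact Real.rpow_le_rpow_of_exponent_le hn1 hx.1.le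
  rw [tsum_zero] at h1
  have h2 : Tendsto (fun x : ℝ => (q.totient : ℝ)⁻¹ - (x - 1) * C) (𝓝[>] 1)
      (𝓝 (q.totient : ℝ)⁻¹) := by
    have : ContinuousAt (fun x : ℝ => (q.totient : ℝ)⁻¹ - (x - 1) * C) 1 := by fun_prop
    have := this.tendsto
    rw [sub_self, zero_mul, sub_zero] at this
    exact this.mono_left nhdsWithin_le_nhds
  have h3 : (q.totient : ℝ)⁻¹ ≤ 0 := by
    refine le_of_tendsto_of_tendsto h2 h1 ?_
    filter_upwards [Ioc_mem_nhdsGT (by norm_num : (1 : ℝ) < 2)] with x hx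
    have hx1 : 0 < x - 1 := by linarith [hx.1]
    rw [tsum_mul_left]
    have := mul_le_mul_of_nonneg_left (hC hx) hx1.le
    rwa [mul_sub, mul_div_cancel₀ _ hx1.ne'] at this
  have : (0 : ℝ) < q.totient := by exact_mod_cast Nat.totient_pos.2 (NeZero.pos q)
  exact absurd h3 (not_le.2 (by positivity))

open Classical in
/-- Indicator of a proposition. -/
noncomputable def ind (P : Prop) : ℝ := if P then 1 else 0

lemma ind_pos {P : Prop} (h : P) : ind P = 1 := if_pos h

lemma ind_neg {P : Prop} (h : ¬ P) : ind P = 0 := if_neg h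

lemma ind_nonneg (P : Prop) : 0 ≤ ind P := by unfold ind; split_ifs <;> norm_num

lemma ind_le_one (P : Prop) : ind P ≤ 1 := by unfold ind; split_ifs <;> norm_num

lemma abs_ind_le (P : Prop) : |ind P| ≤ 1 := by rw [abs_of_nonneg (ind_nonneg P)]; exact ind_le_one P

lemma ind_mono {P Q : Prop} (h : P → Q) : ind P ≤ ind Q := by
  by_cases hP : P
  · rw [ind_pos hP, ind_pos (h hP)]
  · rw [ind_neg hP]; exact ind_nonneg Q

lemma ind_congr {P Q : Prop} (h : P ↔ Q) : ind P = ind Q := by rw [propext h]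

lemma M_dvd_le {d : ℕ} (hd : 0 < d) (x : ℝ) : M (fun n => ind (d ∣ n)) x ≤ (d : ℝ)⁻¹ := by
  rcases le_or_gt x 0 with h0 | h0
  · simp [M, Nat.floor_of_nonpos h0]
  have h := M_dilate (fun _ => (1 : ℝ)) h0 hd
  have e : (fun n => ind (d ∣ n)) = fun n => if d ∣ n then (1 : ℝ) else 0 := by
    ext n; unfold ind; congr
  rw [e, ← h, smul_eq_mul]
  exact mul_le_of_le_one_right (by positivity) (M_const_le zero_le_one _)

/-- The union bound. -/
lemma M_exists_dvd_le (s : Set ℕ) (f : ℕ → ℕ) (hf : ∀ p ∈ s, 0 < f p ∧ p ∣ f p)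
    (hs : Summable (s.indicator fun p => (f p : ℝ)⁻¹)) (x : ℝ) :
    M (fun n => ind (∃ p ∈ s, f p ∣ n)) x ≤ ∑' p, s.indicator (fun p => (f p : ℝ)⁻¹) p := by
  classical
  have h1 : M (fun n => ind (∃ p ∈ s, f p ∣ n)) x ≤
      M (fun n => ∑ p ∈ (range (⌊x⌋₊ + 1)).filter (· ∈ s), ind (f p ∣ n)) x := by
    refine M_mono fun n hn hx => ?_
    by_cases h : ∃ p ∈ s, f p ∣ n
    · rw [ind_pos h]
      obtain ⟨p, hp, hd⟩ := h
      rw [← ind_pos hd]
      refine Finset.single_le_sum (f := fun p => ind (f p ∣ n)) (fun _ _ => ind_nonneg _) ?_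
      rw [Finset.mem_filter, Finset.mem_range, Nat.lt_succ_iff]
      exact ⟨(Nat.le_of_dvd hn ((hf p hp).2.trans hd)).trans (Nat.le_floor hx), hp⟩
    · rw [ind_neg h]; exact Finset.sum_nonneg fun _ _ => ind_nonneg _
  refine h1.trans ?_
  rw [M_sum]
  refine le_trans (Finset.sum_le_sum fun p hp => ?_) (hs.sum_le_tsum _ fun p _ =>
    Set.indicator_nonneg (fun _ _ => by positivity) p)
  have hp' := (Finset.mem_filter.1 hp).2
  rw [Set.indicator_of_mem hp']
  exact M_dvd_le (hf p hp').1 x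

variable {E : Type*} [SeminormedAddCommGroup E] [NormedSpace ℝ E]

omit [NormedSpace ℝ E] in
lemma sum_Ioc_eq_range (y : ℕ → E) (N : ℕ) : ∑ n ∈ Ioc 0 N, y n = ∑ i ∈ range N, y (i + 1) := by
  induction N with
  | zero => simp
  | succ N ih => rw [Finset.sum_range_succ, ← ih, Finset.sum_Ioc_succ_top (Nat.zero_le N)]

/-- Averages of periodic sequences. -/
lemma M_periodic {y : ℕ → E} {D : ℕ} (hD : 0 < D) (hy : ∀ n, y (n + D) = y n) {C : ℝ}
    (hC : ∀ n, ‖y n‖ ≤ C) {x : ℝ} (hx : 0 < x) : ‖M y x - M y D‖ ≤ C * (2 * D + 1) / x := by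
  have hC0 : 0 ≤ C := (norm_nonneg _).trans (hC 0)
  have hD0 : (0 : ℝ) < D := by exact_mod_cast hD
  have hper : ∀ q n, y (D * q + n) = y n := fun q n => by
    induction q with
    | zero => simp
    | succ q ih => rw [Nat.mul_succ, add_right_comm, hy, ih]
  have h1 : ∀ q : ℕ, ∑ i ∈ range (D * q), y (i + 1) = ((q : ℝ) * D) • M y D := fun q => by
    induction q with
    | zero => simp
    | succ q ih =>
      rw [Nat.mul_succ, Finset.sum_range_add, ih]
      simp only [add_assoc, hper]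
      rw [Nat.cast_succ, add_mul, add_smul, one_mul]
      congr 1
      rw [M_nat, smul_smul, mul_inv_cancel₀ hD0.ne', one_smul, sum_Ioc_eq_range]
  have hP : ‖M y D‖ ≤ C := norm_M_le hC0 fun n _ _ => hC n
  obtain ⟨q, r, hr, hqr⟩ : ∃ q r, r < D ∧ ⌊x⌋₊ = D * q + r :=
    ⟨_, _, Nat.mod_lt _ hD, (Nat.div_add_mod _ _).symm⟩
  have h2 : M y x - M y D =
      x⁻¹ • (∑ i ∈ range r, y (D * q + i + 1) - (x - q * D) • M y D) := by
    conv_lhs => rw [M, sum_Ioc_eq_range, hqr, Finset.sum_range_add, h1]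
    rw [smul_sub, smul_add, smul_smul, smul_smul, mul_sub, inv_mul_cancel₀ hx.ne', sub_smul,
      one_smul]
    abel
  have h3 : (⌊x⌋₊ : ℝ) = D * q + r := by rw [hqr]; push_cast; ring
  have h4 := Nat.floor_le hx.le
  have h5 := Nat.lt_floor_add_one x
  have h6 : (r : ℝ) ≤ D := by exact_mod_cast hr.le
  have h7 : (0 : ℝ) ≤ r := by positivity
  rw [h2, norm_smul, Real.norm_of_nonneg (by positivity), inv_mul_eq_div]
  refine div_le_div_of_nonneg_right ((norm_sub_le _ _).trans ?_) hx.le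
  have h8 : ‖∑ i ∈ range r, y (D * q + i + 1)‖ ≤ r * C := by
    refine (norm_sum_le_of_le _ fun i _ => hC _).trans ?_
    rw [Finset.sum_const, Finset.card_range, nsmul_eq_mul]
  have h9 : ‖(x - q * D) • M y D‖ ≤ (D + 1) * C := by
    rw [norm_smul, Real.norm_of_nonneg (by linarith)]
    exact mul_le_mul (by linarith) hP (norm_nonneg _) (by linarith)
  nlinarith

lemma tendsto_M_periodic {y : ℕ → E} {D : ℕ} (hD : 0 < D) (hy : ∀ n, y (n + D) = y n) {C : ℝ}
    (hC : ∀ n, ‖y n‖ ≤ C) : Tendsto (M y) atTop (𝓝 (M y D)) := by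
  rw [tendsto_iff_norm_sub_tendsto_zero]
  refine squeeze_zero' (Eventually.of_forall fun _ => norm_nonneg _) ?_
    (tendsto_id.const_div_atTop (C * (2 * D + 1)))
  filter_upwards [eventually_gt_atTop 0] with x hx
  exact M_periodic hD hy hC hx

lemma M_modEq {D : ℕ} (hD : 0 < D) (r : ℕ) : M (fun n => ind (n ≡ r [MOD D])) D = (D : ℝ)⁻¹ := by
  classical
  rw [M_nat, smul_eq_mul]
  suffices h : ∑ n ∈ Ioc 0 D, ind (n ≡ r [MOD D]) = 1 by rw [h, mul_one]
  have h0 : (r + (D - 1)) % D < D := Nat.mod_lt _ hD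
  have h1 : (r + (D - 1)) % D + 1 ≡ r [MOD D] := by
    have h2 : (r + (D - 1)) % D + 1 ≡ r + (D - 1) + 1 [MOD D] := (Nat.mod_modEq _ _).add_right 1
    have h3 : r + (D - 1) + 1 = r + D := by omega
    rw [h3] at h2
    exact h2.trans (by simp [Nat.ModEq])
  rw [Finset.sum_eq_single ((r + (D - 1)) % D + 1), ind_pos h1]
  · intro n hn hne
    refine ind_neg fun h => hne ?_
    rw [Finset.mem_Ioc] at hn
    obtain ⟨m, rfl⟩ : ∃ m, n = m + 1 := ⟨n - 1, by omega⟩
    have h4 := Nat.ModEq.add_right_cancel' 1 (h.trans h1.symm)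
    rw [Nat.ModEq.eq_of_lt_of_lt h4 (by omega) h0]
  · intro h
    exact absurd (Finset.mem_Ioc.2 ⟨by omega, by omega⟩) h

lemma tendsto_M_modEq {D : ℕ} (hD : 0 < D) (r : ℕ) :
    Tendsto (M fun n => ind (n ≡ r [MOD D])) atTop (𝓝 (D : ℝ)⁻¹) := by
  rw [← M_modEq hD r]
  exact tendsto_M_periodic hD (fun n => ind_congr (by simp [Nat.ModEq])) fun n => abs_ind_le _

end Pool.Agent.MP_57adf2_an.H72
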