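import Pool.Agent.MP_57adf2_an.H72.Conc

/-! Convergence in `L²` of the four-term averages. -/

namespace Pool.Agent.MP_57adf2_an.H72

open Finset Filter Topology MeasureTheory
open scoped ENNReal

universe u

variable {Ω : Type u} [MeasurableSpace Ω] {μ : Measure Ω} [IsProbabilityMeasure μ]

lemma MM_mk {b : ℕ → ℕ → LA μ} {φ : ℕ → ℕ → Ω → ℝ}
    (h : ∀ m n, 0 < m → 0 < n → ∃ f : BM μ, b m n = mk f ∧ f.1 = φ m n) (N : ℕ) :
    ∃ g : BM μ, MM b N = mk g ∧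
      ∀ x, g.1 x = 1 / (N : ℝ) ^ 2 * ∑ m ∈ Icc 1 N, ∑ n ∈ Icc 1 N, φ m n x := by
  choose! f h1 h2 using h
  refine ⟨(N : ℝ)⁻¹ • ∑ m ∈ Ioc 0 N, (N : ℝ)⁻¹ • ∑ n ∈ Ioc 0 N, f m n, ?_, fun x => ?_⟩
  · rw [MM_congr h1]
    simp only [MM, M_nat, map_smul, map_sum]
    rfl
  · have e : Icc 1 N = Ioc 0 N := rfl
    simp only [← Finset.smul_sum, smul_smul, SetLike.val_smul, AddSubmonoidClass.coe_finsetSum,
      Pi.smul_apply, Finset.sum_apply, smul_eq_mul, e]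
    congr 1
    · ring
    · exact Finset.sum_congr rfl fun m hm => Finset.sum_congr rfl fun n hn => by
        rw [← h2 m n (Finset.mem_Ioc.1 hm).1 (Finset.mem_Ioc.1 hn).1]

theorem cauchy_Q1 {Γ : Type*} [CommGroup Γ] (t : MF Γ) (X : Act Γ (LA μ)) (F1 F2 F3 F4 : LA μ) :
    CauchySeq fun N : ℕ => MM (fun m n => X.S (t.τ (m * n)) F4 * X.S (t.τ (m + n)) F3 *
      X.S (t.τ m) F1 * X.S (t.τ n) F2) N := by
  obtain ⟨c1, b1, h1, rfl⟩ := exists_bd F1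
  obtain ⟨c2, b2, h2, rfl⟩ := exists_bd F2
  obtain ⟨c3, b3, h3, rfl⟩ := exists_bd F3
  obtain ⟨c4, b4, h4, rfl⟩ := exists_bd F4
  simp only [map_smul, smul_mul_smul_comm, MM_smul]
  refine (uniformContinuous_const_smul _).comp_cauchySeq (Metric.cauchySeq_iff.2 fun ε hε => ?_)
  obtain ⟨Y, hY⟩ := t.abstract_Q1 X h1 h2 h3 h4 (by positivity : 0 < ε / 3)
  obtain ⟨N, hN⟩ := eventually_atTop.1 hY
  refine ⟨N, fun m hm n hn => ?_⟩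
  have h5 := hN n hn
  rw [norm_sub_rev] at h5
  have := (norm_sub_le_norm_sub_add_norm_sub _ _ _).trans (add_le_add (hN m hm) h5)
  rw [dist_eq_norm]
  linarith

/-- The four-term averages. -/
noncomputable def SN {𝕜 : Type} [Field 𝕜] (T : ℕ → Ω → Ω) (F1 F2 F3 F4 : Ω → 𝕜) (N : ℕ) (x : Ω) :
    𝕜 :=
  1 / (N : 𝕜) ^ 2 * ∑ m ∈ Icc 1 N, ∑ n ∈ Icc 1 N,
    F4 (T (m * n) x) * F3 (T (m + n) x) * F1 (T m x) * F2 (T n x)

/-- Convergence in `L²`. -/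
def Cvg (μ : Measure Ω) (s : ℕ → Ω → ℂ) : Prop :=
  ∃ (u : ℕ → Lp ℂ 2 μ) (G : Lp ℂ 2 μ), (∀ N, u N =ᵐ[μ] s N) ∧ Tendsto u atTop (𝓝 G)

omit [IsProbabilityMeasure μ] in
lemma cplx_ind {L : (Ω → ℂ) → ℕ → Ω → ℂ}
    (hL : ∀ f g N x, L (fun x => f x + Complex.I * g x) N x = L f N x + Complex.I * L g N x)
    (h : ∀ f : Ω → ℝ, MemLp f ∞ μ → Cvg μ (L fun x => f x)) {F : Ω → ℂ} (hF : MemLp F ∞ μ) :
    Cvg μ (L F) := by
  obtain ⟨u, G, h1, h2⟩ := h _ hF.re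
  obtain ⟨u', G', h3, h4⟩ := h _ hF.im
  refine ⟨fun N => u N + Complex.I • u' N, G + Complex.I • G', fun N => ?_,
    h2.add (h4.const_smul _)⟩
  filter_upwards [Lp.coeFn_add (u N) (Complex.I • u' N), Lp.coeFn_smul Complex.I (u' N), h1 N, h3 N]
    with x h5 h6 h7 h8
  rw [h5, Pi.add_apply, h6, Pi.smul_apply, h7, h8, smul_eq_mul, ← hL]
  congr 1
  ext y
  rw [mul_comm]
  exact Complex.re_add_im _

theorem cvg_Q1 {Γ : Type*} [CommGroup Γ] (t : MF Γ) (X : Act Γ (LA μ)) (T : ℕ → Ω → Ω)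
    (hT : ∀ n, 0 < n → MeasurePreserving (T n) μ μ)
    (h : ∀ n (h : 0 < n) f, X.S (t.τ n) (mk f) = mk (cmp (hT n h) f))
    {F1 F2 F3 F4 : Ω → ℂ} (h1 : MemLp F1 ∞ μ) (h2 : MemLp F2 ∞ μ) (h3 : MemLp F3 ∞ μ)
    (h4 : MemLp F4 ∞ μ) : Cvg μ (SN T F1 F2 F3 F4) := by
  refine cplx_ind (L := fun F => SN T F F2 F3 F4) (fun f g N x => ?_) (fun f1 h1 => ?_) h1
  · simp only [SN, Finset.mul_sum, ← Finset.sum_add_distrib]
    exact Finset.sum_congr rfl fun m _ => Finset.sum_congr rfl fun n _ => by ring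
  refine cplx_ind (L := fun F => SN T _ F F3 F4) (fun f g N x => ?_) (fun f2 h2 => ?_) h2
  · simp only [SN, Finset.mul_sum, ← Finset.sum_add_distrib]
    exact Finset.sum_congr rfl fun m _ => Finset.sum_congr rfl fun n _ => by ring
  refine cplx_ind (L := fun F => SN T _ _ F F4) (fun f g N x => ?_) (fun f3 h3 => ?_) h3
  · simp only [SN, Finset.mul_sum, ← Finset.sum_add_distrib]
    exact Finset.sum_congr rfl fun m _ => Finset.sum_congr rfl fun n _ => by ring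
  refine cplx_ind (L := fun F => SN T _ _ _ F) (fun f g N x => ?_) (fun f4 h4 => ?_) h4
  · simp only [SN, Finset.mul_sum, ← Finset.sum_add_distrib]
    exact Finset.sum_congr rfl fun m _ => Finset.sum_congr rfl fun n _ => by ring
  obtain ⟨G, hG⟩ := cauchySeq_tendsto_of_complete (isometry_toL2.uniformContinuous.comp_cauchySeq
    (cauchy_Q1 t X (mk ⟨f1, h1⟩) (mk ⟨f2, h2⟩) (mk ⟨f3, h3⟩) (mk ⟨f4, h4⟩)))
  refine ⟨_, _, fun N => ?_, ((Complex.ofRealCLM.compLpL 2 μ).continuous.tendsto G).comp hG⟩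
  obtain ⟨g, h5, h6⟩ := MM_mk (b := fun m n => X.S (t.τ (m * n)) (mk ⟨f4, h4⟩) *
    X.S (t.τ (m + n)) (mk ⟨f3, h3⟩) * X.S (t.τ m) (mk ⟨f1, h1⟩) * X.S (t.τ n) (mk ⟨f2, h2⟩))
    (φ := fun m n x => f4 (T (m * n) x) * f3 (T (m + n) x) * f1 (T m x) * f2 (T n x))
    (fun m n hm hn => ⟨_, by
      rw [h _ (Nat.mul_pos hm hn), h _ (Nat.add_pos_left hm n), h _ hm, h _ hn, ← map_mul,
        ← map_mul, ← map_mul], rfl⟩) N
  simp only [Function.comp_apply, h5]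
  filter_upwards [Complex.ofRealCLM.coeFn_compLpL (toL2 (mk g)), toL2_mk g] with x h7 h8
  rw [h7, h8, h6, SN]
  simp

omit [IsProbabilityMeasure μ] in
lemma mp_inv {T S : Ω → Ω} (hT : MeasurePreserving T μ μ) (hS : Measurable S)
    (h : S ∘ T =ᵐ[μ] id) : MeasurePreserving S μ μ :=
  ⟨hS, by
    conv_lhs => rw [← hT.map_eq]
    rw [Measure.map_map hS hT.measurable, Measure.map_congr h, Measure.map_id]⟩

theorem final_Q1 (T : ℕ → Ω → Ω) (hT : ∀ n, 0 < n → MeasurePreserving (T n) μ μ)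
    (hinv : ∀ n, 0 < n → ∃ S, Measurable S ∧ S ∘ T n =ᵐ[μ] id ∧ T n ∘ S =ᵐ[μ] id)
    (hmul : ∀ m n, 0 < m → 0 < n → T (m * n) =ᵐ[μ] T m ∘ T n)
    (hfin : ∃ s : Finset (Ω → Ω), ∀ p : ℕ, p.Prime → ∃ S ∈ s, T p =ᵐ[μ] S)
    {F1 F2 F3 F4 : Ω → ℂ} (h1 : MemLp F1 ∞ μ) (h2 : MemLp F2 ∞ μ) (h3 : MemLp F3 ∞ μ)
    (h4 : MemLp F4 ∞ μ) : ∃ G : Ω → ℂ, MemLp G 2 μ ∧
      Tendsto (fun N => eLpNorm (fun x => SN T F1 F2 F3 F4 N x - G x) 2 μ) atTop (𝓝 0) := by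
  obtain ⟨Γ, _, t, X, h⟩ := exists_act' T hT (fun n hn => by
    obtain ⟨S, h1, h2, h3⟩ := hinv n hn
    exact ⟨S, mp_inv (hT n hn) h1 h2, h2, h3⟩) hmul hfin
  obtain ⟨u, G, h5, h6⟩ := cvg_Q1 t X T hT h h1 h2 h3 h4
  refine ⟨G, Lp.memLp G, ((Lp.tendsto_Lp_iff_tendsto_eLpNorm' u G).1 h6).congr fun N => ?_⟩
  refine eLpNorm_congr_ae ?_
  filter_upwards [h5 N] with x hx
  rw [Pi.sub_apply, hx]

end Pool.Agent.MP_57adf2_an.H72
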