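import Pool.Agent.MP_57adf2_an.H72.FinQ1
import Pool.Agent.MP_57adf2_an.H72.AbsQ2

/-! Positivity of the multiple recurrence averages. -/

namespace Pool.Agent.MP_57adf2_an.H72

open Finset Filter Topology MeasureTheory
open scoped ENNReal

universe u

variable {Ω : Type u} [MeasurableSpace Ω] {μ : Measure Ω} [IsProbabilityMeasure μ]

/-- Classes of nonnegative functions. -/
def Pn (a : LA μ) : Prop := ∃ b, a = b * b

lemma pn_mk {f : BM μ} : Pn (mk f) ↔ ∀ᵐ x ∂μ, 0 ≤ f.1 x := by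
  constructor
  · rintro ⟨b, hb⟩
    obtain ⟨g, rfl⟩ := mk_surj b
    rw [← map_mul, mk_eq] at hb
    filter_upwards [hb] with x hx
    rw [hx]
    exact mul_self_nonneg (g.1 x)
  · intro h
    have h1 : MemLp (fun x => √(f.1 x)) ∞ μ := by
      refine MemLp.mono' (g := fun x => ‖f.1 x‖ + 1) (f.2.norm.add (memLp_top_const 1))
        (Real.continuous_sqrt.comp_aestronglyMeasurable f.2.1) ?_
      filter_upwards [h] with x hx
      rw [Real.norm_of_nonneg (Real.sqrt_nonneg _), Real.norm_of_nonneg hx]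
      exact Real.sqrt_le_iff.2 ⟨by positivity, by nlinarith⟩
    refine ⟨mk ⟨_, h1⟩, ?_⟩
    rw [← map_mul, mk_eq]
    filter_upwards [h] with x hx
    exact (Real.mul_self_sqrt hx).symm

/-- The cone of nonnegative classes. -/
noncomputable def cone {Γ : Type*} [CommGroup Γ] (X : Act Γ (LA μ)) : Cone X where
  P := Pn
  add {a b} ha hb := by
    obtain ⟨f, rfl⟩ := mk_surj a
    obtain ⟨g, rfl⟩ := mk_surj b
    rw [← map_add]
    rw [pn_mk] at ha hb ⊢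
    filter_upwards [ha, hb] with x h1 h2
    exact add_nonneg h1 h2
  mul := by
    rintro _ _ ⟨a, rfl⟩ ⟨b, rfl⟩
    exact ⟨a * b, by ring⟩
  smul := by
    rintro c _ hc ⟨a, rfl⟩
    exact ⟨√c • a, by rw [smul_mul_smul_comm, Real.mul_self_sqrt hc]⟩
  sq f := ⟨f, rfl⟩
  map := by
    rintro g _ ⟨a, rfl⟩
    exact ⟨_, map_mul _ _ _⟩
  I_nonneg := by
    rintro _ ⟨a, rfl⟩
    exact I_sq_nonneg a
  complete u hu hc := by
    obtain ⟨G, hG⟩ := cauchySeq_tendsto_of_complete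
      (isometry_toL2.uniformContinuous.comp_cauchySeq hc)
    obtain ⟨ns, -, h1⟩ := (tendstoInMeasure_of_tendsto_Lp hG).exists_seq_tendsto_ae
    have h2 : ∀ n, ∀ᵐ x ∂μ, toL2 (u n) x ∈ Set.Icc (0 : ℝ) 1 := fun n => by
      have h3 := hu n
      obtain ⟨f, hf⟩ := mk_surj (u n)
      rw [← hf] at h3 ⊢
      rw [← map_one (mk (μ := μ)), ← map_sub, pn_mk, pn_mk] at h3
      filter_upwards [h3.1, h3.2, toL2_mk f] with x h4 h5 h6
      rw [h6]
      exact ⟨h4, sub_nonneg.1 h5⟩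
    have h3 : ∀ᵐ x ∂μ, G x ∈ Set.Icc (0 : ℝ) 1 := by
      filter_upwards [h1, ae_all_iff.2 h2] with x h4 h5
      exact isClosed_Icc.mem_of_tendsto h4 (Eventually.of_forall fun n => h5 _)
    have h4 : MemLp G ∞ μ := memLp_top_of_bound (Lp.aestronglyMeasurable G) 1 (by
      filter_upwards [h3] with x hx
      rw [Real.norm_of_nonneg hx.1]; exact hx.2)
    refine ⟨mk ⟨G, h4⟩, pn_mk.2 (h3.mono fun x hx => hx.1), ?_, ?_⟩
    · rw [← map_one (mk (μ := μ)), ← map_sub]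
      exact pn_mk.2 (h3.mono fun x hx => sub_nonneg.2 hx.2)
    · rw [isometry_toL2.tendsto_nhds_iff]
      rwa [show toL2 (mk ⟨G, h4⟩) = G from Lp.ext (toL2_mk _)]

theorem final_Q2 (T : ℕ → Ω → Ω) (hT : ∀ n, 0 < n → MeasurePreserving (T n) μ μ)
    (hinv : ∀ n, 0 < n → ∃ S, Measurable S ∧ S ∘ T n =ᵐ[μ] id ∧ T n ∘ S =ᵐ[μ] id)
    (hmul : ∀ m n, 0 < m → 0 < n → T (m * n) =ᵐ[μ] T m ∘ T n)
    (hfin : ∃ s : Finset (Ω → Ω), ∀ p : ℕ, p.Prime → ∃ S ∈ s, T p =ᵐ[μ] S)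
    {A : Set Ω} (hA : MeasurableSet A) (h0 : 0 < μ A) : ∃ l : ℝ, 0 < l ∧
      Tendsto (fun N : ℕ => 1 / (N : ℝ) ^ 2 * ∑ m ∈ Icc 1 N, ∑ n ∈ Icc 1 N,
        μ.real (A ∩ T (m * n) ⁻¹' A ∩ T (m + n) ⁻¹' A ∩ T m ⁻¹' A ∩ T n ⁻¹' A)) atTop (𝓝 l) := by
  obtain ⟨Γ, _, t, X, h⟩ := exists_act' T hT (fun n hn => by
    obtain ⟨S, h1, h2, h3⟩ := hinv n hn
    exact ⟨S, mp_inv (hT n hn) h1 h2, h2, h3⟩) hmul hfin
  let f : BM μ := ⟨A.indicator 1, (memLp_top_const 1).indicator hA⟩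
  have hU : (cone X).U (mk f) := by
    refine ⟨pn_mk.2 (Eventually.of_forall (Set.indicator_nonneg fun _ _ => zero_le_one)), ?_⟩
    rw [← map_one (mk (μ := μ)), ← map_sub]
    exact pn_mk.2 (Eventually.of_forall fun x => sub_nonneg.2
      (Set.indicator_le_self' (fun _ _ => zero_le_one) x))
  have hI : 0 < I (mk f) := by
    rw [I_mk]
    change 0 < ∫ x, A.indicator 1 x ∂μ
    rw [integral_indicator_one hA]
    exact ENNReal.toReal_pos h0.ne' (measure_ne_top _ _)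
  obtain ⟨c, hc, h1⟩ := t.abstract_Q2 X (cone X) hU hI
  have h2 : UniformContinuous fun a : LA μ => I (mk f * a) :=
    (innerSL ℝ (mk f)).uniformContinuous
  obtain ⟨l, hl⟩ := cauchySeq_tendsto_of_complete
    (h2.comp_cauchySeq (cauchy_Q1 t X (mk f) (mk f) (mk f) (mk f)))
  have h3 : Tendsto (fun N : ℕ => MM (fun m n => I (mk f * (X.S (t.τ (m * n)) (mk f) *
      X.S (t.τ (m + n)) (mk f) * X.S (t.τ m) (mk f) * X.S (t.τ n) (mk f)))) N) atTop (𝓝 l) :=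
    hl.congr fun N => (MM_map (I ∘ₗ LinearMap.mulLeft ℝ (mk f)) _ _).symm
  refine ⟨l, hc.trans_le (ge_of_tendsto h3 h1), h3.congr fun N => ?_⟩
  rw [MM_congr (b := fun m n =>
    μ.real (A ∩ T (m * n) ⁻¹' A ∩ T (m + n) ⁻¹' A ∩ T m ⁻¹' A ∩ T n ⁻¹' A)) fun m n hm hn => ?_]
  · have e : Icc 1 N = Ioc 0 N := rfl
    simp only [MM, M_nat, smul_eq_mul, ← Finset.mul_sum, e]
    ring
  · rw [h _ (Nat.mul_pos hm hn), h _ (Nat.add_pos_left hm n), h _ hm, h _ hn, ← map_mul,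
      ← map_mul, ← map_mul, ← map_mul, I_mk, ← integral_indicator_one
      ((((hA.inter ((hT _ (Nat.mul_pos hm hn)).measurable hA)).inter
        ((hT _ (Nat.add_pos_left hm n)).measurable hA)).inter ((hT _ hm).measurable hA)).inter
        ((hT _ hn).measurable hA))]
    congr 1
    ext x
    simp only [Set.inter_indicator_one, Pi.mul_apply, mul_assoc]
    rfl

end Pool.Agent.MP_57adf2_an.H72
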