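import Pool.Agent.MP_57adf2_an.H72.Scale
import Pool.Agent.MP_57adf2_an.H72.Div

/-! The groups of asymptotic invariances of a finitely generated multiplicative map. -/

namespace Pool.Agent.MP_57adf2_an.H72

open Finset Filter Topology

/-- A finitely generated completely multiplicative map into a commutative group. -/
structure MF (Γ : Type*) [CommGroup Γ] where
  τ : ℕ → Γ
  mul : ∀ m n, 0 < m → 0 < n → τ (m * n) = τ m * τ n
  fin : (τ '' {p | p.Prime}).Finite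

namespace MF

variable {Γ : Type*} [CommGroup Γ] (t : MF Γ)

lemma one : t.τ 1 = 1 := by
  have := t.mul 1 1 one_pos one_pos
  rw [mul_one] at this
  exact left_eq_mul.1 this

/-- The class of `n` for the modulus `Q`. -/
def cls (Q n : ℕ) : Prop × Γ × ZMod Q := (n = 0, t.τ n, (n : ZMod Q))

lemma cls_mul (Q a b c : ℕ) (h : t.cls Q a = t.cls Q b) : t.cls Q (c * a) = t.cls Q (c * b) := by
  simp only [cls, Prod.mk.injEq, eq_iff_iff] at h
  obtain ⟨h1, h2, h3⟩ := h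
  rcases Nat.eq_zero_or_pos c with rfl | hc
  · simp
  rcases Nat.eq_zero_or_pos a with rfl | ha
  · rw [h1.1 rfl]
  have hb : 0 < b := Nat.pos_of_ne_zero fun h => ha.ne' (h1.2 h)
  simp [cls, t.mul _ _ hc ha, t.mul _ _ hc hb, h2, h3, ha.ne', hb.ne']

lemma cls_fin {Q : ℕ} (hQ : Q ≠ 0) : (t.cls Q '' {p | p.Prime}).Finite := by
  have : NeZero Q := ⟨hQ⟩
  refine (Set.finite_univ.prod (t.fin.prod Set.finite_univ)).subset ?_
  rintro _ ⟨p, hp, rfl⟩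
  exact ⟨trivial, ⟨p, hp, rfl⟩, trivial⟩

/-- The primes with given image and residue. -/
def cl (Q : ℕ) (γ : Γ) (c : ZMod Q) : Set ℕ := {p | t.τ p = γ ∧ (p : ZMod Q) = c}

/-- Divergent classes. -/
def Dv (Q : ℕ) : Set (Γ × (ZMod Q)ˣ) := {g | ¬ Cv (t.cl Q g.1 g.2)}

/-- The group generated by the divergent classes. -/
def R (Q : ℕ) : Subgroup (Γ × (ZMod Q)ˣ) := Subgroup.closure (t.Dv Q)

/-- The part of `R` that fixes residues. -/
def H (Q : ℕ) : Subgroup Γ := (t.R Q).comap (MonoidHom.inl Γ (ZMod Q)ˣ)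

lemma mem_H {Q : ℕ} {γ : Γ} : γ ∈ t.H Q ↔ (γ, 1) ∈ t.R Q := Iff.rfl

lemma exists_prime_of_not_cv {s : Set ℕ} (h : ¬ Cv s) : ∃ q, q.Prime ∧ q ∈ s := by
  by_contra hc
  push Not at hc
  exact h (Cv.of_le 0 fun p hp hs => absurd hs (hc p hp))

lemma unit_of_not_cv {Q : ℕ} (hQ : Q ≠ 0) {γ : Γ} {c : ZMod Q} (h : ¬ Cv (t.cl Q γ c)) :
    ∃ u : (ZMod Q)ˣ, (u : ZMod Q) = c ∧ (γ, u) ∈ t.Dv Q := by
  have : IsUnit c := by
    by_contra hc
    refine h (Cv.of_le Q fun p hp hs => Nat.le_of_dvd (Nat.pos_of_ne_zero hQ) ?_)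
    by_contra hd
    exact hc (hs.2 ▸ (ZMod.isUnit_iff_coprime p Q).2 (hp.coprime_iff_not_dvd.2 hd))
  obtain ⟨u, rfl⟩ := this
  exact ⟨u, rfl, h⟩

lemma exists_class {Q : ℕ} (hQ : Q ≠ 0) {s : Set ℕ} (h : ¬ Cv s) :
    ∃ q, q.Prime ∧ q ∈ s ∧ ¬ Cv (t.cl Q (t.τ q) q) := by
  have : NeZero Q := ⟨hQ⟩
  by_contra hc
  push Not at hc
  refine h (Cv.cover {g : Γ × ZMod Q | ∃ q, q.Prime ∧ q ∈ s ∧ g = (t.τ q, (q : ZMod Q))}
    ((t.fin.prod Set.finite_univ).subset ?_) (fun g => t.cl Q g.1 g.2) ?_ ?_)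
  · rintro _ ⟨q, hq, -, rfl⟩
    exact ⟨⟨q, hq, rfl⟩, trivial⟩
  · rintro _ ⟨q, hq, hs, rfl⟩
    exact hc q hq hs
  · exact fun p hp hs => ⟨_, ⟨p, hp, hs, rfl⟩, rfl, rfl⟩

lemma exists_finset_cls {Q q : ℕ} (hq : q.Prime) (h : ¬ Cv (t.cl Q (t.τ q) q)) (L : ℝ) :
    ∃ B : Finset ℕ, (∀ p ∈ B, p.Prime ∧ t.cls Q p = t.cls Q q) ∧ L ≤ ∑ p ∈ B, (p : ℝ)⁻¹ := by
  obtain ⟨B, hB, hL⟩ := exists_finset_of_not_cv h L
  refine ⟨B, fun p hp => ⟨(hB p hp).1, ?_⟩, hL⟩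
  simp [cls, (hB p hp).2.1, (hB p hp).2.2, hq.ne_zero, (hB p hp).1.ne_zero]

variable {E : Type*} [SeminormedAddCommGroup E] [NormedSpace ℝ E]

theorem shift_inv {Q : ℕ} (hQ : Q ≠ 0) {g : Γ × (ZMod Q)ˣ} (hg : g ∈ t.R Q) :
    ∀ κ > 0, ∀ᶠ x : ℝ in atTop, ∀ φ : Γ → ZMod Q → E, (∀ u c, ‖φ u c‖ ≤ 1) →
      ‖M (fun n => φ (t.τ n) n) x - M (fun n => φ (g.1 * t.τ n) (g.2 * n)) x‖ ≤ κ := by
  induction hg using Subgroup.closure_induction with
  | mem g hg =>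
    intro κ hκ
    obtain ⟨q, hq, h1, h2⟩ := exists_prime_of_not_cv hg
    have hg' : ¬ Cv (t.cl Q (t.τ q) q) := by rw [h1, h2]; exact hg
    filter_upwards [shift_prime (E := E) (t.cls_mul Q) (t.cls_fin hQ)
      (t.exists_finset_cls hq hg') hκ] with x hx φ hφ
    have := hx (fun n => φ (t.τ n) n) ⟨fun n => hφ _ _, fun m n h => by
      simp only [cls, Prod.mk.injEq] at h
      simp only [h.2.1, h.2.2]⟩
    rwa [M_congr (a := fun n => φ (t.τ (q * n)) ((q * n : ℕ) : ZMod Q))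
      (b := fun n => φ (g.1 * t.τ n) (g.2 * n))
      (fun n hn _ => by rw [t.mul _ _ hq.pos hn, h1, Nat.cast_mul, h2])] at this
  | one => exact fun κ hκ => Eventually.of_forall fun x φ _ => by simpa using hκ.le
  | mul g h _ _ ihg ihh =>
    intro κ hκ
    filter_upwards [ihg (κ / 2) (by positivity), ihh (κ / 2) (by positivity)] with x h1 h2 φ hφ
    have h3 := h2 (fun u c => φ (g.1 * u) (g.2 * c)) fun u c => hφ _ _
    have h4 := (norm_sub_le_norm_sub_add_norm_sub _ _ _).trans (add_le_add (h1 φ hφ) h3)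
    simpa only [add_halves, Prod.fst_mul, Prod.snd_mul, Units.val_mul, mul_assoc] using h4
  | inv g _ ih =>
    intro κ hκ
    filter_upwards [ih κ hκ] with x h1 φ hφ
    have h3 := h1 (fun u c => φ (g⁻¹.1 * u) (g⁻¹.2 * c)) fun u c => hφ _ _
    rw [norm_sub_rev]
    simpa only [Prod.fst_inv, Prod.snd_inv, inv_mul_cancel_left, Units.inv_mul_cancel_left]
      using h3

/-- Bad primes. -/
def Bad (Q : ℕ) : Set ℕ := {p | ¬ ∃ u : (ZMod Q)ˣ, (u : ZMod Q) = p ∧ (t.τ p, u) ∈ t.R Q}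

lemma cv_bad {Q : ℕ} (hQ : Q ≠ 0) : Cv (t.Bad Q) := by
  by_contra h
  obtain ⟨q, -, hq, hc⟩ := t.exists_class hQ h
  obtain ⟨u, hu, hD⟩ := t.unit_of_not_cv hQ hc
  exact hq ⟨u, hu, Subgroup.subset_closure hD⟩

lemma good {Q n : ℕ} (hn : 0 < n) (h : ∀ p, p.Prime → p ∣ n → p ∉ t.Bad Q) :
    ∃ u : (ZMod Q)ˣ, (u : ZMod Q) = n ∧ (t.τ n, u) ∈ t.R Q := by
  induction n using induction_on_primes with
  | zero => exact absurd hn (lt_irrefl 0)
  | one => exact ⟨1, by simp, by rw [t.one]; exact one_mem _⟩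
  | prime_mul p a hp ih =>
    have ha : 0 < a := Nat.pos_of_mul_pos_left hn
    obtain ⟨u, hu, hR⟩ := ih ha fun q hq hd => h q hq (hd.mul_left p)
    obtain ⟨v, hv, hR'⟩ := not_not.1 (h p hp (dvd_mul_right p a))
    refine ⟨v * u, by rw [Units.val_mul, hu, hv, Nat.cast_mul], ?_⟩
    rw [t.mul _ _ hp.pos ha]
    exact mul_mem hR' hR

lemma R_map {Q1 Q : ℕ} (h : Q1 ∣ Q) {g : Γ × (ZMod Q)ˣ} (hg : g ∈ t.R Q) :
    (g.1, Units.map (ZMod.castHom h (ZMod Q1)).toMonoidHom g.2) ∈ t.R Q1 := by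
  have : t.R Q ≤ (t.R Q1).comap ((MonoidHom.id Γ).prodMap
      (Units.map (ZMod.castHom h (ZMod Q1)).toMonoidHom)) := by
    refine (Subgroup.closure_le _).2 fun g hg => Subgroup.subset_closure fun hc => hg ?_
    refine hc.mono fun p _ hp => ⟨hp.1, ?_⟩
    change (p : ZMod Q1) = ZMod.castHom h (ZMod Q1) g.2
    rw [← hp.2, map_natCast]
  exact this hg

lemma H_anti {Q1 Q : ℕ} (h : Q1 ∣ Q) : t.H Q ≤ t.H Q1 := fun γ hγ => by
  have := t.R_map h hγ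
  simpa [mem_H] using this

lemma R_lift {Q : ℕ} (hQ : Q ≠ 0) (Q1 : ℕ) {g : Γ × (ZMod Q1)ˣ} (hg : g ∈ t.R Q1) :
    ∃ u : (ZMod Q)ˣ, (g.1, u) ∈ t.R Q := by
  have : t.R Q1 ≤ ((t.R Q).map (MonoidHom.fst _ _)).comap (MonoidHom.fst _ _) := by
    refine (Subgroup.closure_le _).2 fun g hg => ?_
    obtain ⟨q, -, hq, hc⟩ := t.exists_class hQ hg
    obtain ⟨u, -, hD⟩ := t.unit_of_not_cv hQ hc
    exact ⟨(t.τ q, u), Subgroup.subset_closure hD, hq.1⟩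
  obtain ⟨g', h1, h2⟩ := this hg
  exact ⟨g'.2, by rw [← show g'.1 = g.1 from h2]; exact h1⟩

lemma exists_rep {Q : ℕ} (hQ : Q ≠ 0) (u : (ZMod Q)ˣ) :
    ∃ q, q.Prime ∧ (t.τ q, u) ∈ t.R Q := by
  have : NeZero Q := ⟨hQ⟩
  obtain ⟨q, hq, h1, hc⟩ := t.exists_class hQ (not_cv_residue u.isUnit)
  obtain ⟨v, hv, hD⟩ := t.unit_of_not_cv hQ hc
  have : v = u := Units.ext (hv.trans h1)
  exact ⟨q, hq, Subgroup.subset_closure (this ▸ hD)⟩

/-- The groups `H Q` stabilise. -/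
theorem stab : ∃ Q1, Q1 ≠ 0 ∧ ∀ Q, Q ≠ 0 → Q1 ∣ Q → t.H Q1 ≤ t.H Q := by
  classical
  let e : ℕ → Finset Γ := fun Q => t.fin.toFinset.filter (· ∈ t.H Q)
  have hex : ∃ k, ∃ Q, Q ≠ 0 ∧ (e Q).card = k := ⟨_, 1, one_ne_zero, rfl⟩
  obtain ⟨Q1, hQ1, hk⟩ := Nat.find_spec hex
  refine ⟨Q1, hQ1, fun Q hQ hd γ hγ => ?_⟩
  have h1 : e Q = e Q1 := by
    refine Finset.eq_of_subset_of_card_le (fun x hx => ?_) ?_
    · simp only [e, Finset.mem_filter] at hx ⊢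
      exact ⟨hx.1, t.H_anti hd hx.2⟩
    · rw [hk]; exact Nat.find_min' hex ⟨Q, hQ, rfl⟩
  obtain ⟨u, hu⟩ := t.R_lift hQ Q1 hγ
  obtain ⟨q, hq, hR⟩ := t.exists_rep hQ u
  have h2 : γ * (t.τ q)⁻¹ ∈ t.H Q := by
    have := mul_mem hu (inv_mem hR)
    simpa [mem_H] using this
  have h3 : t.τ q ∈ t.H Q1 := by
    have := mul_mem (inv_mem (t.H_anti hd h2)) hγ
    simpa using this
  have h4 : t.τ q ∈ e Q := by
    rw [h1]
    simp only [e, Finset.mem_filter, Set.Finite.mem_toFinset]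
    exact ⟨⟨q, hq, rfl⟩, h3⟩
  have := mul_mem h2 (Finset.mem_filter.1 h4).2
  simpa using this

/-- Outside a small set, the coset of `τ m` modulo `H Q` is a periodic function of `m`. -/
theorem periodic_rep {Q : ℕ} (hQ : Q ≠ 0) {ε : ℝ} (hε : 0 < ε) :
    ∃ D, 0 < D ∧ Q ∣ D ∧ ∃ (rep : ℕ → Γ) (Ex : ℕ → Prop), (∀ x, M (fun n => ind (Ex n)) x ≤ ε) ∧
      ∀ m, 0 < m → ¬ Ex m → ∃ h ∈ t.H Q, t.τ m = rep (m % D) * h := by
  classical
  let s : Set ℕ := {p | p.Prime} ∩ t.Bad Q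
  let f : ℕ → ℕ → ℕ := fun K p => p ^ (K.factorial.factorization p + 1)
  have hle : ∀ K p, s.indicator (fun p => (f K p : ℝ)⁻¹) p ≤ rc (t.Bad Q) p := fun K p => by
    refine Set.indicator_le_indicator' fun hp => ?_
    have h0 : (0 : ℝ) < p := by exact_mod_cast hp.1.pos
    refine inv_anti₀ h0 ?_
    exact_mod_cast Nat.le_self_pow (Nat.succ_ne_zero _) p
  have h0 : ∀ K p, 0 ≤ s.indicator (fun p => (f K p : ℝ)⁻¹) p := fun K p =>
    Set.indicator_nonneg (fun _ _ => by positivity) p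
  have h1 : Tendsto (fun K => ∑' p, s.indicator (fun p => (f K p : ℝ)⁻¹) p) atTop
      (𝓝 (∑' _ : ℕ, (0 : ℝ))) := by
    refine tendsto_tsum_of_dominated_convergence (t.cv_bad hQ) (fun p => ?_)
      (Eventually.of_forall fun K p => by rw [Real.norm_of_nonneg (h0 K p)]; exact hle K p)
    by_cases hp : p ∈ s
    · simp only [Set.indicator_of_mem hp]
      refine tendsto_inv_atTop_zero.comp (tendsto_natCast_atTop_atTop.comp ?_)
      refine tendsto_atTop_atTop.2 fun b => ⟨p ^ b, fun K hK => ?_⟩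
      have h2 : p ^ b ∣ K.factorial := Nat.dvd_factorial (pow_pos hp.1.pos b) hK
      have h3 := (hp.1.pow_dvd_iff_le_factorization (Nat.factorial_ne_zero K)).1 h2
      exact (Nat.lt_pow_self hp.1.one_lt).le.trans' (by omega)
    · simp only [Set.indicator_of_notMem hp]; exact tendsto_const_nhds
  rw [tsum_zero] at h1
  obtain ⟨K, hK⟩ := (h1.eventually_le_const hε).exists
  let c : ZMod Q → Γ := fun z =>
    if h : ∃ g : Γ × (ZMod Q)ˣ, g ∈ t.R Q ∧ (g.2 : ZMod Q) = z then h.choose.1 else 1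
  refine ⟨K.factorial * Q, Nat.mul_pos K.factorial_pos (Nat.pos_of_ne_zero hQ), dvd_mul_left _ _,
    fun m => t.τ (Nat.gcd m K.factorial) * c ((m / Nat.gcd m K.factorial : ℕ) : ZMod Q),
    fun n => ∃ p ∈ s, f K p ∣ n, fun x => le_trans (M_exists_dvd_le s (f K) (fun p hp =>
      ⟨pow_pos hp.1.pos _, dvd_pow_self p (Nat.succ_ne_zero _)⟩)
      (Summable.of_nonneg_of_le (h0 K) (hle K) (t.cv_bad hQ)) x) hK, fun m hm hEx => ?_⟩
  have hg : Nat.gcd (m % (K.factorial * Q)) K.factorial = Nat.gcd m K.factorial :=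
    Nat.ModEq.gcd_eq ((Nat.mod_modEq m _).of_mul_right Q)
  simp only [hg]
  obtain ⟨d, hd⟩ : ∃ d, d = Nat.gcd m K.factorial := ⟨_, rfl⟩
  rw [← hd]
  have hd0 : 0 < d := hd ▸ Nat.gcd_pos_of_pos_left _ hm
  obtain ⟨m1, hm1⟩ : d ∣ m := hd ▸ Nat.gcd_dvd_left _ _
  obtain ⟨k1, hk1⟩ : d ∣ K.factorial := hd ▸ Nat.gcd_dvd_right _ _
  have hm10 : 0 < m1 := Nat.pos_of_mul_pos_left (hm1 ▸ hm)
  have hc : ((m % (K.factorial * Q) / d : ℕ) : ZMod Q) = m1 := by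
    rw [hm1, hk1, mul_assoc, Nat.mul_mod_mul_left, Nat.mul_div_cancel_left _ hd0,
      ZMod.natCast_eq_natCast_iff]
    exact (Nat.mod_modEq m1 _).of_mul_left k1
  rw [hc]
  obtain ⟨u, hu, hR⟩ := t.good (Q := Q) hm10 fun p hp hpd hb => hEx ⟨p, ⟨hp, hb⟩, by
    have h2 : ¬ p ∣ k1 := fun h3 => by
      have h4 : d * p ∣ d := by
        conv_rhs => rw [hd]
        exact Nat.dvd_gcd (hm1 ▸ Nat.mul_dvd_mul_left d hpd) (hk1 ▸ Nat.mul_dvd_mul_left d h3)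
      have h5 := Nat.le_of_dvd hd0 h4
      have h6 := hp.two_le
      nlinarith
    have h3 : p ^ K.factorial.factorization p ∣ d * k1 := hk1 ▸ Nat.ordProj_dvd _ _
    have h4 := Nat.Coprime.dvd_of_dvd_mul_right
      (Nat.Coprime.pow_left _ (hp.coprime_iff_not_dvd.2 h2)) h3
    rw [hm1]
    exact Nat.mul_dvd_mul h4 hpd⟩
  have hex : ∃ g : Γ × (ZMod Q)ˣ, g ∈ t.R Q ∧ (g.2 : ZMod Q) = m1 := ⟨_, hR, hu⟩
  have hc2 : c m1 = hex.choose.1 := dif_pos hex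
  have h2 : hex.choose.2 = u := Units.ext (hex.choose_spec.2.trans hu.symm)
  refine ⟨(c m1)⁻¹ * t.τ m1, ?_, ?_⟩
  · have := mul_mem (inv_mem hex.choose_spec.1) hR
    rw [mem_H, hc2]
    convert this using 1
    ext <;> simp [h2]
  · conv_lhs => rw [hm1, t.mul _ _ hd0 hm10]
    group

/-- On a suitable progression, `τ k` lies in `H Q1` for most `k`. -/
theorem mostly_in_H {Q1 : ℕ} (hQ : Q1 ≠ 0) {ε : ℝ} (hε : 0 < ε) :
    ∃ Q2, Q2 ≠ 0 ∧ Q1 ∣ Q2 ∧ ∀ᶠ x : ℝ in atTop,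
      M (fun k => ind (k ≡ 1 [MOD Q2] ∧ t.τ k ∉ t.H Q1)) x ≤ ε / Q2 := by
  classical
  have hcv := t.cv_bad hQ
  have hsub : ∀ y : ℕ, ({p | p.Prime ∧ p ∈ t.Bad Q1 ∧ y < p} : Set ℕ) ⊆
      {p | p.Prime} ∩ t.Bad Q1 := fun y q hq => ⟨hq.1, hq.2.1⟩
  have htail : ∀ η > 0, ∃ y : ℕ, ∑' p, ({p | p.Prime ∧ p ∈ t.Bad Q1 ∧ y < p} : Set ℕ).indicator
      (fun p => ((p : ℕ) : ℝ)⁻¹) p ≤ η := fun η hη => by
    have h1 : Tendsto (fun y : ℕ => ∑' p, ({p | p.Prime ∧ p ∈ t.Bad Q1 ∧ y < p} : Set ℕ).indicator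
        (fun p => ((p : ℕ) : ℝ)⁻¹) p) atTop (𝓝 (∑' _ : ℕ, (0 : ℝ))) := by
      refine tendsto_tsum_of_dominated_convergence hcv (fun p => ?_)
        (Eventually.of_forall fun y p => ?_)
      · refine tendsto_const_nhds.congr' ?_
        filter_upwards [eventually_ge_atTop p] with y hy
        exact (Set.indicator_of_notMem (fun h => absurd h.2.2 (not_lt.2 hy)) _).symm
      · rw [Real.norm_of_nonneg (Set.indicator_nonneg (fun _ _ => by positivity) p)]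
        exact Set.indicator_le_indicator_of_subset (hsub y) (fun _ => by positivity) p
    rw [tsum_zero] at h1
    exact (h1.eventually_le_const hη).exists
  have hsum : ∀ y : ℕ, Summable (({p | p.Prime ∧ p ∈ t.Bad Q1 ∧ y < p} : Set ℕ).indicator
      fun p => ((p : ℕ) : ℝ)⁻¹) := fun y =>
    Summable.of_nonneg_of_le (Set.indicator_nonneg fun _ _ => by positivity)
      (Set.indicator_le_indicator_of_subset (hsub y) fun _ => by positivity) hcv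
  obtain ⟨y, hy⟩ := htail (ε / 3) (by positivity)
  obtain ⟨Q2, hQ2⟩ : ∃ Q2, Q2 = Q1 * y.factorial := ⟨_, rfl⟩
  have hQ20 : Q2 ≠ 0 := hQ2 ▸ mul_ne_zero hQ y.factorial_ne_zero
  have hQ2r : (0 : ℝ) < Q2 := by exact_mod_cast Nat.pos_of_ne_zero hQ20
  have hd : Q1 ∣ Q2 := hQ2 ▸ dvd_mul_right _ _
  obtain ⟨y', hy'⟩ := htail (ε / Q2 / 3) (by positivity)
  refine ⟨Q2, hQ20, hd, ?_⟩
  set B := (range (y' + 1)).filter fun p => p.Prime ∧ p ∈ t.Bad Q1 ∧ y < p ∧ p.Coprime Q2 with hB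
  let r : ℕ → ℕ := fun p => if h : p.Coprime Q2 then (Nat.chineseRemainder h 0 1 : ℕ) else 0
  have h1 : Tendsto (fun x => ∑ p ∈ B, M (fun n => ind (n ≡ r p [MOD p * Q2])) x) atTop
      (𝓝 (∑ p ∈ B, ((p * Q2 : ℕ) : ℝ)⁻¹)) :=
    tendsto_finsetSum _ fun p hp => tendsto_M_modEq
      (Nat.mul_pos (Finset.mem_filter.1 hp).2.1.pos (Nat.pos_of_ne_zero hQ20)) _
  have h2 : ∑ p ∈ B, ((p * Q2 : ℕ) : ℝ)⁻¹ < 2 * (ε / Q2 / 3) := by
    have h3 : ∑ p ∈ B, (p : ℝ)⁻¹ ≤ ε / 3 := by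
      refine le_trans (le_trans (le_of_eq ?_) ((hsum y).sum_le_tsum B fun p _ =>
        Set.indicator_nonneg (fun _ _ => by positivity) p)) hy
      refine Finset.sum_congr rfl fun p hp => ?_
      have := (Finset.mem_filter.1 hp).2
      rw [Set.indicator_of_mem (show p ∈ ({p | p.Prime ∧ p ∈ t.Bad Q1 ∧ y < p} : Set ℕ) from
        ⟨this.1, this.2.1, this.2.2.1⟩)]
    simp only [Nat.cast_mul, mul_inv, ← Finset.sum_mul]
    have h4 := mul_le_mul_of_nonneg_right h3 (inv_nonneg.2 hQ2r.le)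
    have h5 : ε / 3 * (Q2 : ℝ)⁻¹ = ε / Q2 / 3 := by ring
    have h6 : 0 < ε / Q2 / 3 := by positivity
    linarith
  filter_upwards [h1.eventually_lt_const h2] with x hx
  have h3 := (M_exists_dvd_le {p | p.Prime ∧ p ∈ t.Bad Q1 ∧ y' < p} (fun p => p)
    (fun p hp => ⟨hp.1.pos, dvd_rfl⟩) (hsum y') x).trans hy'
  rw [← M_sum] at hx
  refine le_trans (M_mono (b := fun n => (∑ p ∈ B, ind (n ≡ r p [MOD p * Q2])) +
    ind (∃ p ∈ ({p | p.Prime ∧ p ∈ t.Bad Q1 ∧ y' < p} : Set ℕ), p ∣ n)) fun k hk _ => ?_) ?_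
  · have h4 : 0 ≤ ∑ p ∈ B, ind (k ≡ r p [MOD p * Q2]) := Finset.sum_nonneg fun _ _ => ind_nonneg _
    by_cases h : k ≡ 1 [MOD Q2] ∧ t.τ k ∉ t.H Q1
    swap
    · rw [ind_neg h]; exact add_nonneg h4 (ind_nonneg _)
    rw [ind_pos h]
    obtain ⟨p, hp, hpk, hb⟩ : ∃ p, p.Prime ∧ p ∣ k ∧ p ∈ t.Bad Q1 := by
      by_contra hc
      push Not at hc
      obtain ⟨u, hu, hR⟩ := t.good hk hc
      have : u = 1 := Units.ext (by
        rw [hu, Units.val_one, ← Nat.cast_one, ZMod.natCast_eq_natCast_iff]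
        exact h.1.of_dvd hd)
      rw [this] at hR
      exact h.2 hR
    rcases lt_or_ge y' p with h5 | h5
    · rw [ind_pos ⟨p, ⟨hp, hb, h5⟩, hpk⟩]; linarith
    have hnd : ¬ p ∣ Q2 := fun h6 =>
      hp.one_lt.ne' (Nat.dvd_one.1 (((h.1.of_dvd h6).dvd_iff dvd_rfl).1 hpk))
    have hco : p.Coprime Q2 := hp.coprime_iff_not_dvd.2 hnd
    have hyp : y < p := by
      by_contra h6
      exact hnd (hQ2 ▸ (Nat.dvd_factorial hp.pos (not_lt.1 h6)).mul_left _)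
    have hpB : p ∈ B := Finset.mem_filter.2 ⟨Finset.mem_range.2 (by omega), hp, hb, hyp, hco⟩
    have h6 : k ≡ r p [MOD p * Q2] := by
      simp only [r, dif_pos hco]
      exact (Nat.modEq_and_modEq_iff_modEq_mul hco).1
        ⟨(Nat.modEq_zero_iff_dvd.2 hpk).trans (Nat.chineseRemainder hco 0 1).2.1.symm,
          h.1.trans (Nat.chineseRemainder hco 0 1).2.2.symm⟩
    have h7 := Finset.single_le_sum (f := fun p => ind (k ≡ r p [MOD p * Q2]))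
      (fun _ _ => ind_nonneg _) hpB
    rw [ind_pos h6] at h7
    exact h7.trans (le_add_of_nonneg_right (ind_nonneg _))
  · rw [M_add]; linarith

end MF

end Pool.Agent.MP_57adf2_an.H72
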