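import Pool.Agent.MP_57adf2_an.H72.Conv

/-! The orthogonality criterion that removes everything but the term at `m + n`. -/

namespace Pool.Agent.MP_57adf2_an.H72

open Finset Filter Topology

variable {A : Type*} [L2Alg A]

lemma sum_AP_eq (D : ℕ → A) {d : ℕ} (hd : 0 < d) (l b : ℕ) :
    ∑ j ∈ range b, D (l + 1 + d * j) =
      ∑ k ∈ Ioc 0 (l + d * b), ind (k ≡ l + 1 [MOD d]) • D k -
        ∑ k ∈ Ioc 0 l, ind (k ≡ l + 1 [MOD d]) • D k := by
  induction b with
  | zero => simp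
  | succ b ih =>
    rw [Finset.sum_range_succ, ih, ← Finset.sum_Ioc_consecutive _ (Nat.zero_le (l + d * b))
      (by rw [Nat.mul_succ]; omega : l + d * b ≤ l + d * (b + 1)),
      Finset.sum_eq_single (s := Ioc (l + d * b) (l + d * (b + 1))) (l + 1 + d * b),
      ind_pos (by simp [Nat.ModEq]), one_smul]
    · abel
    · intro k hk hne
      rw [ind_neg, zero_smul]
      intro h
      rw [Finset.mem_Ioc, Nat.mul_succ] at hk
      obtain ⟨i, rfl⟩ : ∃ i, k = l + 1 + d * b + i := ⟨k - (l + 1 + d * b), by omega⟩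
      have h1 : l + 1 + i ≡ l + 1 + 0 [MOD d] := by
        refine Nat.ModEq.trans ?_ h
        simp [Nat.ModEq, add_right_comm _ (d * b) i]
      have h2 := Nat.ModEq.eq_of_lt_of_lt (Nat.ModEq.add_left_cancel' _ h1) (by omega) hd
      omega
    · intro h
      exact absurd (Finset.mem_Ioc.2 (by rw [Nat.mul_succ]; omega)) h

lemma AP_bound {D : ℕ → A} (hD : ∀ k, ‖D k‖ ≤ 1) {K : ℕ} {κ : ℝ} (hκ : 0 < κ)
    (hAP : ∀ d, 0 < d → d ≤ K → ∀ r, ∀ᶠ y : ℕ in atTop,
      ‖M (fun k => ind (k ≡ r [MOD d]) • D k) y‖ ≤ κ) :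
    ∀ᶠ N : ℕ in atTop, ∀ d, 0 < d → d ≤ K → ∀ l b, 0 < l → l + d * b ≤ 3 * N →
      ‖∑ j ∈ range b, D (l + d * j)‖ ≤ 7 * κ * N := by
  have h1 : ∀ᶠ y : ℕ in atTop, ∀ z ∈ Ioc 0 K ×ˢ range K,
      ‖M (fun k => ind (k ≡ z.2 [MOD z.1]) • D k) y‖ ≤ κ :=
    (Filter.eventually_all_finset _).2 fun z hz => by
      have := Finset.mem_Ioc.1 (Finset.mem_product.1 hz).1
      exact hAP z.1 this.1 this.2 z.2
  obtain ⟨y0, hy0⟩ := eventually_atTop.1 (h1.and (eventually_gt_atTop 0))
  have h2 : ∀ d, 0 < d → d ≤ K → ∀ r y : ℕ,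
      ‖∑ k ∈ Ioc 0 y, ind (k ≡ r [MOD d]) • D k‖ ≤ κ * y + y0 := by
    intro d hd hdK r y
    rcases le_total y0 y with h | h
    · have h3 := (hy0 y h).1 (d, r % d) (by
        simp only [Finset.mem_product, Finset.mem_Ioc, Finset.mem_range]
        exact ⟨⟨hd, hdK⟩, (Nat.mod_lt _ hd).trans_le hdK⟩)
      have hy : (0 : ℝ) < y := by exact_mod_cast (hy0 y h).2
      have e : ∀ k, ind (k ≡ r % d [MOD d]) = ind (k ≡ r [MOD d]) := fun k =>
        ind_congr (by simp [Nat.ModEq])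
      simp only [e] at h3
      rw [M_nat, norm_smul, Real.norm_of_nonneg (by positivity), inv_mul_le_iff₀ hy] at h3
      have : (0 : ℝ) ≤ y0 := by positivity
      linarith
    · refine (norm_sum_le_of_le _ (n := fun _ => 1) fun k _ => ?_).trans ?_
      · rw [norm_smul]
        exact mul_le_one₀ (abs_ind_le _) (norm_nonneg _) (hD k)
      · have h3 : (y : ℝ) ≤ y0 := by exact_mod_cast h
        have : 0 ≤ κ * y := by positivity
        simp only [Finset.sum_const, Nat.card_Ioc, tsub_zero, nsmul_eq_mul, mul_one]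
        linarith
  filter_upwards [tendsto_natCast_atTop_atTop.eventually (eventually_ge_atTop (2 * y0 / κ : ℝ))]
    with N hN d hd hdK l b hl hlb
  obtain ⟨l, rfl⟩ : ∃ l', l = l' + 1 := ⟨l - 1, by omega⟩
  rw [sum_AP_eq D hd]
  refine (norm_sub_le _ _).trans ((add_le_add (h2 d hd hdK _ _) (h2 d hd hdK _ _)).trans ?_)
  have h3 : ((l + d * b : ℕ) : ℝ) ≤ 3 * N := by exact_mod_cast (by omega : l + d * b ≤ 3 * N)
  have h4 : (l : ℝ) ≤ 3 * N := by exact_mod_cast (by omega : l ≤ 3 * N)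
  rw [div_le_iff₀ hκ] at hN
  nlinarith

lemma off_diag {D : ℕ → A} (hD : ∀ k, ‖D k‖ ≤ 1) {N p q : ℕ} {c : ℝ} (hc : 0 ≤ c) (hN : 0 < N)
    (hqp : q < p) (hpN : p ≤ N)
    (h : ∀ l b, 0 < l → l + (p - q) * b ≤ 3 * N →
      ‖∑ j ∈ range b, D (l + (p - q) * j)‖ ≤ c * N) :
    MM (fun m n => ind (p * m ≤ N) * I (D (p * m + n) * D (q * m + n))) N ≤ 2 * c := by
  classical
  obtain ⟨d, rfl⟩ : ∃ d, p = q + d := ⟨p - q, by omega⟩
  rw [Nat.add_sub_cancel_left] at h
  have hN0 : (0 : ℝ) < N := by exact_mod_cast hN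
  have h1 : ∀ m, ∑ n ∈ Ioc 0 N, ind ((q + d) * m ≤ N) * I (D ((q + d) * m + n) * D (q * m + n)) =
      ∑ l ∈ Ioc 0 (2 * N), if (q + d) * m ≤ N ∧ q * m < l ∧ l ≤ q * m + N then
        I (D (l + d * m) * D l) else 0 := by
    intro m
    by_cases hm : (q + d) * m ≤ N
    · rw [ind_pos hm]
      simp only [one_mul, hm, true_and]
      rw [← Finset.sum_filter]
      rw [add_mul] at hm
      refine Finset.sum_bij (fun n _ => q * m + n) ?_ ?_ ?_ ?_
      · intro n hn
        simp only [Finset.mem_Ioc, Finset.mem_filter] at hn ⊢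
        omega
      · intro a _ b _ hab; omega
      · intro l hl
        simp only [Finset.mem_Ioc, Finset.mem_filter] at hl
        exact ⟨l - q * m, Finset.mem_Ioc.2 (by omega), by omega⟩
      · intro n _
        rw [add_mul, add_right_comm]
    · rw [ind_neg hm]
      simp [hm]
  simp only [MM, M_nat, smul_eq_mul, h1, ← Finset.mul_sum]
  rw [Finset.sum_comm, inv_mul_le_iff₀ hN0, inv_mul_le_iff₀ hN0]
  refine (Finset.sum_le_card_nsmul _ _ (c * N) fun l hl => ?_).trans (le_of_eq ?_)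
  · rw [← Finset.sum_filter, ← map_sum, ← Finset.sum_mul]
    refine (le_abs_self _).trans ((abs_I_mul_le _ _).trans
      ((mul_le_of_le_one_right (norm_nonneg _) (hD l)).trans ?_))
    set T := (Ioc 0 N).filter fun m => (q + d) * m ≤ N ∧ q * m < l ∧ l ≤ q * m + N with hT
    rcases T.eq_empty_or_nonempty with h0 | h0
    · rw [h0, Finset.sum_empty, norm_zero]; positivity
    have ha := T.min'_mem h0
    have hb := T.max'_mem h0
    have hab := T.min'_le _ hb
    have e : T = Ico (T.min' h0) (T.max' h0 + 1) := by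
      ext m
      rw [Finset.mem_Ico, Nat.lt_succ_iff]
      refine ⟨fun hm => ⟨T.min'_le m hm, T.le_max' m hm⟩, fun hm => ?_⟩
      generalize T.min' h0 = a at *
      generalize T.max' h0 = b at *
      simp only [hT, Finset.mem_filter, Finset.mem_Ioc] at ha hb ⊢
      have := Nat.mul_le_mul_left (q + d) hm.2
      have := Nat.mul_le_mul_left q hm.2
      have := Nat.mul_le_mul_left q hm.1
      omega
    generalize T.min' h0 = a at *
    generalize T.max' h0 = b at *
    rw [e, Finset.sum_Ico_eq_sum_range]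
    simp only [mul_add, ← add_assoc]
    refine h _ _ (by have := (Finset.mem_Ioc.1 hl).1; omega) ?_
    simp only [hT, Finset.mem_filter, Finset.mem_Ioc] at hb
    rw [add_assoc, ← mul_add, Nat.add_sub_cancel' (by omega), mul_add, mul_one]
    have := hb.2.1
    rw [add_mul] at this
    omega
  · simp only [Nat.card_Ioc, tsub_zero, nsmul_eq_mul]
    push_cast; ring

lemma M_dilate' {E : Type*} [SeminormedAddCommGroup E] [NormedSpace ℝ E] (a : ℕ → E) {N p : ℕ}
    (hN : 0 < N) (hp : 0 < p) :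
    (p : ℝ)⁻¹ • M a ((N : ℝ) / p) = M (fun m => ind (p * m ≤ N) • a m) N := by
  classical
  have hp0 : (0 : ℝ) < p := by exact_mod_cast hp
  have hN0 : (0 : ℝ) < N := by exact_mod_cast hN
  rw [M_nat, M, Nat.floor_div_natCast, Nat.floor_natCast, smul_smul]
  congr 1
  · field_simp
  · rw [← Finset.sum_Ioc_consecutive _ (Nat.zero_le (N / p)) (Nat.div_le_self N p)]
    rw [Finset.sum_eq_zero (s := Ioc (N / p) N), add_zero]
    · refine Finset.sum_congr rfl fun m hm => ?_
      rw [ind_pos, one_smul]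
      rw [mul_comm]
      exact (Nat.le_div_iff_mul_le hp).1 (Finset.mem_Ioc.1 hm).2
    · intro m hm
      rw [ind_neg, zero_smul]
      rw [mul_comm, ← Nat.le_div_iff_mul_le hp]
      exact not_le.2 (Finset.mem_Ioc.1 hm).1

theorem katai {η : ℝ} (hη : 0 < η) (B : Finset ℕ) (hB : ∀ p ∈ B, p.Prime)
    (hL : 2 / η ^ 2 ≤ ∑ p ∈ B, (p : ℝ)⁻¹) {K : ℕ} (hK : ∀ p ∈ B, p ≤ K) :
    ∃ κ > 0, ∀ D : ℕ → A, (∀ k, ‖D k‖ ≤ 1) →
      (∀ d, 0 < d → d ≤ K → ∀ r, ∀ᶠ y : ℕ in atTop,
        ‖M (fun k => ind (k ≡ r [MOD d]) • D k) y‖ ≤ κ) →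
      ∀ᶠ N : ℕ in atTop, ∀ W : ℕ → ℕ → A, (∀ m n, Bd (W m n)) →
        (∀ p ∈ B, ∀ q ∈ B, ∀ m n, 0 < m → W (p * m) n = W (q * m) n) →
        ‖MM (fun m n => W m n * D (m + n)) N‖ ≤ 4 * η := by
  classical
  obtain ⟨L, hLdef⟩ : ∃ L, L = ∑ p ∈ B, (p : ℝ)⁻¹ := ⟨_, rfl⟩
  have hL0 : 0 < L := hLdef ▸ lt_of_lt_of_le (by positivity) hL
  have hne : B.Nonempty := by
    by_contra h
    rw [Finset.not_nonempty_iff_eq_empty] at h
    rw [h, Finset.sum_empty] at hLdef
    exact hL0.ne' hLdef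
  obtain ⟨p0, hp0⟩ := hne
  have hc : (0 : ℝ) < B.card := by exact_mod_cast Finset.card_pos.2 ⟨p0, hp0⟩
  obtain ⟨κ, hκ⟩ : ∃ κ, κ = L / (14 * B.card * B.card) := ⟨_, rfl⟩
  have hκ0 : 0 < κ := by rw [hκ]; positivity
  refine ⟨κ, hκ0, fun D hD hAP => ?_⟩
  filter_upwards [AP_bound hD hκ0 hAP, tendsto_natCast_atTop_atTop.eventually
    (TK (E := A) hη B hB hL), eventually_gt_atTop 0, eventually_ge_atTop K]
    with N h1 h2 hN hKN W hW hWB
  have h3 := h2 (fun m => M (fun n => W m n * D (m + n)) N) fun m =>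
    norm_M_le zero_le_one fun n _ _ => (hW m n _).trans (hD _)
  rw [← hLdef] at h3 hL
  let V : ℕ → ℕ → A := fun m n => ∑ p ∈ B, ind (p * m ≤ N) • D (p * m + n)
  have h4 : L⁻¹ • ∑ p ∈ B, (p : ℝ)⁻¹ •
      M (fun m => M (fun n => W (p * m) n * D (p * m + n)) N) ((N : ℝ) / p) =
      MM (fun m n => W (p0 * m) n * (L⁻¹ • V m n)) N := by
    rw [Finset.sum_congr rfl fun p hp => M_dilate' _ hN (hB p hp).pos]
    simp only [← M_smul, ← M_sum]
    refine MM_congr fun m n hm _ => ?_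
    simp only [V, mul_smul_comm, Finset.mul_sum]
    congr 1
    exact Finset.sum_congr rfl fun p hp => by rw [hWB p hp p0 hp0 m n hm]
  have h5 : MM (fun m n => ‖V m n‖ ^ 2) N ≤ 2 * L := by
    have e : ∀ m n, ‖V m n‖ ^ 2 = ∑ p ∈ B, ∑ q ∈ B,
        ind (p * m ≤ N) * (ind (q * m ≤ N) * I (D (p * m + n) * D (q * m + n))) := fun m n => by
      simp only [L2Alg.norm_sq, V, Finset.sum_mul_sum, map_sum, smul_mul_smul_comm, map_smul,
        smul_eq_mul, mul_assoc]
    simp only [e, MM_sum]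
    have h6 : ∀ p ∈ B, ∀ q ∈ B, q < p → MM (fun m n =>
        ind (p * m ≤ N) * (ind (q * m ≤ N) * I (D (p * m + n) * D (q * m + n)))) N ≤
        2 * (7 * κ) := fun p hp q hq hqp => by
      refine le_trans (le_of_eq (MM_congr fun m n _ _ => ?_))
        (off_diag hD (by positivity) hN hqp ((hK p hp).trans hKN)
          (h1 (p - q) (by omega) (by have := hK p hp; omega)))
      by_cases hm : p * m ≤ N
      · rw [ind_pos ((Nat.mul_le_mul_right m hqp.le).trans hm), one_mul]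
      · rw [ind_neg hm, zero_mul, zero_mul]
    calc _ ≤ ∑ p ∈ B, ∑ q ∈ B, ((if q = p then (p : ℝ)⁻¹ else 0) + 2 * (7 * κ)) := by
          refine Finset.sum_le_sum fun p hp => Finset.sum_le_sum fun q hq => ?_
          rcases lt_trichotomy q p with h | h | h
          · rw [if_neg h.ne, zero_add]; exact h6 p hp q hq h
          · subst h
            rw [if_pos rfl]
            refine le_trans ?_ (le_add_of_nonneg_right (by positivity))
            refine le_trans (M_mono (b := fun m => ind (q * m ≤ N) • (1 : ℝ)) fun m _ _ => ?_) ?_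
            · rw [smul_eq_mul, mul_one]
              refine M_le (ind_nonneg _) fun n _ _ => mul_le_of_le_one_right (ind_nonneg _)
                (mul_le_one₀ (ind_le_one _) (I_sq_nonneg _) ?_)
              rw [← L2Alg.norm_sq]
              exact (sq_le_one_iff₀ (norm_nonneg _)).2 (hD _)
            · rw [← M_dilate' _ hN (hB q hq).pos, smul_eq_mul]
              exact mul_le_of_le_one_right (by positivity) (M_const_le zero_le_one _)
          · rw [if_neg h.ne', zero_add]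
            refine le_trans (le_of_eq (MM_congr fun m n _ _ => ?_)) (h6 q hq p hp h)
            rw [mul_left_comm, mul_comm (D _)]
      _ = 2 * L := by
          simp only [Finset.sum_add_distrib, Finset.sum_ite_eq', Finset.sum_const, nsmul_eq_mul]
          rw [Finset.sum_congr rfl fun p hp => if_pos hp, ← hLdef, hκ]
          field_simp; norm_num
  have h6 : ‖MM (fun m n => W (p0 * m) n * (L⁻¹ • V m n)) N‖ ≤ 2 * η := by
    refine (norm_MM_le_of_le (b := fun m n => η + (η⁻¹ * L⁻¹ ^ 2) • ‖V m n‖ ^ 2)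
      fun m n _ _ => (hW _ _ _).trans ((Act.norm_le_add_sq hη _).trans (le_of_eq ?_))).trans ?_
    · rw [norm_smul, Real.norm_of_nonneg (by positivity), smul_eq_mul]; ring
    · rw [MM_add, MM_smul, smul_eq_mul]
      have h7 := MM_const_le hη.le (N : ℝ)
      have h8 := mul_le_mul_of_nonneg_left h5 (by positivity : 0 ≤ η⁻¹ * L⁻¹ ^ 2)
      have h9 : η⁻¹ * L⁻¹ ^ 2 * (2 * L) ≤ η := by
        rw [div_le_iff₀ (by positivity)] at hL
        have : η⁻¹ * L⁻¹ ^ 2 * (2 * L) = 2 / (η * L) := by field_simp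
        rw [this, div_le_iff₀ (by positivity)]
        linarith
      linarith
  rw [h4] at h3
  have := norm_le_norm_sub_add (MM (fun m n => W m n * D (m + n)) N)
    (MM (fun m n => W (p0 * m) n * (L⁻¹ • V m n)) N)
  rw [MM] at this ⊢
  linarith

end Pool.Agent.MP_57adf2_an.H72
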