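import Mathlib

/-! Matched pairs of primes with a common class and nearly equal size. -/

namespace Pool.Agent.MP_57adf2_an.H72

open Finset Filter Topology

lemma short_interval {z h : ℕ} (hz : 1 ≤ z) (hh : h ≤ z) (S : Finset ℕ)
    (hS : ∀ p ∈ S, p.Prime ∧ z < p ∧ p ≤ z + h) {A : ℝ} (hA : 1 ≤ A) :
    S.card * Real.log z ≤ 6 * z / A + h * Real.log A := by
  have hz0 : (0 : ℝ) < z := by exact_mod_cast hz
  have hA0 : 0 < A := by linarith
  rcases Nat.eq_zero_or_pos h with rfl | hh0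
  · have : S = ∅ := by
      ext p
      simp only [Finset.notMem_empty, iff_false]
      intro hp
      have := hS p hp
      omega
    subst this
    simp only [Finset.card_empty, Nat.cast_zero, zero_mul, add_zero]
    positivity
  have hh1 : (0 : ℝ) < h := by exact_mod_cast hh0
  have h1 : ∏ p ∈ S, p ∣ (z + h).choose z :=
    Finset.prod_primes_dvd _ (fun p hp => (hS p hp).1.prime) fun p hp =>
      (hS p hp).1.dvd_choose_add (hS p hp).2.1 (lt_of_le_of_lt hh (hS p hp).2.1) (hS p hp).2.2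
  have h2 : z ^ S.card ≤ (z + h).choose h := by
    rw [← Nat.choose_symm_add]
    refine le_trans ?_ (Nat.le_of_dvd (Nat.choose_pos (Nat.le_add_right _ _)) h1)
    exact Finset.pow_card_le_prod _ _ _ fun p hp => (hS p hp).2.1.le
  have h3 : ((z + h).choose h : ℝ) ≤ (((z + h : ℕ) : ℝ) / h * Real.exp 1) ^ h := by
    refine (Nat.choose_le_pow_div h (z + h)).trans ?_
    have h4 := Real.pow_div_factorial_le_exp (h : ℝ) hh1.le h
    rw [mul_pow, ← Real.exp_nat_mul, mul_one, div_pow]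
    calc (((z + h : ℕ) : ℝ)) ^ h / (h.factorial : ℝ)
        = ((z + h : ℕ) : ℝ) ^ h / (h : ℝ) ^ h * ((h : ℝ) ^ h / h.factorial) := by field_simp
      _ ≤ _ := mul_le_mul_of_nonneg_left h4 (by positivity)
  have h4 : (z : ℝ) ^ S.card ≤ (((z + h : ℕ) : ℝ) / h * Real.exp 1) ^ h :=
    le_trans (by exact_mod_cast h2) h3
  have h5 := Real.log_le_log (by positivity) h4
  rw [Real.log_pow, Real.log_pow] at h5
  refine h5.trans ?_
  have h6 : Real.log (((z + h : ℕ) : ℝ) / h * Real.exp 1) ≤ 6 * z / (A * h) + Real.log A := by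
    have h7 : ((z + h : ℕ) : ℝ) / h * Real.exp 1 ≤ 6 * z / h := by
      have := Real.exp_one_lt_d9
      have h8 : (h : ℝ) ≤ z := by exact_mod_cast hh
      rw [div_mul_eq_mul_div]
      refine div_le_div_of_nonneg_right ?_ hh1.le
      push_cast
      nlinarith [Real.exp_pos 1]
    refine (Real.log_le_log (by positivity) h7).trans ?_
    have h8 := Real.log_le_sub_one_of_pos (x := 6 * z / (A * h)) (by positivity)
    have h9 : (6 * z / h : ℝ) = 6 * z / (A * h) * A := by field_simp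
    rw [h9, Real.log_mul (by positivity) hA0.ne']
    linarith
  calc (h : ℝ) * Real.log (((z + h : ℕ) : ℝ) / h * Real.exp 1)
      ≤ h * (6 * z / (A * h) + Real.log A) := mul_le_mul_of_nonneg_left h6 hh1.le
    _ = 6 * z / A + h * Real.log A := by field_simp

lemma window_count : ∀ᶠ y : ℕ in atTop,
    (y : ℝ) ≤ ((Ioc y (4 * y)).filter Nat.Prime).card * Real.log (4 * y) := by
  have h1 : (fun x : ℝ => Real.log x) =o[atTop] fun x => x ^ (1 / 2 : ℝ) :=
    isLittleO_log_rpow_atTop (by norm_num)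
  have h2 := (h1.bound (c := 1 / 100) (by norm_num))
  have h3 : Tendsto (fun y : ℕ => 4 * (y : ℝ) + 1) atTop atTop :=
    tendsto_atTop_add_const_right _ _ (tendsto_natCast_atTop_atTop.const_mul_atTop (by norm_num))
  filter_upwards [h3.eventually h2, eventually_ge_atTop 1] with y hy hy1
  have hy0 : (1 : ℝ) ≤ y := by exact_mod_cast hy1
  have h4 := Chebyshev.theta_ge (4 * y)
  have h5 := Chebyshev.theta_le_log4_mul_x (x := (y : ℝ)) (by linarith)
  have h6 : Chebyshev.theta ((4 * y : ℕ) : ℝ) - Chebyshev.theta y ≤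
      ((Ioc y (4 * y)).filter Nat.Prime).card * Real.log (4 * y) := by
    unfold Chebyshev.theta
    rw [Nat.floor_natCast, Nat.floor_natCast, Finset.sum_filter, Finset.sum_filter,
      ← Finset.sum_Ioc_consecutive _ (Nat.zero_le y) (by omega : y ≤ 4 * y), add_sub_cancel_left,
      ← Finset.sum_filter, ← nsmul_eq_mul]
    refine Finset.sum_le_card_nsmul _ _ _ fun p hp => ?_
    simp only [Finset.mem_filter, Finset.mem_Ioc] at hp
    have : (0 : ℝ) < p := by exact_mod_cast hp.2.pos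
    exact Real.log_le_log this (by exact_mod_cast hp.1.2)
  refine le_trans ?_ h6
  have hl4 : Real.log 4 = 2 * Real.log 2 := by
    rw [show (4 : ℝ) = 2 ^ 2 by norm_num, Real.log_pow]; norm_num
  have hl2 := Real.log_two_gt_d9
  set w : ℝ := 4 * (y : ℝ) + 1 with hw
  have hw1 : 1 ≤ w := by linarith
  rw [Real.norm_of_nonneg (Real.log_nonneg hw1), Real.norm_of_nonneg (by positivity),
    ← Real.sqrt_eq_rpow] at hy
  have h7 : √w * √w = w := Real.mul_self_sqrt (by linarith)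
  have h8 : 1 ≤ √w := Real.one_le_sqrt.2 hw1
  have h9 : √(4 * (y : ℝ)) ≤ √w := Real.sqrt_le_sqrt (by linarith)
  have h10 : Real.log (4 * (y : ℝ)) ≤ Real.log w := Real.log_le_log (by linarith) (by linarith)
  have h11 : 0 ≤ Real.log (4 * (y : ℝ)) := Real.log_nonneg (by linarith)
  have h12 : √(4 * (y : ℝ)) * Real.log (4 * (y : ℝ)) ≤ √w * (1 / 100 * √w) :=
    mul_le_mul h9 (h10.trans hy) h11 (by linarith)
  push_cast at h4 ⊢
  rw [← hw] at h4
  rw [hl4] at h5
  nlinarith

variable {α : Type*}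

/-- The properties of a matching of primes. -/
structure Matching (τ : ℕ → α) (δ ε : ℝ) (R : Finset (ℕ × ℕ)) : Prop where
  prime1 : ∀ x ∈ R, x.1.Prime
  prime2 : ∀ x ∈ R, x.2.Prime
  cls : ∀ x ∈ R, τ x.1 = τ x.2
  lo : ∀ x ∈ R, (1 + δ) * x.1 ≤ (x.2 : ℝ)
  hi : ∀ x ∈ R, (x.2 : ℝ) ≤ (1 + ε) * x.1
  inj1 : Set.InjOn Prod.fst (R : Set (ℕ × ℕ))
  inj2 : Set.InjOn Prod.snd (R : Set (ℕ × ℕ))

lemma numeric {D A δ y z h u : ℝ} (hD1 : 1 ≤ D) (hA : A = 300 * D)
    (hδ : δ = 1 / (300 * D * (1 + Real.log A))) (hy0 : 4 ≤ y) (hz2 : y ≤ z) (hz3 : z ≤ 4 * y)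
    (hh : h ≤ δ * z) (hu3 : y / (3 * D * Real.log (4 * y)) ≤ u)
    (h4 : u * Real.log z ≤ 6 * z / A + h * Real.log A) : False := by
  have hA1 : 1 ≤ A := by linarith
  have hlA : 0 ≤ Real.log A := Real.log_nonneg hA1
  have hl : 0 < Real.log (4 * y) := Real.log_pos (by linarith)
  have hD0 : 0 < D := by linarith
  have hy : 0 < y := by linarith
  have hz : 0 < z := by linarith
  have hu : 0 ≤ u := le_trans (by positivity) hu3
  have h5 : Real.log (4 * y) ≤ 2 * Real.log z := by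
    have : Real.log (4 * y) ≤ Real.log (z ^ 2) :=
      Real.log_le_log (by linarith) (by nlinarith)
    rwa [Real.log_pow] at this
  have h6 : y / (6 * D) ≤ u * Real.log z := by
    rw [div_le_iff₀ (by positivity)] at hu3 ⊢
    have : u * (3 * D * Real.log (4 * y)) ≤ u * (3 * D * (2 * Real.log z)) := by
      gcongr
    linarith
  have h7 : 6 * z / A ≤ y / (12 * D) := by
    rw [hA, div_le_div_iff₀ (by positivity) (by positivity)]
    nlinarith
  have h8 : h * Real.log A ≤ y / (75 * D) := by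
    have h9 : δ * Real.log A ≤ 1 / (300 * D) := by
      rw [hδ, div_mul_eq_mul_div, div_le_div_iff₀ (by positivity) (by positivity)]
      nlinarith
    calc h * Real.log A ≤ δ * z * Real.log A := mul_le_mul_of_nonneg_right hh hlA
      _ = δ * Real.log A * z := by ring
      _ ≤ 1 / (300 * D) * (4 * y) := mul_le_mul h9 hz3 hz.le (by positivity)
      _ = y / (75 * D) := by field_simp; norm_num
  have e1 : y / (12 * D) = (y / D) * (1 / 12) := by field_simp
  have e2 : y / (75 * D) = (y / D) * (1 / 75) := by field_simp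
  have e3 : y / (6 * D) = (y / D) * (1 / 6) := by field_simp
  have : 0 < y / D := by positivity
  linarith

lemma window (τ : ℕ → α) (hfin : (τ '' {p | p.Prime}).Finite) {ε : ℝ} (hε : 0 < ε) :
    ∃ δ > 0, ∃ c > 0, ∀ᶠ y : ℕ in atTop, ∃ R : Finset (ℕ × ℕ), Matching τ δ ε R ∧
      (∀ x ∈ R, y < x.1 ∧ x.2 ≤ 4 * y) ∧ c / Real.log (4 * y) ≤ ∑ x ∈ R, (x.1 : ℝ)⁻¹ := by
  classical
  obtain ⟨K, hK⟩ := exists_nat_ge (3 / ε)
  have hK0 : (0 : ℝ) < K := lt_of_lt_of_le (by positivity) hK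
  set C := hfin.toFinset with hC
  have hCne : C.Nonempty := ⟨τ 2, by simp only [hC, Set.Finite.mem_toFinset]; exact ⟨2, Nat.prime_two, rfl⟩⟩
  obtain ⟨D, hD⟩ : ∃ D : ℝ, D = (((range (K + 1) ×ˢ C).card : ℕ) : ℝ) := ⟨_, rfl⟩
  have hD1 : 1 ≤ D := by
    rw [hD]; exact_mod_cast Finset.card_pos.2 (Finset.nonempty_range_add_one.product hCne)
  obtain ⟨A, hA⟩ : ∃ A : ℝ, A = 300 * D := ⟨_, rfl⟩
  have hA1 : 1 ≤ A := by linarith
  have hlA : 0 ≤ Real.log A := Real.log_nonneg hA1
  obtain ⟨δ, hδ⟩ : ∃ δ : ℝ, δ = 1 / (300 * D * (1 + Real.log A)) := ⟨_, rfl⟩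
  have hδ0 : 0 < δ := by rw [hδ]; positivity
  have hδ1 : δ ≤ 1 := by
    rw [hδ, div_le_one (by positivity)]; nlinarith
  refine ⟨δ, hδ0, 1 / (12 * D), by positivity, ?_⟩
  have h1 : (fun x : ℝ => Real.log x) =o[atTop] fun x => x := Real.isLittleO_log_id_atTop
  have h2 := (h1.bound (c := 1 / (8 * D)) (by positivity))
  have h3 : Tendsto (fun y : ℕ => 4 * (y : ℝ)) atTop atTop :=
    tendsto_natCast_atTop_atTop.const_mul_atTop (by norm_num)
  filter_upwards [window_count, h3.eventually h2, eventually_ge_atTop 4] with y hy1 hy2 hy4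
  have hy0 : (4 : ℝ) ≤ y := by exact_mod_cast hy4
  have hl : 0 < Real.log (4 * (y : ℝ)) := Real.log_pos (by linarith)
  rw [Real.norm_of_nonneg hl.le, Real.norm_of_nonneg (by linarith)] at hy2
  obtain ⟨t, -, ht⟩ := Finset.exists_le_card_fiber_of_nsmul_le_card_of_maps_to
    (s := (Ioc y (4 * y)).filter Nat.Prime) (t := range (K + 1) ×ˢ C)
    (f := fun p => ((p - y) * K / (3 * y), τ p)) (b := (y : ℝ) / (D * Real.log (4 * y)))
    (by
      intro p hp
      simp only [Finset.mem_filter, Finset.mem_Ioc] at hp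
      rw [Finset.mem_product, Finset.mem_range]
      refine ⟨Nat.lt_succ_of_le (Nat.div_le_of_le_mul (Nat.mul_le_mul_right _ (by omega))), ?_⟩
      simp only [hC, Set.Finite.mem_toFinset]; exact ⟨p, hp.2, rfl⟩)
    (Finset.nonempty_range_add_one.product hCne)
    (by
      rw [nsmul_eq_mul, ← hD]
      have : D * ((y : ℝ) / (D * Real.log (4 * y))) = y / Real.log (4 * y) := by field_simp
      rw [this, div_le_iff₀ hl]; exact hy1)
  set S := ((Ioc y (4 * y)).filter Nat.Prime).filter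
    fun p => ((p - y) * K / (3 * y), τ p) = t with hS
  have hSm : ∀ p ∈ S, p.Prime ∧ y < p ∧ p ≤ 4 * y ∧ (p - y) * K / (3 * y) = t.1 ∧ τ p = t.2 := by
    intro p hp
    simp only [hS, Finset.mem_filter, Finset.mem_Ioc] at hp
    exact ⟨hp.1.2, hp.1.1.1, hp.1.1.2, by rw [← hp.2], by rw [← hp.2]⟩
  have hs2 : 2 ≤ S.card := by
    have : (2 : ℝ) ≤ S.card := by
      refine le_trans ?_ ht
      rw [le_div_iff₀ (by positivity)]
      have h4 : D * Real.log (4 * (y : ℝ)) ≤ D * (1 / (8 * D) * (4 * y)) :=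
        mul_le_mul_of_nonneg_left hy2 (by linarith)
      have h5 : D * (1 / (8 * D) * (4 * (y : ℝ))) = y / 2 := by field_simp; norm_num
      linarith
    exact_mod_cast this
  set u := S.card / 2 with hu
  have hu3 : (y : ℝ) / (3 * D * Real.log (4 * y)) ≤ u := by
    have h4 : (S.card : ℝ) ≤ 3 * u := by exact_mod_cast (by omega : S.card ≤ 3 * u)
    have h5 : (y : ℝ) / (3 * D * Real.log (4 * y)) = y / (D * Real.log (4 * y)) / 3 := by
      field_simp
    rw [h5]; linarith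
  let f : Fin S.card ↪o ℕ := S.orderEmbOfFin rfl
  have hf : ∀ i, f i ∈ S := fun i => Finset.orderEmbOfFin_mem _ _ _
  let g : Fin u → ℕ × ℕ := fun j => (f ⟨j, by omega⟩, f ⟨j + u, by omega⟩)
  have hg1 : Function.Injective fun j => (g j).1 := fun i j hij => by
    have := f.injective hij
    exact Fin.ext (by simpa using this)
  have hg2 : Function.Injective fun j => (g j).2 := fun i j hij => by
    have := f.injective hij
    exact Fin.ext (by simpa using this)
  refine ⟨Finset.univ.image g, ⟨?_, ?_, ?_, ?_, ?_, ?_, ?_⟩, ?_, ?_⟩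
  · simp only [Finset.forall_mem_image]
    exact fun j _ => (hSm _ (hf _)).1
  · simp only [Finset.forall_mem_image]
    exact fun j _ => (hSm _ (hf _)).1
  · simp only [Finset.forall_mem_image]
    exact fun j _ => (hSm _ (hf _)).2.2.2.2.trans (hSm _ (hf _)).2.2.2.2.symm
  · simp only [Finset.forall_mem_image]
    intro j _
    by_contra hlt
    push Not at hlt
    set z := (g j).1 with hz
    have hz1 : y < z ∧ z ≤ 4 * y := ⟨(hSm _ (hf _)).2.1, (hSm _ (hf _)).2.2.1⟩
    have hz2 : (y : ℝ) ≤ z := by exact_mod_cast hz1.1.le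
    have hz3 : (z : ℝ) ≤ 4 * y := by exact_mod_cast hz1.2
    have hh : (⌊δ * z⌋₊ : ℝ) ≤ δ * z := Nat.floor_le (by positivity)
    have hh2 : ⌊δ * z⌋₊ ≤ z := by
      have : (⌊δ * z⌋₊ : ℝ) ≤ z := hh.trans (mul_le_of_le_one_left (by positivity) hδ1)
      exact_mod_cast this
    let k : Fin u → ℕ := fun i => f ⟨j + i + 1, by omega⟩
    have hk : Function.Injective k := fun a b hab => by
      have := f.injective hab
      exact Fin.ext (by simpa using this)
    have h4 := short_interval (z := z) (h := ⌊δ * z⌋₊) (by omega) hh2 (Finset.univ.image k)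
      (by
        simp only [Finset.forall_mem_image]
        intro i _
        refine ⟨(hSm _ (hf _)).1, f.strictMono (by simp [Fin.lt_def]), ?_⟩
        have h5 : k i ≤ (g j).2 := f.monotone (by simp [Fin.le_def])
        have h6 : z ≤ (g j).2 := f.monotone (by simp [Fin.le_def])
        have h7 : (g j).2 - z ≤ ⌊δ * z⌋₊ := by
          refine Nat.le_floor ?_
          rw [Nat.cast_sub h6]; linarith
        omega) hA1
    rw [Finset.card_image_of_injective _ hk, Finset.card_univ, Fintype.card_fin] at h4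
    exact numeric hD1 hA hδ hy0 hz2 hz3 hh hu3 h4
  · simp only [Finset.forall_mem_image]
    intro j _
    obtain ⟨-, a1, a2, a3, -⟩ := hSm _ (hf ⟨j, by omega⟩)
    obtain ⟨-, b1, b2, b3, -⟩ := hSm _ (hf ⟨j + u, by omega⟩)
    change ((f ⟨j + u, _⟩ : ℕ) : ℝ) ≤ (1 + ε) * (f ⟨j, _⟩ : ℕ)
    generalize f ⟨j + u, _⟩ = q at *
    generalize f ⟨j, _⟩ = p at *
    have hy3 : 0 < 3 * y := by omega
    have h4 : (q - y) * K < (t.1 + 1) * (3 * y) := by
      rw [← b3]; exact (Nat.div_lt_iff_lt_mul hy3).1 (Nat.lt_succ_self _)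
    have h5 : t.1 * (3 * y) ≤ (p - y) * K := by
      rw [← a3]; exact Nat.div_mul_le_self _ _
    have h6 : ((q : ℝ) - y) * K < (t.1 + 1) * (3 * y) := by
      rw [← Nat.cast_sub b1.le]; exact_mod_cast h4
    have h7 : (t.1 : ℝ) * (3 * y) ≤ ((p : ℝ) - y) * K := by
      rw [← Nat.cast_sub a1.le]; exact_mod_cast h5
    have h8 : (y : ℝ) ≤ p := by exact_mod_cast a1.le
    rw [div_le_iff₀ hε] at hK
    have h9 : ((q : ℝ) - p) * K ≤ (ε * p) * K := by nlinarith
    have := le_of_mul_le_mul_right h9 hK0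
    linarith
  · intro a ha b hb hab
    simp only [Finset.coe_image, Set.mem_image] at ha hb
    obtain ⟨i, -, rfl⟩ := ha
    obtain ⟨j, -, rfl⟩ := hb
    rw [hg1 hab]
  · intro a ha b hb hab
    simp only [Finset.coe_image, Set.mem_image] at ha hb
    obtain ⟨i, -, rfl⟩ := ha
    obtain ⟨j, -, rfl⟩ := hb
    rw [hg2 hab]
  · simp only [Finset.forall_mem_image]
    exact fun j _ => ⟨(hSm _ (hf _)).2.1, (hSm _ (hf _)).2.2.1⟩
  · rw [Finset.sum_image fun i _ j _ hij => hg1 (congrArg Prod.fst hij)]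
    have h4 : ∀ j : Fin u, (4 * (y : ℝ))⁻¹ ≤ ((g j).1 : ℝ)⁻¹ := fun j => by
      have h5 := hSm _ (hf ⟨j, by omega⟩)
      exact inv_anti₀ (by exact_mod_cast h5.1.pos) (by exact_mod_cast h5.2.2.1)
    refine le_trans ?_ (Finset.sum_le_sum fun j _ => h4 j)
    rw [Finset.sum_const, Finset.card_univ, Fintype.card_fin, nsmul_eq_mul]
    calc 1 / (12 * D) / Real.log (4 * y) = y / (3 * D * Real.log (4 * y)) * (4 * (y : ℝ))⁻¹ := by
          field_simp; norm_num
      _ ≤ u * (4 * (y : ℝ))⁻¹ := mul_le_mul_of_nonneg_right hu3 (by positivity)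

theorem exists_matching (τ : ℕ → α) (hfin : (τ '' {p | p.Prime}).Finite) {ε : ℝ} (hε : 0 < ε) :
    ∃ δ > 0, ∀ L : ℝ, ∃ R : Finset (ℕ × ℕ), Matching τ δ ε R ∧ L ≤ ∑ x ∈ R, (x.1 : ℝ)⁻¹ := by
  classical
  obtain ⟨δ, hδ, c, hc, h⟩ := window τ hfin hε
  refine ⟨δ, hδ, fun L => ?_⟩
  have h4 : Tendsto (fun j : ℕ => 4 ^ j) atTop atTop := tendsto_pow_atTop_atTop_of_one_lt (by norm_num)
  obtain ⟨j0, hj0⟩ := eventually_atTop.1 (h4.eventually h)
  choose! R hR hW hM using hj0
  have hl4 : 0 < Real.log 4 := Real.log_pos (by norm_num)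
  have h1 : Tendsto (fun n : ℕ => c / Real.log 4 * (∑ i ∈ range n, 1 / ((i : ℝ) + 1) +
      -∑ i ∈ range j0, 1 / ((i : ℝ) + 1))) atTop atTop :=
    (tendsto_atTop_add_const_right _ _ Real.tendsto_sum_range_one_div_nat_succ_atTop).const_mul_atTop
      (by positivity)
  obtain ⟨j1, hj1, hj2⟩ := ((h1.eventually_ge_atTop L).and (eventually_ge_atTop j0)).exists
  have hle : ∀ j, j0 ≤ j → ∀ x ∈ R j, x.1 ≤ x.2 := fun j hj x hx => by
    have h2 := (hR j hj).lo x hx
    have : (x.1 : ℝ) ≤ x.2 := le_trans (le_mul_of_one_le_left (by positivity) (by linarith)) h2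
    exact_mod_cast this
  have key : ∀ a b p : ℕ, 4 ^ a < p → p ≤ 4 * 4 ^ a → 4 ^ b < p → p ≤ 4 * 4 ^ b → a = b := by
    intro a b p h1 h2 h3 h4
    rw [← pow_succ'] at h2 h4
    have h5 := (Nat.pow_lt_pow_iff_right (by norm_num : 1 < 4)).1 (h1.trans_le h4)
    have h6 := (Nat.pow_lt_pow_iff_right (by norm_num : 1 < 4)).1 (h3.trans_le h2)
    omega
  have hmem : ∀ x ∈ (Ico j0 j1).biUnion R, ∃ j, j0 ≤ j ∧ x ∈ R j := fun x hx => by
    obtain ⟨j, hj, hx⟩ := Finset.mem_biUnion.1 hx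
    exact ⟨j, (Finset.mem_Ico.1 hj).1, hx⟩
  refine ⟨(Ico j0 j1).biUnion R, ⟨?_, ?_, ?_, ?_, ?_, ?_, ?_⟩, ?_⟩
  · intro x hx; obtain ⟨j, hj, hx⟩ := hmem x hx; exact (hR j hj).prime1 x hx
  · intro x hx; obtain ⟨j, hj, hx⟩ := hmem x hx; exact (hR j hj).prime2 x hx
  · intro x hx; obtain ⟨j, hj, hx⟩ := hmem x hx; exact (hR j hj).cls x hx
  · intro x hx; obtain ⟨j, hj, hx⟩ := hmem x hx; exact (hR j hj).lo x hx
  · intro x hx; obtain ⟨j, hj, hx⟩ := hmem x hx; exact (hR j hj).hi x hx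
  · intro x hx x' hx' he
    obtain ⟨j, hj, hx⟩ := hmem x hx
    obtain ⟨j', hj', hx'⟩ := hmem x' hx'
    have : j = j' := key j j' x.1 (hW j hj x hx).1 ((hle j hj x hx).trans (hW j hj x hx).2)
      (he ▸ (hW j' hj' x' hx').1) (he ▸ (hle j' hj' x' hx').trans (hW j' hj' x' hx').2)
    subst this
    exact (hR j hj).inj1 hx hx' he
  · intro x hx x' hx' he
    obtain ⟨j, hj, hx⟩ := hmem x hx
    obtain ⟨j', hj', hx'⟩ := hmem x' hx'
    have : j = j' := key j j' x.2 ((hW j hj x hx).1.trans_le (hle j hj x hx)) (hW j hj x hx).2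
      (he ▸ (hW j' hj' x' hx').1.trans_le (hle j' hj' x' hx')) (he ▸ (hW j' hj' x' hx').2)
    subst this
    exact (hR j hj).inj2 hx hx' he
  · rw [Finset.sum_biUnion]
    · refine hj1.trans ?_
      rw [← sub_eq_add_neg, ← Finset.sum_Ico_eq_sub _ hj2, Finset.mul_sum]
      refine Finset.sum_le_sum fun j hj => le_trans (le_of_eq ?_) (hM j (Finset.mem_Ico.1 hj).1)
      have : (4 : ℝ) * ((4 ^ j : ℕ) : ℝ) = 4 ^ (j + 1) := by push_cast; ring
      rw [this, Real.log_pow]
      push_cast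
      field_simp
    · intro j hj j' hj' hne
      rw [Function.onFun, Finset.disjoint_left]
      intro x hx hx'
      have hj := (Finset.mem_Ico.1 hj).1
      have hj' := (Finset.mem_Ico.1 hj').1
      exact hne (key j j' x.1 (hW j hj x hx).1 ((hle j hj x hx).trans (hW j hj x hx).2)
        (hW j' hj' x hx').1 ((hle j' hj' x hx').trans (hW j' hj' x hx').2))

end Pool.Agent.MP_57adf2_an.H72
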