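import Mathlib

/-! Finitely supported probability measures on a commutative monoid, ordered by divisibility. -/

namespace Pool.Agent.MP_57adf2_an.H72

open Finset Filter Topology

/-- Finitely supported probability measures. -/
@[ext]
structure PM (Λ : Type*) where
  w : Λ →₀ ℝ
  nonneg : ∀ h, 0 ≤ w h
  tot : (w.sum fun _ c => c) = 1

namespace PM

variable {Λ Λ' : Type*} {V V' : Type*} [AddCommGroup V] [Module ℝ V] [AddCommGroup V'] [Module ℝ V']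

/-- Expectation. -/
noncomputable def E (ρ : PM Λ) (φ : Λ → V) : V := ∑ h ∈ ρ.w.support, ρ.w h • φ h

lemma E_eq (ρ : PM Λ) (φ : Λ → V) : ρ.E φ = Finsupp.linearCombination ℝ φ ρ.w := by
  rw [Finsupp.linearCombination_apply]; rfl

lemma E_add (ρ : PM Λ) (φ ψ : Λ → V) : ρ.E (fun h => φ h + ψ h) = ρ.E φ + ρ.E ψ := by
  simp [E, Finset.sum_add_distrib]

lemma E_sub (ρ : PM Λ) (φ ψ : Λ → V) : ρ.E (fun h => φ h - ψ h) = ρ.E φ - ρ.E ψ := by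
  simp [E, Finset.sum_sub_distrib, smul_sub]

lemma E_map (ρ : PM Λ) (L : V →ₗ[ℝ] V') (φ : Λ → V) : ρ.E (fun h => L (φ h)) = L (ρ.E φ) := by
  simp [E]

lemma E_smul (ρ : PM Λ) (c : ℝ) (φ : Λ → V) : ρ.E (fun h => c • φ h) = c • ρ.E φ :=
  ρ.E_map (c • LinearMap.id) φ

lemma E_mul_left (ρ : PM Λ) (c : ℝ) (φ : Λ → ℝ) : ρ.E (fun h => c * φ h) = c * ρ.E φ :=
  ρ.E_smul c φ

lemma E_const (ρ : PM Λ) (c : V) : ρ.E (fun _ => c) = c := by
  have := ρ.tot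
  rw [Finsupp.sum] at this
  rw [E, ← Finset.sum_smul, this, one_smul]

lemma E_comm (ρ : PM Λ) (σ : PM Λ') (φ : Λ → Λ' → V) :
    ρ.E (fun h => σ.E (φ h)) = σ.E fun k => ρ.E fun h => φ h k := by
  simp only [E, Finset.smul_sum]
  rw [Finset.sum_comm]
  exact Finset.sum_congr rfl fun _ _ => Finset.sum_congr rfl fun _ _ => smul_comm _ _ _

lemma E_mono' (ρ : PM Λ) {φ ψ : Λ → ℝ} (h : ∀ g ∈ ρ.w.support, φ g ≤ ψ g) : ρ.E φ ≤ ρ.E ψ :=
  Finset.sum_le_sum fun g hg => mul_le_mul_of_nonneg_left (h g hg) (ρ.nonneg g)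

lemma E_mono (ρ : PM Λ) {φ ψ : Λ → ℝ} (h : ∀ g, φ g ≤ ψ g) : ρ.E φ ≤ ρ.E ψ :=
  ρ.E_mono' fun g _ => h g

lemma E_le' (ρ : PM Λ) {φ : Λ → ℝ} {c : ℝ} (h : ∀ g ∈ ρ.w.support, φ g ≤ c) : ρ.E φ ≤ c :=
  (ρ.E_mono' h).trans (ρ.E_const c).le

lemma E_le (ρ : PM Λ) {φ : Λ → ℝ} {c : ℝ} (h : ∀ g, φ g ≤ c) : ρ.E φ ≤ c :=
  ρ.E_le' fun g _ => h g

lemma le_E (ρ : PM Λ) {φ : Λ → ℝ} {c : ℝ} (h : ∀ g, c ≤ φ g) : c ≤ ρ.E φ :=
  (ρ.E_const c).ge.trans (ρ.E_mono h)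

lemma norm_E_le {W : Type*} [SeminormedAddCommGroup W] [NormedSpace ℝ W] (ρ : PM Λ) (φ : Λ → W) :
    ‖ρ.E φ‖ ≤ ρ.E fun h => ‖φ h‖ :=
  norm_sum_le_of_le _ fun g _ => by
    rw [norm_smul, Real.norm_of_nonneg (ρ.nonneg g), smul_eq_mul]

lemma norm_E_le_of_le' {W : Type*} [SeminormedAddCommGroup W] [NormedSpace ℝ W] (ρ : PM Λ)
    {φ : Λ → W} {c : ℝ} (h : ∀ g ∈ ρ.w.support, ‖φ g‖ ≤ c) : ‖ρ.E φ‖ ≤ c :=
  (ρ.norm_E_le φ).trans (ρ.E_le' h)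

lemma norm_E_le_of_le {W : Type*} [SeminormedAddCommGroup W] [NormedSpace ℝ W] (ρ : PM Λ)
    {φ : Λ → W} {c : ℝ} (h : ∀ g, ‖φ g‖ ≤ c) : ‖ρ.E φ‖ ≤ c :=
  ρ.norm_E_le_of_le' fun g _ => h g

lemma E_single (ρ : PM Λ) : ρ.E (fun h => Finsupp.single h (1 : ℝ)) = ρ.w := by
  conv_rhs => rw [← Finsupp.sum_single ρ.w]
  simp [E, Finsupp.sum]

lemma ext_E {ρ σ : PM Λ} (h : ∀ φ : Λ → (Λ →₀ ℝ), ρ.E φ = σ.E φ) : ρ = σ :=
  PM.ext (by rw [← E_single, h, E_single])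

lemma tot_eq (w : Λ →₀ ℝ) :
    (w.sum fun _ c => c) = Finsupp.linearCombination ℝ (fun _ => (1 : ℝ)) w := by
  simp [Finsupp.linearCombination_apply]

/-- Dirac mass. -/
noncomputable def δ (g : Λ) : PM Λ where
  w := Finsupp.single g 1
  nonneg h := by classical rw [Finsupp.single_apply]; split_ifs <;> norm_num
  tot := by simp

lemma E_δ (g : Λ) (φ : Λ → V) : (δ g).E φ = φ g := by
  rw [E_eq]; simp [δ]

/-- Mixture of a family of measures. -/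
noncomputable def bind (ρ : PM Λ) (κ : Λ → PM Λ') : PM Λ' where
  w := ρ.E fun h => (κ h).w
  nonneg g := by
    have := ρ.E_map (Finsupp.lapply (R := ℝ) g) fun h => (κ h).w
    rw [Finsupp.lapply_apply] at this
    rw [← this]
    exact ρ.le_E fun h => (κ h).nonneg g
  tot := by
    rw [tot_eq, ← E_map]
    simp only [← tot_eq, tot, E_const]

lemma E_bind (ρ : PM Λ) (κ : Λ → PM Λ') (φ : Λ' → V) :
    (ρ.bind κ).E φ = ρ.E fun h => (κ h).E φ := by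
  simp only [E_eq (ρ.bind κ), E_eq (κ _)]
  rw [E_map]; rfl

/-- Midpoint of two measures. -/
noncomputable def mid (ρ σ : PM Λ) : PM Λ where
  w := (1 / 2 : ℝ) • (ρ.w + σ.w)
  nonneg g := by
    have := ρ.nonneg g
    have := σ.nonneg g
    simp only [Finsupp.smul_apply, Finsupp.add_apply, smul_eq_mul]
    positivity
  tot := by
    rw [tot_eq, map_smul, map_add, ← tot_eq, ← tot_eq, tot, tot]; norm_num

lemma E_mid (ρ σ : PM Λ) (φ : Λ → V) : (ρ.mid σ).E φ = (1 / 2 : ℝ) • (ρ.E φ + σ.E φ) := by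
  simp only [E_eq, mid, map_smul, map_add]

variable [CommMonoid Λ]

noncomputable instance : Mul (PM Λ) := ⟨fun ρ σ => ρ.bind fun h => σ.bind fun k => δ (h * k)⟩

noncomputable instance : One (PM Λ) := ⟨δ 1⟩

lemma E_mul (ρ σ : PM Λ) (φ : Λ → V) : (ρ * σ).E φ = ρ.E fun h => σ.E fun k => φ (h * k) := by
  change (ρ.bind _).E φ = _
  simp only [E_bind, E_δ]

lemma E_one (φ : Λ → V) : (1 : PM Λ).E φ = φ 1 := E_δ 1 φ

noncomputable instance : CommMonoid (PM Λ) where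
  mul_assoc a b c := ext_E fun φ => by simp only [E_mul, mul_assoc]
  one_mul a := ext_E fun φ => by simp only [E_mul, E_one, one_mul]
  mul_one a := ext_E fun φ => by simp only [E_mul, E_one, mul_one]
  mul_comm a b := ext_E fun φ => by
    simp only [E_mul]
    rw [E_comm]
    simp only [mul_comm]

instance : Preorder (PM Λ) where
  le a b := a ∣ b
  le_refl := dvd_refl
  le_trans _ _ _ := dvd_trans

lemma le_mul_left' (a b : PM Λ) : a ≤ b * a := dvd_mul_left a b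

lemma le_iff {a b : PM Λ} : a ≤ b ↔ ∃ c, b = c * a := dvd_iff_exists_eq_mul_left

instance : IsDirectedOrder (PM Λ) :=
  ⟨fun a b => ⟨a * b, dvd_mul_right a b, dvd_mul_left b a⟩⟩

instance : Nonempty (PM Λ) := ⟨1⟩

lemma E_δ_mul (g : Λ) (ρ : PM Λ) (φ : Λ → V) : (δ g * ρ).E φ = ρ.E fun k => φ (g * k) := by
  rw [E_mul, E_δ]

end PM

end Pool.Agent.MP_57adf2_an.H72
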