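import Pool.Agent.MP_57adf2_an.H72.Avg
import Pool.Agent.MP_57adf2_an.H72.Match

/-! Scale invariance and shift invariance of averages of class functions. -/

namespace Pool.Agent.MP_57adf2_an.H72

open Finset Filter Topology

variable {α : Type*} (E : Type*) [SeminormedAddCommGroup E] [NormedSpace ℝ E]

variable {E} in
/-- Sequences bounded by one that only depend on the class. -/
def Adm (τ : ℕ → α) (a : ℕ → E) : Prop := (∀ n, ‖a n‖ ≤ 1) ∧ ∀ m n, τ m = τ n → a m = a n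

/-- The averages at scales `x` and `t * x` are eventually uniformly close. -/
def Close (τ : ℕ → α) (t η : ℝ) : Prop :=
  ∀ᶠ x : ℝ in atTop, ∀ a : ℕ → E, Adm τ a → ‖M a x - M a (t * x)‖ ≤ η

variable {E} {τ : ℕ → α}

omit [NormedSpace ℝ E] in
lemma Adm.mul (hτ : ∀ a b c, τ a = τ b → τ (c * a) = τ (c * b)) {a : ℕ → E} (ha : Adm τ a)
    (c : ℕ) : Adm τ fun n => a (c * n) :=
  ⟨fun _ => ha.1 _, fun m n h => ha.2 _ _ (hτ m n c h)⟩

lemma Close.mono {t η η' : ℝ} (h : Close E τ t η) (hη : η ≤ η') : Close E τ t η' :=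
  Filter.Eventually.mono h fun _ hx a ha => (hx a ha).trans hη

lemma Close.mul {s t η η' : ℝ} (hs : 0 < s) (h1 : Close E τ s η) (h2 : Close E τ t η') :
    Close E τ (t * s) (η + η') := by
  filter_upwards [h1, (tendsto_id.const_mul_atTop hs).eventually h2] with x hx1 hx2 a ha
  have := hx2 a ha
  simp only [id] at this
  rw [mul_assoc]
  exact (norm_sub_le_norm_sub_add_norm_sub _ (M a (s * x)) _).trans (add_le_add (hx1 a ha) this)

lemma Close.pow {t η : ℝ} (ht : 0 < t) (h : Close E τ t η) (j : ℕ) :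
    Close E τ (t ^ j) (j * η) := by
  induction j with
  | zero => exact Eventually.of_forall fun x a _ => by simp
  | succ j ih =>
    have := Close.mul ht h ih
    rw [← pow_succ] at this
    refine this.mono (le_of_eq ?_)
    push_cast; ring

lemma close_small {r κ : ℝ} (hr : 1 ≤ r) (hκ : 0 < κ) : Close E τ r (2 * (r - 1) + κ) := by
  filter_upwards [eventually_gt_atTop 0, eventually_ge_atTop κ⁻¹] with x hx hxκ a ha
  have h1 : x ≤ r * x := le_mul_of_one_le_left hx.le hr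
  rw [norm_sub_rev]
  refine (M_lip ha.1 hx h1).trans ?_
  rw [div_le_iff₀ (by linarith)]
  have h2 : 1 ≤ κ * x := by rwa [← one_div, div_le_iff₀' hκ] at hxκ
  have h3 : 0 ≤ (r - 1) * x := mul_nonneg (by linarith) hx.le
  nlinarith

lemma norm_weights_sub {ι : Type*} (s : Finset ι) (u v : ι → ℝ) (X Y : ι → E) {η ε : ℝ}
    (hu0 : ∀ i ∈ s, 0 ≤ u i) (hu : ∑ i ∈ s, u i = 1) (hv : ∑ i ∈ s, v i = 1)
    (huv : ∀ i ∈ s, (1 - η) * u i ≤ v i) (hY : ∀ i ∈ s, ‖Y i‖ ≤ 1)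
    (hXY : ∀ i ∈ s, ‖X i - Y i‖ ≤ ε) (hη : 0 ≤ η) :
    ‖∑ i ∈ s, u i • X i - ∑ i ∈ s, v i • Y i‖ ≤ ε + 2 * η := by
  rw [← Finset.sum_sub_distrib]
  refine (norm_sum_le_of_le _ (n := fun i => u i * ε + (v i - u i + 2 * η * u i))
    fun i hi => ?_).trans (le_of_eq ?_)
  · have : u i • X i - v i • Y i = u i • (X i - Y i) + (u i - v i) • Y i := by
      rw [smul_sub, sub_smul]; abel
    rw [this]
    refine (norm_add_le _ _).trans (add_le_add ?_ ?_)
    · rw [norm_smul, Real.norm_of_nonneg (hu0 i hi)]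
      exact mul_le_mul_of_nonneg_left (hXY i hi) (hu0 i hi)
    · rw [norm_smul]
      refine (mul_le_of_le_one_right (norm_nonneg _) (hY i hi)).trans ?_
      have h1 := huv i hi
      have h2 := mul_nonneg hη (hu0 i hi)
      rw [Real.norm_eq_abs, abs_le]
      constructor <;> nlinarith
  · rw [Finset.sum_add_distrib, Finset.sum_add_distrib, Finset.sum_sub_distrib, ← Finset.sum_mul,
      ← Finset.mul_sum, hu, hv]
    ring

lemma close_of_bin (hτ : ∀ a b c, τ a = τ b → τ (c * a) = τ (c * b)) {δ ε η t : ℝ}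
    {R : Finset (ℕ × ℕ)} (hR : Matching τ δ ε R) (hη : 0 < η) (hη1 : η ≤ 1) (ht1 : 1 ≤ t)
    (ht2 : t ≤ 2) (hlo : ∀ x ∈ R, t * x.1 ≤ (x.2 : ℝ))
    (hhi : ∀ x ∈ R, (x.2 : ℝ) ≤ (1 + η) * t * x.1)
    (hL : 8 / η ^ 2 ≤ ∑ x ∈ R, (x.1 : ℝ)⁻¹) : Close E τ t (9 * η) := by
  classical
  have hp1 : ∀ x ∈ R, (0 : ℝ) < x.1 := fun x hx => by exact_mod_cast (hR.prime1 x hx).pos
  have hp2 : ∀ x ∈ R, (0 : ℝ) < x.2 := fun x hx => by exact_mod_cast (hR.prime2 x hx).pos
  have ht0 : 0 < t := by linarith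
  obtain ⟨L1, hL1⟩ : ∃ L, L = ∑ x ∈ R, (x.1 : ℝ)⁻¹ := ⟨_, rfl⟩
  obtain ⟨L2, hL2⟩ : ∃ L, L = ∑ x ∈ R, (x.2 : ℝ)⁻¹ := ⟨_, rfl⟩
  have e1 : ∑ p ∈ R.image Prod.fst, (p : ℝ)⁻¹ = L1 := by rw [Finset.sum_image hR.inj1, hL1]
  have e2 : ∑ p ∈ R.image Prod.snd, (p : ℝ)⁻¹ = L2 := by rw [Finset.sum_image hR.inj2, hL2]
  rw [← hL1] at hL
  have h8 : 8 / η ^ 2 = 4 * (2 / η ^ 2) := by ring
  have h0 : 0 < 2 / η ^ 2 := by positivity
  have hL12 : L1 ≤ 4 * L2 := by
    rw [hL1, hL2, Finset.mul_sum]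
    refine Finset.sum_le_sum fun x hx => ?_
    have h1 := hhi x hx
    have h2 := hp1 x hx
    have h3 : (1 + η) * t ≤ 4 := by nlinarith
    rw [← div_eq_mul_inv, inv_eq_one_div, div_le_div_iff₀ h2 (hp2 x hx)]
    nlinarith
  have hL21 : t * L2 ≤ L1 := by
    rw [hL1, hL2, Finset.mul_sum]
    refine Finset.sum_le_sum fun x hx => ?_
    rw [← div_eq_mul_inv, inv_eq_one_div, div_le_div_iff₀ (hp2 x hx) (hp1 x hx), one_mul]
    exact hlo x hx
  have hL10 : 0 < L1 := by linarith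
  have hL20 : 0 < L2 := by linarith
  have T1 := TK (E := E) hη (R.image Prod.fst) (by
    simp only [Finset.forall_mem_image]; exact hR.prime1) (by rw [e1]; linarith)
  have T2 := TK (E := E) hη (R.image Prod.snd) (by
    simp only [Finset.forall_mem_image]; exact hR.prime2) (by rw [e2]; linarith)
  filter_upwards [T1, (tendsto_id.const_mul_atTop ht0).eventually T2, eventually_gt_atTop 0,
    (Filter.eventually_all_finset R).2 fun z _ => eventually_ge_atTop ((z.1 : ℝ) / η)]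
    with x h1 h2 hx hxz a ha
  have h1 := h1 a ha.1
  have h2 := h2 a ha.1
  simp only [id] at h2
  rw [e1, Finset.sum_image hR.inj1, Finset.smul_sum] at h1
  rw [e2, Finset.sum_image hR.inj2, Finset.smul_sum] at h2
  simp only [smul_smul] at h1 h2
  have h3 := norm_weights_sub R (fun z => L1⁻¹ * (z.1 : ℝ)⁻¹) (fun z => L2⁻¹ * (z.2 : ℝ)⁻¹)
    (fun z => M (fun n => a (z.1 * n)) (x / z.1)) (fun z => M (fun n => a (z.2 * n)) (t * x / z.2))
    (η := η) (ε := 3 * η) (fun z _ => by positivity)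
    (by rw [← Finset.mul_sum, ← hL1, inv_mul_cancel₀ hL10.ne'])
    (by rw [← Finset.mul_sum, ← hL2, inv_mul_cancel₀ hL20.ne'])
    (fun z hz => by
      have a1 := hp1 z hz
      have a2 := hp2 z hz
      rw [← mul_inv, ← mul_inv, ← div_eq_mul_inv, inv_eq_one_div,
        div_le_div_iff₀ (by positivity) (by positivity), one_mul]
      have a3 : L2 * z.2 ≤ (1 + η) * (L1 * z.1) :=
        calc L2 * z.2 ≤ L2 * ((1 + η) * t * z.1) := mul_le_mul_of_nonneg_left (hhi z hz) hL20.le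
          _ = (1 + η) * (t * L2 * z.1) := by ring
          _ ≤ (1 + η) * (L1 * z.1) := by gcongr
      have a4 : 0 < L1 * z.1 := by positivity
      have a5 := mul_le_mul_of_nonneg_left a3 (by linarith : 0 ≤ 1 - η)
      have a6 : 0 ≤ η ^ 2 * (L1 * z.1) := by positivity
      nlinarith)
    (fun z _ => norm_M_le zero_le_one fun n _ _ => ha.1 _)
    (fun z hz => by
      have a1 := hp1 z hz
      have a2 := hp2 z hz
      have a3 : (fun n => a (z.2 * n)) = fun n => a (z.1 * n) := by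
        ext n
        refine ha.2 _ _ ?_
        rw [mul_comm z.2, mul_comm z.1]
        exact hτ _ _ n (hR.cls z hz).symm
      have a4 : t * x / z.2 ≤ x / z.1 := by
        rw [div_le_div_iff₀ a2 a1]
        have := mul_le_mul_of_nonneg_left (hlo z hz) hx.le
        linarith
      rw [a3]
      refine (M_lip (fun n => ha.1 _) (by positivity) a4).trans ?_
      rw [div_le_iff₀ (by positivity)]
      have a5 : 1 ≤ η * (x / z.1) := by
        have := hxz z hz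
        rw [div_le_iff₀ hη] at this
        rw [← mul_div_assoc, le_div_iff₀ a1]; linarith
      have a6 : (1 - η) * (x / z.1) ≤ t * x / z.2 := by
        rw [← mul_div_assoc, div_le_div_iff₀ a1 a2]
        have b1 := mul_le_mul_of_nonneg_left (hhi z hz) (by
          exact mul_nonneg (by linarith) hx.le : 0 ≤ (1 - η) * x)
        have b2 : 0 ≤ η ^ 2 * (t * x * z.1) := by positivity
        nlinarith
      linarith) hη.le
  calc ‖M a x - M a (t * x)‖
      ≤ ‖M a x - ∑ z ∈ R, (L1⁻¹ * (z.1 : ℝ)⁻¹) • M (fun n => a (z.1 * n)) (x / z.1)‖ +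
        (‖∑ z ∈ R, (L1⁻¹ * (z.1 : ℝ)⁻¹) • M (fun n => a (z.1 * n)) (x / z.1) -
          ∑ z ∈ R, (L2⁻¹ * (z.2 : ℝ)⁻¹) • M (fun n => a (z.2 * n)) (t * x / z.2)‖ +
        ‖∑ z ∈ R, (L2⁻¹ * (z.2 : ℝ)⁻¹) • M (fun n => a (z.2 * n)) (t * x / z.2) - M a (t * x)‖) :=
        (norm_sub_le_norm_sub_add_norm_sub _ _ _).trans
          (add_le_add le_rfl (norm_sub_le_norm_sub_add_norm_sub _ _ _))
    _ ≤ 2 * η + ((3 * η + 2 * η) + 2 * η) :=
        add_le_add h1 (add_le_add h3 (by rwa [norm_sub_rev]))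
    _ = 9 * η := by ring

lemma exists_close (hτ : ∀ a b c, τ a = τ b → τ (c * a) = τ (c * b))
    (hfin : (τ '' {p | p.Prime}).Finite) {ε : ℝ} (hε : 0 < ε) (hε1 : ε ≤ 1) :
    ∃ δ > 0, ∀ η > 0, η ≤ 1 → ∃ t, 1 + δ ≤ t ∧ t ≤ 1 + ε ∧ Close E τ t (9 * η) := by
  classical
  obtain ⟨δ, hδ, h⟩ := exists_matching τ hfin hε
  refine ⟨δ, hδ, fun η hη hη1 => ?_⟩
  obtain ⟨R, hR, hL⟩ := h ((range (⌊2 / η⌋₊ + 1)).card • (8 / η ^ 2))
  have hp1 : ∀ x ∈ R, (0 : ℝ) < x.1 := fun x hx => by exact_mod_cast (hR.prime1 x hx).pos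
  have hhi : ∀ x ∈ R, (x.2 : ℝ) / x.1 ≤ 1 + ε := fun x hx => by
    rw [div_le_iff₀ (hp1 x hx)]; exact hR.hi x hx
  have hlo : ∀ x ∈ R, 1 + δ ≤ (x.2 : ℝ) / x.1 := fun x hx => by
    rw [le_div_iff₀ (hp1 x hx)]; exact hR.lo x hx
  obtain ⟨j, -, hj⟩ := Finset.exists_le_sum_fiber_of_maps_to_of_nsmul_le_sum
    (f := fun x : ℕ × ℕ => ⌊(x.2 : ℝ) / x.1 / η⌋₊) (fun x hx => by
      rw [Finset.mem_range, Nat.lt_succ_iff]
      exact Nat.floor_le_floor (div_le_div_of_nonneg_right (by linarith [hhi x hx]) hη.le))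
    Finset.nonempty_range_add_one hL
  set R' := R.filter fun x => ⌊(x.2 : ℝ) / x.1 / η⌋₊ = j with hR'
  have hsub : R' ⊆ R := Finset.filter_subset _ _
  have hne : R'.Nonempty := by
    by_contra h0
    rw [Finset.not_nonempty_iff_eq_empty] at h0
    rw [h0, Finset.sum_empty] at hj
    exact absurd hj (not_le.2 (by positivity))
  obtain ⟨x0, hx0, hmin⟩ := Finset.exists_min_image R' (fun x => (x.2 : ℝ) / x.1) hne
  have ht1 := hlo x0 (hsub hx0)
  have ht2 := hhi x0 (hsub hx0)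
  refine ⟨(x0.2 : ℝ) / x0.1, ht1, ht2, close_of_bin hτ (δ := δ) (ε := ε) (R := R')
    ⟨fun x hx => hR.prime1 x (hsub hx), fun x hx => hR.prime2 x (hsub hx),
      fun x hx => hR.cls x (hsub hx), fun x hx => hR.lo x (hsub hx), fun x hx => hR.hi x (hsub hx),
      hR.inj1.mono hsub, hR.inj2.mono hsub⟩ hη hη1 (by linarith) (by linarith) ?_ ?_ hj⟩
  · intro x hx
    rw [← le_div_iff₀ (hp1 x (hsub hx))]; exact hmin x hx
  · intro x hx
    rw [← div_le_iff₀ (hp1 x (hsub hx))]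
    have h1 := (Finset.mem_filter.1 hx).2
    have h2 := (Finset.mem_filter.1 hx0).2
    have h3 := Nat.lt_floor_add_one ((x.2 : ℝ) / x.1 / η)
    have h4 := Nat.floor_le (a := (x0.2 : ℝ) / x0.1 / η) (by positivity)
    rw [h1, div_lt_iff₀ hη] at h3
    rw [h2, le_div_iff₀ hη] at h4
    nlinarith

/-- Scale invariance. -/
theorem close_all (hτ : ∀ a b c, τ a = τ b → τ (c * a) = τ (c * b))
    (hfin : (τ '' {p | p.Prime}).Finite) {s κ : ℝ} (hs : 1 ≤ s) (hκ : 0 < κ) :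
    Close E τ s κ := by
  obtain ⟨δ, hδ, h⟩ := exists_close (E := E) hτ hfin (ε := min 1 (κ / 8)) (by positivity)
    (min_le_left _ _)
  obtain ⟨J, hJ⟩ := pow_unbounded_of_one_lt s (by linarith : 1 < 1 + δ)
  obtain ⟨t, ht1, ht2, ht⟩ := h (min 1 (κ / (36 * (J + 1)))) (by positivity) (min_le_left _ _)
  obtain ⟨j, hj1, hj2⟩ := exists_nat_pow_near hs (by linarith : 1 < t)
  have ht0 : 0 < t := by linarith
  have hjJ : j < J := by
    have : (1 + δ) ^ j < (1 + δ) ^ J :=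
      lt_of_le_of_lt ((pow_le_pow_left₀ (by linarith) ht1 j).trans hj1) hJ
    exact (pow_lt_pow_iff_right₀ (by linarith)).1 this
  have hp : 0 < t ^ j := pow_pos ht0 j
  have h1 := Close.mul hp (ht.pow ht0 j)
    (close_small (r := s / t ^ j) (κ := κ / 4) ((one_le_div hp).2 hj1) (by positivity))
  rw [div_mul_cancel₀ _ hp.ne'] at h1
  refine h1.mono ?_
  have h2 : s / t ^ j ≤ t := by
    rw [div_le_iff₀ hp, ← pow_succ']; exact hj2.le
  have h3 := min_le_right 1 (κ / 8)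
  have h4 : (j : ℝ) * (9 * min 1 (κ / (36 * (J + 1)))) ≤ κ / 4 := by
    have h5 : (j : ℝ) ≤ J + 1 := by exact_mod_cast (by omega : j ≤ J + 1)
    calc (j : ℝ) * (9 * min 1 (κ / (36 * (J + 1)))) ≤ (J + 1) * (9 * (κ / (36 * (J + 1)))) := by
          gcongr; exact min_le_right _ _
      _ = κ / 4 := by field_simp; norm_num
  linarith

/-- Shift invariance under a prime of a divergent class. -/
theorem shift_prime (hτ : ∀ a b c, τ a = τ b → τ (c * a) = τ (c * b))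
    (hfin : (τ '' {p | p.Prime}).Finite) {q : ℕ}
    (hq : ∀ L : ℝ, ∃ B : Finset ℕ, (∀ p ∈ B, p.Prime ∧ τ p = τ q) ∧ L ≤ ∑ p ∈ B, (p : ℝ)⁻¹)
    {κ : ℝ} (hκ : 0 < κ) :
    ∀ᶠ x : ℝ in atTop, ∀ a : ℕ → E, Adm τ a → ‖M a x - M (fun n => a (q * n)) x‖ ≤ κ := by
  obtain ⟨B, hB, hL⟩ := hq (2 / (κ / 3) ^ 2)
  have hL0 : 0 < ∑ p ∈ B, (p : ℝ)⁻¹ := lt_of_lt_of_le (by positivity) hL
  have h1 : ∀ p ∈ B, ∀ᶠ x : ℝ in atTop, ∀ a : ℕ → E, Adm τ a →
      ‖M a (x / p) - M a x‖ ≤ κ / 3 := fun p hp => by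
    have hp1 : (1 : ℝ) ≤ p := by exact_mod_cast (hB p hp).1.pos
    filter_upwards [(tendsto_id.atTop_div_const (by linarith : (0 : ℝ) < p)).eventually
      (close_all (E := E) hτ hfin hp1 (by positivity : 0 < κ / 3))] with x hx a ha
    have := hx a ha
    rwa [id, mul_div_cancel₀ _ (by linarith : (p : ℝ) ≠ 0)] at this
  filter_upwards [TK (E := E) (by positivity : 0 < κ / 3) B (fun p hp => (hB p hp).1) hL,
    (Filter.eventually_all_finset B).2 h1] with x hx1 hx2 a ha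
  have h2 := hx1 a ha.1
  set L := ∑ p ∈ B, (p : ℝ)⁻¹ with hLdef
  have h3 : ‖L⁻¹ • ∑ p ∈ B, (p : ℝ)⁻¹ • M (fun n => a (p * n)) (x / p) -
      M (fun n => a (q * n)) x‖ ≤ κ / 3 := by
    have e1 : M (fun n => a (q * n)) x = L⁻¹ • ∑ p ∈ B, (p : ℝ)⁻¹ • M (fun n => a (q * n)) x := by
      rw [← Finset.sum_smul, smul_smul, inv_mul_cancel₀ hL0.ne', one_smul]
    rw [e1, ← smul_sub, ← Finset.sum_sub_distrib, norm_smul,
      Real.norm_of_nonneg (inv_nonneg.2 hL0.le), inv_mul_le_iff₀ hL0, hLdef, Finset.sum_mul]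
    refine norm_sum_le_of_le _ fun p hp => ?_
    rw [← smul_sub, norm_smul, Real.norm_of_nonneg (by positivity)]
    refine mul_le_mul_of_nonneg_left ?_ (by positivity)
    have e2 : (fun n => a (p * n)) = fun n => a (q * n) := by
      ext n
      refine ha.2 _ _ ?_
      rw [mul_comm p, mul_comm q]
      exact hτ _ _ n (hB p hp).2
    rw [e2]
    exact hx2 p hp _ (ha.mul hτ q)
  have := (norm_sub_le_norm_sub_add_norm_sub _ _ _).trans (add_le_add h2 h3)
  linarith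

end Pool.Agent.MP_57adf2_an.H72
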